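import Pool.Agent.Lib.GU40.B_SG1
import Pool.Agent.Lib.GT40.B_KOE
import Pool.Agent.Lib.GT40.B_ID

/-! Project gu40: the cell at a vertex. -/

open scoped Manifold ContDiff Topology Matrix
open Set Filter Metric Complex Sum

set_option linter.unusedVariables false
set_option linter.unusedSectionVars false

noncomputable section

namespace Pool.Agent.Lib.GU40

open Pool.Agent.Lib.GT40 (E cx Act hol_ch hol_symm sm_ch st_ID)

namespace CELB

variable {ι R F : Type} [Fintype ι] [Fintype R] [DecidableEq R] {d : ℕ} {Y : Type}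
  [TopologicalSpace Y] [T2Space Y] [ChartedSpace (E d) Y] [IsManifold 𝓘(ℂ, E d) ω Y]
  {w : F → R → ι → ℤ} {nb : F → R → F} {s : F → (R → ℂ) → Y} {κ : F → Y → R → ℂ}
  {ρ : (ι → ℝ) → Y → Y} {A : (ι → ℂ) → Y → Y}

open SG1B (sgL sgL_apply)

theorem sg_0 (u : R → ι → ℤ) (τ : ι → ℂ) : sg u τ 0 = 0 := map_zero (sgL u τ)

theorem fix (h : Dat d w nb s κ ρ) (hA : Act d ρ A) (o : F) (τ : ι → ℂ) :
    A τ (s o 0) = s o 0 := by
  refine st_ID _ d Y univ (fun τ => A τ (s o 0)) (fun _ => s o 0) isOpen_univ convex_univ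
    (mem_univ _) (fun t _ => ?_) (fun t _ => mdifferentiableAt_const) (fun θ _ => ?_) τ (mem_univ _)
  · exact MDifferentiableAt.comp (g := fun p : (ι → ℂ) × Y => A p.1 p.2)
      (f := fun t => (t, s o 0)) t (hA.hol _) (mdifferentiableAt_id.prodMk mdifferentiableAt_const)
  · show A (cx θ) (s o 0) = s o 0
    rw [hA.re, h.eqv, sg_0]

theorem holG (hA : Act d ρ A) (p : Y) {y : (ι → ℂ) × E d}
    (hy : y.2 ∈ (chartAt (E d) p).target) :
    MDifferentiableAt 𝓘(ℂ, (ι → ℂ) × E d) 𝓘(ℂ, E d)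
      (fun y : (ι → ℂ) × E d => A y.1 ((chartAt (E d) p).symm y.2)) y :=
  MDifferentiableAt.comp (g := fun p : (ι → ℂ) × Y => A p.1 p.2)
    (f := fun y : (ι → ℂ) × E d => (y.1, (chartAt (E d) p).symm y.2)) y (hA.hol _)
    ((mdifferentiableAt_iff_differentiableAt.2 differentiableAt_fst).prodMk
      ((hol_symm hy).comp y (mdifferentiableAt_iff_differentiableAt.2 differentiableAt_snd)))

theorem evG (hA : Act d ρ A) {p : Y} (hp : ∀ τ, A τ p = p) (τ : ι → ℂ) :
    ∀ᶠ y in 𝓝 (τ, chartAt (E d) p p), DifferentiableAt ℂ (chartAt (E d) p ∘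
      fun y : (ι → ℂ) × E d => A y.1 ((chartAt (E d) p).symm y.2)) y := by
  have hs := mem_chart_source (E d) p
  have hz := (chartAt (E d) p).map_source hs
  have h1 : ∀ᶠ y : (ι → ℂ) × E d in 𝓝 (τ, chartAt (E d) p p),
      y.2 ∈ (chartAt (E d) p).target :=
    continuous_snd.continuousAt.preimage_mem_nhds ((chartAt (E d) p).open_target.mem_nhds hz)
  have h2 : ∀ᶠ y : (ι → ℂ) × E d in 𝓝 (τ, chartAt (E d) p p),
      A y.1 ((chartAt (E d) p).symm y.2) ∈ (chartAt (E d) p).source := by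
    refine (holG hA p (y := (τ, chartAt (E d) p p)) hz).continuousAt.preimage_mem_nhds
      ((chartAt (E d) p).open_source.mem_nhds ?_)
    show A τ ((chartAt (E d) p).symm (chartAt (E d) p p)) ∈ _
    rw [(chartAt (E d) p).left_inv hs, hp]
    exact hs
  filter_upwards [h1, h2] with y a b
  exact hol_ch (holG hA p a) b

theorem part (hA : Act d ρ A) {p : Y} (hp : ∀ τ, A τ p = p) (τ : ι → ℂ) :
    HasFDerivAt (chartAt (E d) p ∘ A τ ∘ (chartAt (E d) p).symm)
      ((fderiv ℂ (chartAt (E d) p ∘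
        fun y : (ι → ℂ) × E d => A y.1 ((chartAt (E d) p).symm y.2))
        (τ, chartAt (E d) p p)).comp (ContinuousLinearMap.inr ℂ _ _)) (chartAt (E d) p p) :=
  HasFDerivAt.comp (f := fun z : E d => (τ, z)) _ (evG hA hp τ).self_of_nhds.hasFDerivAt
    (hasFDerivAt_prodMk_right τ _)

theorem holL (hA : Act d ρ A) {p : Y} (hp : ∀ τ, A τ p = p) (y : E d) :
    Differentiable ℂ fun τ : ι → ℂ =>
      fderiv ℂ (chartAt (E d) p ∘ A τ ∘ (chartAt (E d) p).symm) (chartAt (E d) p p) y := by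
  intro τ
  have h1 := ((SV.H85.contDiffAt_nat (evG hA hp τ) 2).fderiv_right (m := 1)
    (by norm_num)).differentiableAt one_ne_zero
  have h2 := DifferentiableAt.comp (f := fun t : ι → ℂ => (t, chartAt (E d) p p)) τ h1
    (by fun_prop)
  have h3 := h2.clm_apply (differentiableAt_const ((0 : ι → ℂ), y))
  refine h3.congr_of_eventuallyEq (Eventually.of_forall fun t => ?_)
  show fderiv ℂ (chartAt (E d) p ∘ A t ∘ (chartAt (E d) p).symm) (chartAt (E d) p p) y = _
  rw [(part hA hp t).fderiv]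
  rfl

theorem realL (h : Dat d w nb s κ ρ) (hA : Act d ρ A) (o : F) (hp : ∀ τ, A τ (s o 0) = s o 0)
    (θ : ι → ℝ) (v : R → ℂ) :
    fderiv ℂ (chartAt (E d) (s o 0) ∘ A (cx θ) ∘ (chartAt (E d) (s o 0)).symm)
      (chartAt (E d) (s o 0) (s o 0)) (Dv d (s o) 0 v) = Dv d (s o) 0 (sg (w o) (cx θ) v) := by
  have hs := mem_chart_source (E d) (s o 0)
  have h3 : HasFDerivAt (chartAt (E d) (s o 0) ∘ s o) (Dv d (s o) 0) 0 :=
    ((sm_ch (h.sm o 0) hs).differentiableAt (by simp)).hasFDerivAt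
  have h2 := (part hA hp (cx θ)).differentiableAt.hasFDerivAt
  have h4 := ((h2.restrictScalars ℝ).comp (0 : R → ℂ) h3).fderiv
  have h3' : HasFDerivAt (chartAt (E d) (s o 0) ∘ s o) (Dv d (s o) 0)
      (sgL (w o) (cx θ) 0) := by
    rw [map_zero]
    exact h3
  have h5 := (h3'.comp (0 : R → ℂ) (sgL (w o) (cx θ)).hasFDerivAt).fderiv
  have h6 : ((chartAt (E d) (s o 0) ∘ A (cx θ) ∘ (chartAt (E d) (s o 0)).symm) ∘
      (chartAt (E d) (s o 0) ∘ s o)) =ᶠ[𝓝 0]
      ((chartAt (E d) (s o 0) ∘ s o) ∘ sgL (w o) (cx θ)) := by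
    filter_upwards [(h.sm o 0).continuousAt.preimage_mem_nhds
      ((chartAt (E d) (s o 0)).open_source.mem_nhds hs)] with y hy
    simp only [Function.comp_apply]
    rw [(chartAt (E d) (s o 0)).left_inv hy, hA.re, h.eqv]
    rfl
  rw [h6.fderiv_eq, h5] at h4
  exact (DFunLike.congr_fun h4 v).symm

theorem quarter {u : R → ι → ℤ} {r : R} (h : ∃ a, u r a ≠ 0) : ∃ θ : ι → ℝ, ∀ z : ℂ,
    sg u (cx θ) (z • ax r 1) = (I * z) • ax r 1 := by
  classical
  obtain ⟨a, ha⟩ := h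
  have h0 : (u r a : ℂ) ≠ 0 := Int.cast_ne_zero.2 ha
  refine ⟨Pi.single a (Real.pi / 2 / u r a), fun z => ?_⟩
  have e : chi (u r) (cx (Pi.single a (Real.pi / 2 / u r a) : ι → ℝ)) = I := by
    rw [chi, Finset.sum_eq_single a (fun b _ hb => by simp [cx, hb]) (by simp), cx,
      Pi.single_eq_same, mul_comm]
    push_cast
    rw [mul_div_cancel₀ _ h0]
    exact exp_pi_div_two_mul_I
  rw [smul_ax, sg_ax, e, smul_ax, mul_assoc]

theorem cline (hc : Cmb w nb) (h : Dat d w nb s κ ρ) (hA : Act d ρ A) (o : F) (hp : ∀ τ, A τ (s o 0) = s o 0)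
    (r : R) (hO : Ori d (s o) 0 (ax r 1) 1) :
    Dv d (s o) 0 (I • ax r 1) = I • Dv d (s o) 0 (ax r 1) := by
  obtain ⟨a, b, hb, e⟩ := hO
  rw [one_mul] at hb
  have hb' : (b : ℂ) ≠ 0 := by exact_mod_cast hb.ne'
  have hne := SG1B.dv_ne h o 0 r
  obtain ⟨θ, hθ⟩ := quarter (hc.nz o r)
  have e1 : Dv d (s o) 0 (I • ax r 1) = ((I - a) / b) • Dv d (s o) 0 (ax r 1) := by
    rw [div_eq_inv_mul, mul_smul, sub_smul, e, ← Complex.coe_smul, ← Complex.coe_smul,
      add_sub_cancel_left, smul_smul, inv_mul_cancel₀ hb', one_smul]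
  have r1 := realL h hA o hp θ ((1 : ℂ) • ax r 1)
  have r2 := realL h hA o hp θ (I • ax r 1)
  rw [hθ, one_smul, mul_one, e1] at r1
  rw [hθ, e1, map_smul, r1, I_mul_I, neg_smul, one_smul, map_neg, smul_smul,
    ← neg_one_smul ℂ (Dv d (s o) 0 (ax r 1))] at r2
  have c2 := smul_left_injective ℂ hne r2
  have c3 : ((I - a) / b - I) * ((I - a) / b + I) = 0 := by
    have : ((I - a) / b - I) * ((I - a) / b + I) = (I - a) / b * ((I - a) / b) - I * I := by ring
    rw [this, I_mul_I, c2]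
    ring
  rcases mul_eq_zero.1 c3 with c4 | c4
  · rw [e1, sub_eq_zero.1 c4]
  · exfalso
    have c5 := congrArg Complex.im c4
    simp only [add_im, div_ofReal_im, sub_im, I_im, ofReal_im, sub_zero, zero_im] at c5
    have : 0 < 1 / b := by positivity
    linarith

theorem expand (D : (R → ℂ) →L[ℝ] E d) (hD : ∀ r, D (I • ax r 1) = I • D (ax r 1))
    (v : R → ℂ) : D v = ∑ r, v r • D (ax r 1) := by
  have e : v = ∑ r, ax r (v r) := by
    funext r'
    simp [Finset.sum_apply, ax]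
  conv_lhs => rw [e]
  simp only [map_sum]
  refine Finset.sum_congr rfl fun r _ => ?_
  rw [SG1B.ax_eq, map_add, map_smul, map_smul, hD, ← Complex.coe_smul, ← Complex.coe_smul,
    smul_smul, ← add_smul, re_add_im]

end CELB

open CELB in
theorem st_CEL : St_CEL := by
  intro ι R F _ _ _ d Y _ _ _ _ w nb s κ ρ A hc h hA o hO
  have hp := fix h hA o
  have hx := expand (Dv d (s o) 0) fun r => cline hc h hA o hp r (hO r)
  let DL : (R → ℂ) →ₗ[ℂ] E d :=
    { toFun := Dv d (s o) 0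
      map_add' := map_add _
      map_smul' := fun c v => by
        rw [hx (c • v), hx v]
        simp only [Finset.smul_sum, Pi.smul_apply, smul_eq_mul, RingHom.id_apply, smul_smul] }
  let D : (R → ℂ) ≃L[ℂ] E d :=
    (LinearEquiv.ofBijective DL (SG1B.bij h o 0)).toContinuousLinearEquiv
  obtain ⟨τ₀, hτ₀⟩ := hc.con o (1 / 2) (by norm_num)
  have hD : ∀ τ v, fderiv ℂ (chartAt (E d) (s o 0) ∘ A τ ∘ (chartAt (E d) (s o 0)).symm)
      (chartAt (E d) (s o 0) (s o 0)) (D v) = D (sg (w o) τ v) := fun τ v => by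
    refine st_ID _ d (E d) univ (fun τ => fderiv ℂ (chartAt (E d) (s o 0) ∘ A τ ∘
        (chartAt (E d) (s o 0)).symm) (chartAt (E d) (s o 0) (s o 0)) (D v))
      (fun τ => D (sg (w o) τ v)) isOpen_univ convex_univ (mem_univ _)
      (fun t _ => mdifferentiableAt_iff_differentiableAt.2 (holL hA hp _ t))
      (fun t _ => mdifferentiableAt_iff_differentiableAt.2 ?_)
      (fun θ _ => realL h hA o hp θ v) τ (mem_univ _)
    refine D.differentiableAt.comp t (differentiableAt_pi.2 fun r => ?_)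
    simp only [sg, chi]
    fun_prop
  obtain ⟨ψ, η, h1, h2, h3, h4, h5, h6⟩ := GT40.KOEB.core (τ₀ := τ₀) hA hp fun v => by
    rw [← D.apply_symm_apply v, hD, ← map_smul]
    exact congrArg _ (funext fun r => by simp [sg, hτ₀])
  refine ⟨ψ ∘ D, D.symm ∘ η, fun x => ?_, ?_, fun x => ?_, ?_, fun x => ?_, fun τ x => ?_⟩
  · exact (h1 _).comp x (mdifferentiableAt_iff_differentiableAt.2 D.differentiableAt)
  · rw [Function.comp_apply, map_zero, h2]
  · simp only [Function.comp_apply, h3, D.symm_apply_apply]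
  · rwa [D.surjective.range_comp]
  · exact (mdifferentiableAt_iff_differentiableAt.2 D.symm.differentiableAt).comp _ (h5 _)
  · simp only [Function.comp_apply, h6, hD]

end Pool.Agent.Lib.GU40
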