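import Pool.Agent.Lib.GU40.Blue

/-! Project gu40: the combinatorics of sign vectors. -/

open scoped Manifold ContDiff Topology Matrix
open Set Filter Metric Complex Sum

set_option linter.unusedVariables false
set_option linter.unusedSectionVars false

noncomputable section

namespace Pool.Agent.Lib.GU40

open Pool.Agent.Lib.GT40 (E V Gr Full Spans cx RAct Act Gm kp Mt)

namespace CMBB

variable {m : ℕ} {b : Bool} {p : ℤˣ}

theorem le_r (r : Rt m b) : r.1.1 ≤ r.1.2 := r.2.elim le_of_lt fun h => h.2.le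

theorem usq (u : ℤˣ) : ((u : ℤ) : ℂ) * ((u : ℤ) : ℂ) = 1 := by
  rcases Int.units_eq_one_or u with rfl | rfl <;> simp

theorem usq' (u : ℤˣ) : (u : ℤ) * (u : ℤ) = 1 := by
  rcases Int.units_eq_one_or u with rfl | rfl <;> simp

theorem chi_wt (o : Fs m b p) (r : Rt m b) (φ : Fin m → ℂ) :
    chi (wt o r) (fun i => ((o.1 i : ℤ) : ℂ) * φ i) = exp (I * (φ r.1.1 + φ r.1.2)) := by
  rw [chi]
  simp only [wt, Int.cast_add, Int.cast_ite, Int.cast_zero, add_mul, ite_mul, zero_mul,
    Finset.sum_add_distrib, Finset.sum_ite_eq', Finset.mem_univ, if_true, ← mul_assoc, usq, one_mul]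

theorem chi_re (o : Fs m b p) (r : Rt m b) (φ : Fin m → ℝ) :
    chi (wt o r) (cx fun i => ((o.1 i : ℤ) : ℝ) * φ i) = exp (I * (φ r.1.1 + φ r.1.2)) := by
  rw [← chi_wt o r fun i => φ i]
  congr 1
  funext i
  simp [cx]

/-- The index `r` is the unordered pair of `a` and `c`. -/
def Is (r : Rt m b) (a c : Fin m) : Prop := r.1 = (a, c) ∨ r.1 = (c, a)

theorem ex_is {a c : Fin m} (h : b = true ∨ a ≠ c) : ∃ r : Rt m b, Is r a c := by
  rcases lt_trichotomy a c with h1 | rfl | h1
  · exact ⟨⟨(a, c), Or.inl h1⟩, Or.inl rfl⟩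
  · exact ⟨⟨(a, a), Or.inr ⟨h.resolve_right fun h => h rfl, rfl⟩⟩, Or.inl rfl⟩
  · exact ⟨⟨(c, a), Or.inl h1⟩, Or.inr rfl⟩

theorem Is.symm {r : Rt m b} {a c : Fin m} (h : Is r a c) : Is r c a := Or.symm h

theorem Is.uniq {r r' : Rt m b} (h : Is r r'.1.1 r'.1.2) : r = r' := by
  rcases h with h | h
  · exact Subtype.ext h
  · have h1 := le_r r
    rw [h] at h1
    have h2 := le_antisymm (le_r r') h1
    exact Subtype.ext (h.trans (Prod.ext h2.symm h2))

theorem Is.nb_val {r : Rt m b} {a c : Fin m} (h : Is r a c) (o : Fs m b p) (e : Fin m) :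
    (nb o r).1 e = if e = a ∨ e = c then -o.1 e else o.1 e := by
  rcases h with h | h <;> simp [nb, fl, fv, h, or_comm]

theorem Is.nb_eq {r : Rt m b} {a c : Fin m} (h : Is r a c) (o : Fs m b p) (h' : b = true ∨ a ≠ c) :
    nb o r = fl o a c h' := Subtype.ext (funext fun e => h.nb_val o e)

theorem Is.dot {r : Rt m b} {a c : Fin m} (h : Is r a c) (o : Fs m b p) (ξ : Fin m → ℤ) :
    wt o r ⬝ᵥ ξ = o.1 a * ξ a + o.1 c * ξ c := by
  rcases h with h | h <;> simp [wt, dotProduct, add_mul, Finset.sum_add_distrib, h, add_comm]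

theorem gen : Gen (nb : Fs m b p → Rt m b → Fs m b p) Piv := by
  intro q hq o o' ho
  have st : ∀ (o : Fs m b p) a c (h : b = true ∨ a ≠ c), (b = false ∨ a = c) → q o →
      q (fl o a c h) := by
    intro o a c h h' ho
    obtain ⟨r, hr⟩ := ex_is h
    rw [← hr.nb_eq]
    refine hq o r (h'.imp id fun e => ?_) ho
    rcases hr with hr | hr <;> simp [hr, e]
  have key : ∀ (s : Finset (Fin m)) (o : Fs m b p),
      Finset.univ.filter (fun a => o.1 a ≠ o'.1 a) = s → q o → q o' := by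
    intro s
    induction s using Finset.strongInduction with
    | H s ih =>
      intro o hs ho
      by_cases h0 : ∀ a, o.1 a = o'.1 a
      · exact (Subtype.ext (funext h0) : o = o') ▸ ho
      obtain ⟨a, ha⟩ := not_forall.1 h0
      have fin : ∀ c (h : b = true ∨ a ≠ c), (b = false ∨ a = c) → o.1 c ≠ o'.1 c → q o' := by
        intro c h h' hc
        have ng : ∀ u v : ℤˣ, u ≠ v → -u = v := fun u v huv => by
          rcases Int.units_eq_one_or u with rfl | rfl <;>
            rcases Int.units_eq_one_or v with rfl | rfl <;> simp at huv ⊢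
        refine ih _ ?_ (fl o a c h) rfl (st o a c h h' ho)
        rw [← hs]
        refine Finset.ssubset_iff_subset_ne.2 ⟨fun e he => ?_, fun he => ?_⟩
        · simp only [Finset.mem_filter, Finset.mem_univ, true_and] at he ⊢
          by_cases h1 : e = a ∨ e = c
          · rcases h1 with rfl | rfl <;> assumption
          · simpa [fl, fv, h1] using he
        · have h1 : a ∈ Finset.univ.filter fun a => o.1 a ≠ o'.1 a := by simpa using ha
          rw [← he] at h1
          simp [fl, fv, ng _ _ ha] at h1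
      rcases Bool.eq_false_or_eq_true b with hb | hb
      swap
      · by_cases h1 : ∃ c, a ≠ c ∧ o.1 c ≠ o'.1 c
        · obtain ⟨c, h2, h3⟩ := h1
          exact fin c (Or.inr h2) (Or.inl hb) h3
        · exfalso
          have h2 := (o.2.resolve_left (by simp [hb])).trans (o'.2.resolve_left (by simp [hb])).symm
          rw [← Finset.mul_prod_erase _ _ (Finset.mem_univ a),
            ← Finset.mul_prod_erase _ _ (Finset.mem_univ a),
            Finset.prod_congr rfl fun c hc => (by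
              by_contra h3
              exact h1 ⟨c, (Finset.ne_of_mem_erase hc).symm, h3⟩ : o.1 c = o'.1 c)] at h2
          exact ha (mul_right_cancel h2)
      · exact fin a (Or.inl hb) (Or.inr rfl) ha
  exact key _ o rfl ho

theorem sep (o : Fs m b p) (r r' : Rt m b) (h : r' ≠ r) :
    ∃ θ : Fin m → ℝ, chi (wt o r) (cx θ) = 1 ∧ chi (wt o r') (cx θ) ≠ 1 := by
  have e1 : exp (I * (Real.pi / 2)) = I := by rw [mul_comm, exp_pi_div_two_mul_I]
  have e2 : exp (I * (Real.pi / 2 + Real.pi / 2)) = -1 := by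
    rw [add_halves, mul_comm, exp_pi_mul_I]
  have e3 : exp (I * (-(Real.pi / 2) + -(Real.pi / 2))) = -1 := by
    rw [← neg_add, mul_neg, exp_neg, e2]
    simp
  have n1 : (I : ℂ) ≠ 1 := fun h => by simpa using congrArg re h
  have n2 : (-1 : ℂ) ≠ 1 := by norm_num
  have out : ∀ e, e ≠ r.1.1 → e ≠ r.1.2 → (e = r'.1.1 ∨ e = r'.1.2) →
      ∃ θ : Fin m → ℝ, chi (wt o r) (cx θ) = 1 ∧ chi (wt o r') (cx θ) ≠ 1 := by
    intro e h1 h2 h3
    refine ⟨fun i => ((o.1 i : ℤ) : ℝ) * if i = e then Real.pi / 2 else 0, ?_, ?_⟩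
    · rw [chi_re]
      simp [h1.symm, h2.symm]
    · rw [chi_re]
      by_cases h4 : r'.1.1 = e <;> by_cases h5 : r'.1.2 = e
      · simpa [h4, h5, e2, -add_halves] using n2
      · simpa [h4, h5, e1] using n1
      · simpa [h4, h5, e1] using n1
      · exact absurd h3 (not_or.2 ⟨Ne.symm h4, Ne.symm h5⟩)
  by_cases h1 : r'.1.1 ≠ r.1.1 ∧ r'.1.1 ≠ r.1.2
  · exact out _ h1.1 h1.2 (Or.inl rfl)
  by_cases h2 : r'.1.2 ≠ r.1.1 ∧ r'.1.2 ≠ r.1.2
  · exact out _ h2.1 h2.2 (Or.inr rfl)
  have h3 : ¬Is r' r.1.1 r.1.2 := fun h' => h h'.uniq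
  have h4 : r.1.2 ≠ r.1.1 ∧ r'.1.2 = r'.1.1 := by
    simp only [Is, Prod.ext_iff] at h3
    grind
  refine ⟨fun i => ((o.1 i : ℤ) : ℝ) * if i = r.1.1 then Real.pi / 2 else -(Real.pi / 2), ?_, ?_⟩
  · rw [chi_re]
    simp [h4.1]
  · rw [chi_re, h4.2]
    split_ifs
    · push_cast
      rw [e2]
      exact n2
    · push_cast
      rw [e3]
      exact n2

theorem sg3 (u : ℤˣ) {i a c e : Fin m} (hc : a ≠ c) (he : a ≠ e) (hce : c ≠ e) :
    (if i = c ∨ i = e then -if i = a ∨ i = c then -u else u else if i = a ∨ i = c then -u else u) =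
      if i = a ∨ i = e then -u else u := by
  by_cases i1 : i = a <;> by_cases i2 : i = c <;> by_cases i3 : i = e <;> simp_all

theorem sg1 (u : ℤˣ) {i a c : Fin m} (hc : a ≠ c) :
    (if i = c ∨ i = c then -if i = a ∨ i = a then -u else u else if i = a ∨ i = a then -u else u) =
      if i = a ∨ i = c then -u else u := by
  by_cases i1 : i = a <;> by_cases i2 : i = c <;> simp_all

theorem sg2 (u : ℤˣ) {i a c : Fin m} (hc : a ≠ c) :
    (if i = c ∨ i = c then -if i = a ∨ i = c then -u else u else if i = a ∨ i = c then -u else u) =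
      if i = a ∨ i = a then -u else u := by
  by_cases i1 : i = a <;> by_cases i2 : i = c <;> simp_all

theorem tri (q : Fs m b p → Rt m b → Prop) (h1 : ∀ o r, q o r → q (nb o r) r)
    (h2 : ∀ o r r' r'' (ξ : Fin m → ℤ), nb (nb o r) r'' = nb o r' → 0 < wt o r ⬝ᵥ ξ →
      0 < wt o r' ⬝ᵥ ξ → wt (nb o r) r'' ⬝ᵥ ξ = 0 → q o r → q o r') (o : Fs m b p) (r : Rt m b)
    (o' : Fs m b p) (r' : Rt m b) (h : q o r) : q o' r' := by
  have loc : ∀ o r r', q o r → q o r' := by
    intro o
    let P : Fin m → Fin m → Prop := fun a c => ∃ r : Rt m b, Is r a c ∧ q o r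
    have sy : ∀ a c, P a c → P c a := by
      rintro a c ⟨r, h3, h4⟩
      exact ⟨r, h3.symm, h4⟩
    have m1 : ∀ a c e, a ≠ c → a ≠ e → P a c → P a e := by
      rintro a c e hc he ⟨r, hr, hq⟩
      rcases eq_or_ne c e with rfl | hce
      · exact ⟨r, hr, hq⟩
      obtain ⟨r', hr'⟩ := ex_is (b := b) (Or.inr he)
      obtain ⟨r'', hr''⟩ := ex_is (b := b) (Or.inr hce)
      refine ⟨r', hr', h2 o r r' r'' (fun i => o.1 i) (Subtype.ext (funext fun i => ?_)) ?_ ?_ ?_ hq⟩
      · rw [hr''.nb_val, hr.nb_val, hr'.nb_val]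
        exact sg3 _ hc he hce
      · simp [hr.dot, usq']
      · simp [hr'.dot, usq']
      · simp [hr''.dot, hr.nb_val, usq', he.symm, hce.symm]
    have m2 : b = true → ∀ a c, P a a ↔ P a c := by
      intro hb a c
      rcases eq_or_ne a c with rfl | hc
      · rfl
      obtain ⟨r'', hr''⟩ := ex_is (b := b) (a := c) (c := c) (Or.inl hb)
      constructor
      · rintro ⟨r, hr, hq⟩
        obtain ⟨r', hr'⟩ := ex_is (b := b) (Or.inr hc)
        refine ⟨r', hr', h2 o r r' r'' (fun i => if i = a then o.1 i else 0)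
          (Subtype.ext (funext fun i => ?_)) ?_ ?_ ?_ hq⟩
        · rw [hr''.nb_val, hr.nb_val, hr'.nb_val]
          exact sg1 _ hc
        · simp [hr.dot, usq']
        · simp [hr'.dot, usq', hc.symm]
        · simp [hr''.dot, hc.symm]
      · rintro ⟨r, hr, hq⟩
        obtain ⟨r', hr'⟩ := ex_is (b := b) (a := a) (c := a) (Or.inl hb)
        refine ⟨r', hr', h2 o r r' r'' (fun i => if i = a then o.1 i else 0)
          (Subtype.ext (funext fun i => ?_)) ?_ ?_ ?_ hq⟩
        · rw [hr''.nb_val, hr.nb_val, hr'.nb_val]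
          exact sg2 _ hc
        · simp [hr.dot, usq', hc.symm]
        · simp [hr'.dot, usq']
        · simp [hr''.dot, hc.symm]
    intro r r' hq
    have h0 : P r.1.1 r.1.2 := ⟨r, Or.inl rfl, hq⟩
    suffices h : P r'.1.1 r'.1.2 by
      obtain ⟨r'', h3, h4⟩ := h
      exact h3.uniq ▸ h4
    rcases Bool.eq_false_or_eq_true b with hb | hb
    swap
    · have n1 : ∀ r : Rt m b, r.1.1 ≠ r.1.2 := fun r =>
        (r.2.resolve_right fun h => by simp [hb] at h).ne
      rcases eq_or_ne r.1.1 r'.1.1 with e | e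
      · rw [← e]
        exact m1 _ _ _ (n1 r) (e ▸ n1 r') h0
      · exact m1 _ _ _ e.symm (n1 r') (sy _ _ (m1 _ _ _ (n1 r) e h0))
    · exact (m2 hb _ _).1 ((m2 hb _ _).2 (sy _ _ ((m2 hb _ _).1 ((m2 hb _ _).2 h0))))
  exact loc o' r r' (gen (fun o => q o r) (fun o r₁ _ h => loc _ _ _ (h1 o r₁ (loc _ _ _ h))) o o' h)

end CMBB

open CMBB in
theorem st_CMB : St_CMB := by
  intro m b p
  refine ⟨⟨sep, fun o r => ⟨r.1.1, ?_⟩, fun o s hs => ?_, fun o r => ?_, tri⟩, gen⟩
  · rcases Int.units_eq_one_or (o.1 r.1.1) with h | h <;> simp only [wt, h, if_true] <;>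
      split_ifs <;> simp
  · refine ⟨fun i => ((o.1 i : ℤ) : ℂ) * (-I * log s / 2), fun r => ?_⟩
    rw [chi_wt, add_halves, ← mul_assoc, mul_neg, I_mul_I, neg_neg, one_mul, exp_log hs]
  · funext e
    simp only [wt, nb, fl, fv, Pi.neg_apply]
    split_ifs <;> first | tauto | simp

end Pool.Agent.Lib.GU40
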