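import Pool.Agent.Lib.GU40.Blue

/-! Project gu40: the complement of the zero set of an entire function. -/

open scoped Manifold ContDiff Topology Matrix
open Set Filter Metric Complex Sum

set_option linter.unusedVariables false
set_option linter.unusedSectionVars false

noncomputable section

namespace Pool.Agent.Lib.GU40

open Pool.Agent.Lib.GT40 (E V Gr Full Spans cx RAct Act Gm kp Mt)

theorem st_CON : St_CON := by
  intro R _ f hf
  refine ⟨isPreconnected_of_forall_pair fun x hx y hy => ?_, fun ⟨x, hx⟩ => ?_⟩
  · set L : ℂ → R → ℂ := fun t => x + t • (y - x) with hL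
    have hd : Differentiable ℂ L := by fun_prop
    have ha : AnalyticOnNhd ℂ (f ∘ L) univ := fun t _ => (hf.comp hd).analyticAt t
    have h0 : (f ∘ L) 0 ≠ 0 := by simpa [hL] using hx
    have h1 := (compl_mem_codiscrete_iff (S := (f ∘ L) ⁻¹' {0})).1
      (ha.preimage_zero_mem_codiscrete h0)
    have h2 : ((f ∘ L) ⁻¹' {0}).Countable := by
      have := h1.2.to_subtype
      exact countable_coe_iff.1 countable_of_Lindelof_of_discrete
    have h3 := h2.isPathConnected_compl_of_one_lt_rank (by simp)
    refine ⟨L '' ((f ∘ L) ⁻¹' {0})ᶜ, ?_, ⟨0, h0, by simp [hL]⟩, ⟨1, ?_, by simp [hL]⟩,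
      h3.isConnected.isPreconnected.image _ hd.continuous.continuousOn⟩
    · rintro _ ⟨t, ht, rfl⟩
      exact ht
    · simpa [hL] using hy
  · refine dense_iff_inter_open.2 fun U hU ⟨z, hz⟩ => ?_
    by_contra hc
    refine hx (SV.H85.eq_zero_of_convex isOpen_univ convex_univ hf.differentiableOn (mem_univ z) ?_
      (mem_univ x))
    filter_upwards [hU.mem_nhds hz] with y hy
    by_contra h
    exact hc ⟨y, hy, h⟩

end Pool.Agent.Lib.GU40
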