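import Pool.Agent.Lib.GU40.B_MOD

/-! Project gu40: a component is covered by the cells of one class. -/

open scoped Manifold ContDiff Topology Matrix
open Set Filter Metric Complex Sum

set_option linter.unusedVariables false
set_option linter.unusedSectionVars false

noncomputable section

namespace Pool.Agent.Lib.GU40

open Pool.Agent.Lib.GT40 (E V Gr Full Spans cx RAct Act Gm kp Mt)

namespace COVB

variable {m : ℕ}

theorem closed_iso {k q : ℕ} (S : Matrix (Fin (k + q)) (Fin (k + q)) ℂ) : IsClosed (Iso S) :=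
  isClosed_eq ((GT40.MODB.cont_val.matrix_transpose.matrix_mul continuous_const).matrix_mul
    GT40.MODB.cont_val) continuous_const

theorem compact_cc {k q : ℕ} (S : Matrix (Fin (k + q)) (Fin (k + q)) ℂ) {P : Gr k q}
    (h : P ∈ Iso S) : CompactSpace (connectedComponentIn (Iso S) P) := by
  have := GT40.PJ.part5 (k := k) (q := q)
  refine isCompact_iff_compactSpace.1 (IsClosed.isCompact ?_)
  rw [connectedComponentIn_eq_image h]
  exact (closed_iso S).isClosedEmbedding_subtypeVal.isClosedMap _ isClosed_connectedComponent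

/-- In the skew case, cells that meet at an isotropic plane belong to the same class. -/
theorem parity {σ : GT40.Fr m m → V m m → Gr m m} (hσ : Gm σ) {o o' : Fin m → ℤˣ}
    {x : Rt m false → ℂ} {y : V m m} (h : σ (fr o') y = σ (fr o) (emb o x)) :
    ∏ a, o' a = ∏ a, o a := by
  have h1 := (st_FLP m σ hσ o o' _ y).1 h
  let B := {j : Fin m // ¬o' j = o j}
  let Y : Matrix B B ℂ := Matrix.of fun i j => y i.1 j.1
  let X : Matrix B B ℂ := Matrix.of fun i j => en (dl false) x i.1 j.1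
  have h2 : Y * X = 1 := by
    ext i l
    have := h1 i.1 l.1
    rw [if_neg l.2, if_neg i.2, zero_add] at this
    rw [Matrix.mul_apply, Matrix.one_apply, if_congr Subtype.ext_iff rfl rfl, this,
      ← Finset.sum_filter_add_sum_filter_not Finset.univ fun j => o' j = o j,
      Finset.sum_eq_zero fun j hj => if_pos (Finset.mem_filter.1 hj).2, zero_add,
      Finset.sum_subtype (p := fun j => ¬o' j = o j) _ (by simp)]
    refine Finset.sum_congr rfl fun j _ => ?_
    rw [if_neg j.2]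
    simp [X, Y, emb, sn, dl]
  have h3 : X.det ≠ 0 := (Matrix.isUnit_det_of_left_inverse h2).ne_zero
  have h4 : Xᵀ = -X := by
    ext i j
    simpa [X, dl] using en_symm x i.1 j.1
  have h5 : X.det = (-1) ^ Fintype.card B * X.det := by
    rw [← Matrix.det_neg, ← h4, Matrix.det_transpose]
  have h6 : Even (Fintype.card B) := by
    refine (neg_one_pow_eq_one_iff_even (R := ℂ) (by norm_num)).1 (mul_right_cancel₀ h3 ?_)
    rw [← h5, one_mul]
  have e : ∀ a, o' a = (if ¬o' a = o a then -1 else 1) * o a := fun a => by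
    rcases Int.units_eq_one_or (o' a) with e1 | e1 <;>
      rcases Int.units_eq_one_or (o a) with e2 | e2 <;> simp [e1, e2]
  rw [Finset.prod_congr rfl fun a _ => e a, Finset.prod_mul_distrib, Finset.prod_ite,
    Finset.prod_const, Finset.prod_const_one, mul_one, ← Fintype.card_subtype, h6.neg_one_pow,
    one_mul]

end COVB

open COVB in
theorem st_COV (hCMB : St_CMB) (hTRM : St_TRM) : St_COV := by
  intro m b σ P₀ hσ h0
  refine ⟨compact_cc _ h0, ?_⟩
  obtain ⟨i1, i2⟩ := st_ISO m b σ hσ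
  have hM := (GT40.st_MOD GT40.st_PJ m m σ hσ).1
  obtain ⟨o₀, y₀, e₀⟩ := i2 P₀ h0
  have hc : ∀ o : Fin m → ℤˣ,
      IsPreconnected (range fun x : Rt m b → ℂ => σ (fr o) (emb o x)) := fun o =>
    isPreconnected_range ((hM.emb _).continuous.comp (MODB.cont_emb o))
  have hs : ∀ o : Fin m → ℤˣ,
      (range fun x : Rt m b → ℂ => σ (fr o) (emb o x)) ⊆ Iso (Fm m m (-dl b)) := by
    rintro o _ ⟨x, rfl⟩
    exact (i1 o _).2 ⟨x, rfl⟩
  have hin : ∀ o : Fs m b (∏ a, o₀ a), (range fun x : Rt m b → ℂ => σ (fr o.1) (emb o.1 x)) ⊆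
      connectedComponentIn (Iso (Fm m m (-dl b))) P₀ := fun o => by
    refine (hCMB m b _).2 (fun o => (range fun x : Rt m b → ℂ => σ (fr o.1) (emb o.1 x)) ⊆
      connectedComponentIn (Iso (Fm m m (-dl b))) P₀) (fun o r hr h => ?_) ⟨o₀, Or.inr rfl⟩ o ?_
    · have e := (hTRM m b _ σ hσ).1 o r (ax r 1) hr (by simp [ax])
      rw [connectedComponentIn_eq (h ⟨ax r 1, rfl⟩)]
      exact (hc _).subset_connectedComponentIn ⟨_, e⟩ (hs _)
    · obtain ⟨z, rfl⟩ := (i1 o₀ y₀).1 (e₀ ▸ h0)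
      exact (hc _).subset_connectedComponentIn ⟨z, e₀⟩ (hs _)
  refine ⟨∏ a, o₀ a, fun o x => ⟨σ (fr o.1) (emb o.1 x), hin o ⟨x, rfl⟩⟩, hσ, fun _ _ => rfl,
    fun P => ?_, connectedComponentIn_subset _ _⟩
  have hP := connectedComponentIn_subset _ _ P.2
  suffices h : ∃ o : Fs m b (∏ a, o₀ a), P.1 ∈ range (σ (fr o.1)) by
    obtain ⟨o, y, hy⟩ := h
    obtain ⟨z, rfl⟩ := (i1 o.1 y).1 (hy ▸ hP)
    exact ⟨o, z, Subtype.ext hy⟩
  cases b
  · by_contra hn
    obtain ⟨o₁, h1⟩ := i2 _ hP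
    obtain ⟨Q, hQ, q1, q2⟩ := isPreconnected_connectedComponentIn
      (F := Iso (Fm m m (-dl false))) (x := P₀)
      (⋃ o : {o : Fin m → ℤˣ // ∏ a, o a = ∏ a, o₀ a}, range (σ (fr o.1)))
      (⋃ o : {o : Fin m → ℤˣ // ∏ a, o a ≠ ∏ a, o₀ a}, range (σ (fr o.1)))
      (isOpen_iUnion fun o => (hM.emb _).isOpen_range)
      (isOpen_iUnion fun o => (hM.emb _).isOpen_range)
      (fun Q hQ => by
        obtain ⟨o, ho⟩ := i2 Q (connectedComponentIn_subset _ _ hQ)
        by_cases h : ∏ a, o a = ∏ a, o₀ a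
        · exact Or.inl (mem_iUnion.2 ⟨⟨o, h⟩, ho⟩)
        · exact Or.inr (mem_iUnion.2 ⟨⟨o, h⟩, ho⟩))
      ⟨P₀, mem_connectedComponentIn h0, mem_iUnion.2 ⟨⟨o₀, rfl⟩, y₀, e₀⟩⟩
      ⟨P.1, P.2, mem_iUnion.2 ⟨⟨o₁, fun h => hn ⟨⟨o₁, Or.inr h⟩, h1⟩⟩, h1⟩⟩
    obtain ⟨o, y, hy⟩ := mem_iUnion.1 q1
    obtain ⟨o', y', hy'⟩ := mem_iUnion.1 q2
    obtain ⟨z, rfl⟩ := (i1 o.1 y).1 (hy ▸ connectedComponentIn_subset _ _ hQ)
    exact o'.2 ((parity hσ (hy'.trans hy.symm)).trans o.2)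
  · obtain ⟨o₁, h1⟩ := i2 _ hP
    exact ⟨⟨o₁, Or.inl rfl⟩, h1⟩

end Pool.Agent.Lib.GU40
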