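import Pool.Agent.Lib.GU40.Blue
import Pool.Agent.Lib.GT40.B_PJ
import Pool.Agent.Lib.GT40.B_MOD
import Pool.Agent.Lib.GT40.B_DAT

/-! Project gu40, row DAT: from the hypotheses of the theorem to the data. -/

open scoped Manifold ContDiff Topology Matrix
open Set Filter Metric Complex Sum

set_option linter.unusedVariables false
set_option linter.unusedSectionVars false

noncomputable section

namespace Pool.Agent.Lib.GU40

open Pool.Agent.Lib.GT40 (E V Gr Full Spans cx RAct Act Gm kp Mt)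

namespace DATB

variable {m : ℕ} {b : Bool}

theorem sn_sq (b : Bool) (o : Fin m → ℤˣ) (l : Fin m) : sn b o l * sn b o l = 1 := by
  unfold sn
  split_ifs
  · simp
  · rw [neg_mul_neg, dl_sq]

theorem emb_sm (o : Fin m → ℤˣ) : ContDiff ℝ ∞ (emb o : (Rt m b → ℂ) → V m m) := by
  refine contDiff_pi.2 fun i => contDiff_pi.2 fun l => ?_
  obtain ⟨L, hL⟩ := en_clm (m := m) (b := b) (dl b) i l
  have : (fun x : Rt m b → ℂ => emb o x i l) = fun x => sn b o l * L x :=
    funext fun x => by rw [hL]; rfl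
  rw [this]
  exact contDiff_const.mul (L.restrictScalars ℝ).contDiff

/-- The inverse of `emb`. -/
def co (b : Bool) (o : Fin m → ℤˣ) (y : V m m) : Rt m b → ℂ := mk fun i l => sn b o l * y i l

theorem co_emb (o : Fin m → ℤˣ) (x : Rt m b → ℂ) : co b o (emb o x) = x := by
  funext r
  simp only [co, mk, emb, ← mul_assoc, sn_sq, one_mul, en_val]

theorem co_sm (o : Fin m → ℤˣ) : ContDiff ℝ ∞ (co b o) :=
  contDiff_pi.2 fun r => contDiff_const.mul (contDiff_apply_apply ℝ ℂ r.1.1 r.1.2)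

theorem big_fm (ε : ℂ) (θ : Fin m → ℝ) (a c : Fin (m + m)) :
    exp (I * big θ a) * Fm m m ε a c * exp (I * big θ c) = Fm m m ε a c := by
  have key : ∀ a c : Fin (m + m), a.1 + m = c.1 → exp (I * big θ a) * exp (I * big θ c) = 1 := by
    intro a c h
    obtain ⟨a, rfl⟩ := finSumFinEquiv.surjective a
    obtain ⟨c, rfl⟩ := finSumFinEquiv.surjective c
    rcases a with a | a <;> rcases c with c | c
    · simp at h
      omega
    · have : a = c := by
        simp at h
        exact Fin.ext (by omega)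
      subst this
      simp only [big, Equiv.symm_apply_apply, Sum.elim_inl, Sum.elim_inr, ← exp_add]
      simp
    · simp at h
      omega
    · simp at h
      omega
  simp only [Fm, Matrix.of_apply]
  split_ifs with h1 h2
  · rw [mul_one, key a c h1]
  · rw [mul_right_comm, mul_comm (exp _), key c a h2, one_mul]
  · simp

end DATB

open DATB in
theorem st_DAT (hTRM : St_TRM) (hMOD : St_MOD) : St_DAT := by
  intro m d b p Y _ _ _ X σ σ' Φ hG hD hT
  obtain ⟨-, h2, h3, -, -⟩ := GT40.st_PJ m m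
  obtain ⟨-, -, heq⟩ := GT40.st_MOD GT40.st_PJ m m σ hG.gm
  obtain ⟨hM, -⟩ := hMOD m b p X σ σ' hG
  obtain ⟨-, -, hE1, hE2⟩ := hTRM m b p σ hG.gm
  obtain ⟨⟨F, hF, hF'⟩, hS⟩ := hD
  choose ρ hρ hρ' using fun θ : Fin m → ℝ => hT (big θ) (big_fm _ θ)
  have hsp : ∀ o x, Spans (σ' o x).1 (Mt (fr o.1) (emb o.1 x)) := fun o x => by
    rw [hG.val]
    exact hG.gm.sp _ _
  refine ⟨fun o y => co b o.1 (kp (fr o.1) (Φ.symm y).1.1), ρ, fun o => ?_, fun o x => ?_,
    fun o x => ?_, fun o => ?_, fun y => ?_, fun θ o x => hρ' θ _ _ fun a c => ?_, hρ,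
    fun o r => ?_, fun o r h => ?_⟩
  · have : (fun x => Φ (σ' o x)) = F ∘ (Mt (fr o.1) ∘ emb o.1) :=
      funext fun x => (hF' _ _ (h2 _ _).1 (hsp o x)).symm
    rw [this]
    exact hF.comp_contMDiff ((GT40.DATB.mt_sm _).comp (emb_sm o.1)).contMDiff
      fun x => ⟨(h2 _ _).1, _, (σ' o x).2, hsp o x⟩
  · rw [Φ.symm_apply_apply, hG.val]
    exact (congrArg (co b o.1) ((congrArg (kp (fr o.1)) (hG.gm.val _ _)).trans (h2 _ _).2)).trans
      (co_emb _ _)
  · refine ContMDiffAt.comp (g := co b o.1 ∘ kp (fr o.1)) (f := fun y => (Φ.symm y).1.1) _ ?_ (hS _)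
    rw [Φ.symm_apply_apply]
    exact ((co_sm o.1).contDiffAt.comp _
      (GT40.DATB.kp_sm _ _ ((h3 _ _).2 ⟨_, hsp o x⟩))).contMDiffAt
  · have : range (fun x => Φ (σ' o x)) = Φ '' range (σ' o) := range_comp Φ (σ' o)
    rw [this]
    exact Φ.isOpenMap _ (hM.emb o).isOpen_range
  · obtain ⟨o, x, hx⟩ := hG.cov (Φ.symm y)
    exact ⟨o, x, by simp only [hx, Φ.apply_symm_apply]⟩
  · rw [hG.val, hG.val, emb_sg, big_cx]
    exact heq (big θ) _ _ a c
  · obtain ⟨c, hc, h⟩ := hE1 o r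
    exact ⟨c, hc, fun z hz => congrArg Φ (Subtype.ext
      ((hG.val _ _).trans ((h z hz).trans (hG.val _ _).symm)))⟩
  · exact hE2 o r ((hG.val _ _).symm.trans
      ((congrArg Subtype.val (Φ.injective h)).trans (hG.val _ _)))

end Pool.Agent.Lib.GU40
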