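import Pool.Agent.Lib.GU40.Blue

/-! Project gu40: the real action and the conjugate data. -/

open scoped Manifold ContDiff Topology Matrix
open Set Filter Metric Complex Sum

set_option linter.unusedVariables false
set_option linter.unusedSectionVars false

noncomputable section

namespace Pool.Agent.Lib.GU40

open Pool.Agent.Lib.GT40 (E V Gr Full Spans cx RAct Act Gm kp Mt)

namespace DJB

variable {ι R : Type} [Fintype ι] [Fintype R] [DecidableEq R]

/-- Conjugation. -/
def cj (R : Type) [Fintype R] : (R → ℂ) →L[ℝ] R → ℂ := (starL' ℝ : (R → ℂ) ≃L[ℝ] R → ℂ)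

theorem cj_ap (x : R → ℂ) : cj R x = star x := rfl

theorem sm_star : ContMDiff 𝓘(ℝ, R → ℂ) 𝓘(ℝ, R → ℂ) ∞ (star : (R → ℂ) → R → ℂ) :=
  (cj R).contDiff.contMDiff

theorem cx_zero : cx (0 : ι → ℝ) = 0 := by
  funext a
  simp [cx]

theorem cx_add (θ θ' : ι → ℝ) : cx (θ + θ') = cx θ + cx θ' := by
  funext a
  simp [cx]

theorem sg_star (w : R → ι → ℤ) (θ : ι → ℝ) (x : R → ℂ) :
    sg w (cx (-θ)) (star x) = star (sg w (cx θ) x) := by
  funext r
  simp [sg, chi, cx, ← exp_conj, mul_comm]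

theorem ax_star (r : R) (z : ℂ) : star (ax r z) = ax r (star z) := by
  funext a
  simp only [ax, Pi.star_apply]
  split_ifs <;> simp

theorem sm_sg (w : R → ι → ℤ) :
    ContDiff ℝ ∞ fun p : (ι → ℝ) × (R → ℂ) => sg w (cx p.1) p.2 := by
  refine contDiff_pi.2 fun r => ?_
  have h : ∀ a, ContDiff ℝ ∞ fun p : (ι → ℝ) × (R → ℂ) => (p.1 a : ℂ) := fun a =>
    ofRealCLM.contDiff.comp (by fun_prop)
  simp only [sg, chi, cx]
  exact (contDiff_const.mul (ContDiff.sum fun a _ => contDiff_const.mul (h a))).cexp.mul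
    (by fun_prop)

end DJB

open DJB in
theorem st_DJ : St_DJ := by
  intro ι R F _ _ _ d Y _ _ _ w nb s κ ρ h
  refine ⟨⟨fun y => ?_, fun θ θ' y => ?_, h.hol, fun p => ?_⟩, ⟨fun o => (h.sm o).comp sm_star,
    fun o x => by rw [h.inv, star_star], fun o x => (sm_star _).comp _ (h.smi o _), fun o => ?_,
    fun y => ?_, fun θ o x => by rw [h.eqv, sg_star], fun θ => h.hol _, fun o r => ?_,
    fun o r => by simpa only [star_zero] using h.edge.2 o r⟩,
    fun o r ⟨a, b, hb, e⟩ => ⟨a, -b, by linarith, ?_⟩⟩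
  · obtain ⟨o, x, rfl⟩ := h.cov y
    rw [h.eqv, cx_zero, sg_zero]
  · obtain ⟨o, x, rfl⟩ := h.cov y
    rw [h.eqv, h.eqv, h.eqv, sg_sg, cx_add]
  · obtain ⟨θ, y⟩ := p
    obtain ⟨o, x, rfl⟩ := h.cov y
    have a1 : ContMDiffAt (𝓘(ℝ, ι → ℝ).prod 𝓘(ℝ, E d)) 𝓘(ℝ, R → ℂ) ∞
        (κ o ∘ Prod.snd) (θ, s o x) := ContMDiffAt.comp (θ, s o x) (h.smi o x) contMDiffAt_snd
    have a2 := (contMDiffAt_fst (I := 𝓘(ℝ, ι → ℝ)) (J := 𝓘(ℝ, E d)) (n := ∞)
      (p := (θ, s o x))).prodMk_space a1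
    have a3 := ContMDiffAt.comp (θ, s o x) ((sm_sg (w o)).contMDiff _) a2
    have a := ContMDiffAt.comp (θ, s o x) (h.sm o _) a3
    refine a.congr_of_eventuallyEq ?_
    filter_upwards [continuous_snd.continuousAt.eventually
      ((h.op o).mem_nhds (mem_range_self (f := s o) x))] with p ⟨z, hz⟩
    simp only [Function.comp, ← hz, h.eqv, h.inv]
  · exact (star_involutive.surjective.range_comp (s o)).symm ▸ h.op o
  · obtain ⟨o, x, rfl⟩ := h.cov y
    exact ⟨o, star x, by simp only [star_star]⟩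
  · obtain ⟨c, hc, e⟩ := h.edge.1 o r
    refine ⟨star c, by simpa using hc, fun z hz => ?_⟩
    beta_reduce
    rw [ax_star, ax_star, star_div₀, star_star]
    exact e _ (by simpa using hz)
  · have e0 : s o (star 0) = s o 0 := by rw [star_zero]
    have dd : DifferentiableAt ℝ (chartAt (E d) (s o 0) ∘ s o) (cj R 0) := by
      rw [map_zero]
      exact (GT40.sm_ch (h.sm o 0) (mem_chart_source _ _)).differentiableAt (by simp)
    have e1 : Dv d (fun x => s o (star x)) 0 = (Dv d (s o) 0).comp (cj R) := by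
      have := (dd.hasFDerivAt.comp 0 (cj R).hasFDerivAt).fderiv
      rw [map_zero] at this
      unfold Dv
      beta_reduce
      rw [e0]
      exact this
    rw [e1, ContinuousLinearMap.comp_apply, ContinuousLinearMap.comp_apply, cj_ap, cj_ap, star_smul,
      ax_star, star_one, e, star_def, conj_I, neg_smul, neg_smul, map_neg, smul_neg, neg_neg]

end Pool.Agent.Lib.GU40
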