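import Pool.Agent.Lib.GU40.Blue
import Pool.Agent.Lib.GT40.B_EDG

/-! Project gu40, row EDG: the axis of a cell meets the neighbouring cell. -/

open scoped Manifold ContDiff Topology Matrix
open Set Filter Metric Complex Sum

set_option linter.unusedVariables false
set_option linter.unusedSectionVars false

noncomputable section

namespace Pool.Agent.Lib.GU40

open Pool.Agent.Lib.GT40 (E cx Act hol_ch sm_ch sm_symm)

namespace EDGB

variable {ι R : Type} [Fintype ι] [Fintype R] [DecidableEq R]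

theorem ax_at (r : R) (z : ℂ) : ax r z r = z := by simp [ax]

theorem ax_smooth (r : R) : ContDiff ℝ ∞ (ax r) := by
  refine contDiff_pi.2 fun r' => ?_
  simp only [ax]
  split_ifs
  · exact contDiff_id
  · exact contDiff_const

theorem fix_ax {Y : Type} (ρ : (ι → ℝ) → Y → Y) (w : R → ι → ℤ) (r : R)
    (hs : ∀ r', r' ≠ r → ∃ θ : ι → ℝ, chi (w r) (cx θ) = 1 ∧ chi (w r') (cx θ) ≠ 1)
    (f : (R → ℂ) → Y) (hf : Function.Injective f)
    (he : ∀ θ x, ρ θ (f x) = f (sg w (cx θ) x)) (x : R → ℂ) :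
    (∀ θ, chi (w r) (cx θ) = 1 → ρ θ (f x) = f x) ↔ ∃ z, x = ax r z := by
  constructor
  · intro h
    refine ⟨x r, funext fun r' => ?_⟩
    simp only [ax]
    split_ifs with hc
    · rw [hc]
    · obtain ⟨θ, h1, h2⟩ := hs r' hc
      have := congrFun (hf ((he _ x).symm.trans (h θ h1))) r'
      exact (mul_left_eq_self₀.1 this).resolve_left h2
  · rintro ⟨z, rfl⟩ θ hθ
    rw [he, sg_ax, hθ, one_mul]

end EDGB

open EDGB in
theorem st_EDG : St_EDG := by
  intro ι R F _ _ _ d Y _ _ _ _ w nb s κ ρ A o r ψ ψ' η η' hC hD hA hψ hψ'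
  classical
  set o' := nb o r with ho'
  set Fix : Set Y := {y | ∀ θ, chi (w o r) (cx θ) = 1 → ρ θ y = y} with hFix
  have hsw : ∀ y, (∀ θ, chi (w o' r) (cx θ) = 1 → ρ θ y = y) ↔ y ∈ Fix := fun y => by
    simp only [ho', hC.opp, chi_opp, inv_eq_one, hFix, mem_ofPred_eq]
  have f1 : ∀ x, s o x ∈ Fix ↔ ∃ z, x = ax r z :=
    fix_ax ρ (w o) r (hC.sep o r) (s o) (Function.LeftInverse.injective (hD.inv o))
      fun θ x => hD.eqv θ o x
  have f2 : ∀ x, s o' x ∈ Fix ↔ ∃ z, x = ax r z := fun x => (hsw _).symm.trans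
    (fix_ax ρ (w o') r (hC.sep o' r) (s o') (Function.LeftInverse.injective (hD.inv o'))
      (fun θ x => hD.eqv θ o' x) x)
  have f3 : ∀ x, ψ x ∈ Fix ↔ ∃ z, x = ax r z :=
    fix_ax ρ (w o) r (hC.sep o r) ψ (Function.LeftInverse.injective hψ.inv) fun θ x => by
      rw [← hA.re, hψ.eqv]
  have f4 : ∀ x, ψ' x ∈ Fix ↔ ∃ z, x = ax r z := fun x => (hsw _).symm.trans
    (fix_ax ρ (w o') r (hC.sep o' r) ψ' (Function.LeftInverse.injective hψ'.inv)
      (fun θ x => by rw [← hA.re, hψ'.eqv]) x)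
  obtain ⟨c, hc0, htr⟩ := hD.edge.1 o r
  have htr' : ∀ z, z ≠ 0 → s o (ax r (c / z)) = s o' (ax r z) := fun z hz => by
    rw [← htr _ (div_ne_zero hc0 hz), div_div_cancel₀ hc0]
  have hc : ∀ o, Continuous fun z => s o (ax r z) := fun o =>
    (hD.sm o).continuous.comp (ax_smooth r).continuous
  set K : Set Y := (fun z => s o (ax r z)) '' closedBall 0 1 ∪
    (fun z => s o' (ax r z)) '' closedBall 0 ‖c‖ with hK
  have hKc : IsCompact K :=
    ((isCompact_closedBall 0 1).image (hc o)).union ((isCompact_closedBall 0 _).image (hc o'))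
  have hKp : IsPreconnected K := by
    refine IsPreconnected.union (s o (ax r 1)) ⟨1, by simp, rfl⟩ ⟨c, by simp, ?_⟩
      ((convex_closedBall 0 1).isPreconnected.image _ (hc o).continuousOn)
      ((convex_closedBall 0 _).isPreconnected.image _ (hc o').continuousOn)
    simpa using htr 1 one_ne_zero
  have hcp : 0 < ‖c‖ := norm_pos_iff.2 hc0
  have hKe : ∀ y, y ∈ K ↔ y ∈ Fix ∧ y ∈ range (s o) ∪ range (s o') := fun y => by
    constructor
    · rintro (⟨z, -, rfl⟩ | ⟨z, -, rfl⟩)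
      · exact ⟨(f1 _).2 ⟨z, rfl⟩, Or.inl ⟨_, rfl⟩⟩
      · exact ⟨(f2 _).2 ⟨z, rfl⟩, Or.inr ⟨_, rfl⟩⟩
    · rintro ⟨hy, ⟨x, rfl⟩ | ⟨x, rfl⟩⟩
      · obtain ⟨z, rfl⟩ := (f1 x).1 hy
        by_cases hz : ‖z‖ ≤ 1
        · exact Or.inl ⟨z, mem_closedBall_zero_iff.2 hz, rfl⟩
        · refine Or.inr ⟨c / z, ?_, htr z fun h => hz (by simp [h])⟩
          rw [mem_closedBall_zero_iff, norm_div]
          exact div_le_self hcp.le (not_le.1 hz).le
      · obtain ⟨z, rfl⟩ := (f2 x).1 hy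
        by_cases hz : ‖z‖ ≤ ‖c‖
        · exact Or.inr ⟨z, mem_closedBall_zero_iff.2 hz, rfl⟩
        · refine Or.inl ⟨c / z, ?_, htr' z fun h => hz (by simp [h])⟩
          rw [mem_closedBall_zero_iff, norm_div]
          exact div_le_one_of_le₀ (not_le.1 hz).le (norm_nonneg _)
  have hAc : ∀ y, Continuous fun τ => A τ y := fun y =>
    hA.hol.continuous.comp (continuous_id.prodMk continuous_const)
  have hAK : ∀ y ∈ K, ∀ τ, A τ y ∈ K := fun y hy => by
    have hF : ∀ τ, A τ y ∈ Fix := fun τ θ hθ => by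
      rw [← hA.re, ← hA.add, add_comm, hA.add, hA.re, ((hKe y).1 hy).1 θ hθ]
    have hcl : IsClopen ((fun τ => A τ y) ⁻¹' K) := by
      refine ⟨hKc.isClosed.preimage (hAc y), ?_⟩
      have : (fun τ => A τ y) ⁻¹' K = (fun τ => A τ y) ⁻¹' (range (s o) ∪ range (s o')) :=
        Set.ext fun τ => (hKe _).trans (and_iff_right (hF τ))
      rw [this]
      exact ((hD.op o).union (hD.op o')).preimage (hAc y)
    intro τ
    have := hcl.eq_univ ⟨0, by simpa only [mem_preimage, hA.zero] using hy⟩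
    exact (this ▸ mem_univ τ : τ ∈ (fun τ => A τ y) ⁻¹' K)
  have hback : ∀ τ y, A (-τ) (A τ y) = y := fun τ y => by rw [← hA.add, neg_add_cancel, hA.zero]
  by_cases hcov : K ⊆ range ψ ∪ range ψ'
  · obtain ⟨y, hy, ⟨x, hx⟩, x', hx'⟩ := hKp _ _ hψ.op hψ'.op hcov
      ⟨s o 0, Or.inl ⟨0, by simp, by simp only [ax_zero]⟩, 0, hψ.zero⟩
      ⟨s o' 0, Or.inr ⟨0, by simp, by simp only [ax_zero]⟩, 0, hψ'.zero⟩
    have hyF := ((hKe y).1 hy).1
    obtain ⟨z, rfl⟩ := (f3 x).1 (hx ▸ hyF)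
    obtain ⟨z', rfl⟩ := (f4 x').1 (hx' ▸ hyF)
    have hz : z ≠ 0 := by
      rintro rfl
      obtain ⟨τ, hτ⟩ := hC.con o' 2 two_ne_zero
      have e1 := hψ.eqv τ (ax r 0)
      have e2 := hψ'.eqv τ (ax r z')
      simp only [sg_ax, mul_zero, hτ] at e1 e2
      rw [hx] at e1
      rw [hx', e1, ← hx'] at e2
      have e3 := congrFun (Function.LeftInverse.injective hψ'.inv e2) r
      simp only [ax_at] at e3
      have e4 : z' = 0 := by linear_combination -e3
      rw [e4, ax_zero, hψ'.zero] at hx'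
      rw [ax_zero, hψ.zero] at hx
      exact hD.edge.2 o r (hx'.trans hx.symm)
    obtain ⟨τ, hτ⟩ := hC.con o z⁻¹ (inv_ne_zero hz)
    have e1 := hψ.eqv τ (ax r z)
    rw [sg_ax, hτ, inv_mul_cancel₀ hz] at e1
    rw [← e1, hx, ← hx', hψ'.eqv]
    exact ⟨_, rfl⟩
  · exfalso
    set B := K \ (range ψ ∪ range ψ') with hB
    have hBc : IsCompact B := hKc.diff (hψ.op.union hψ'.op)
    have hBn : B.Nonempty := by
      obtain ⟨y, hy, hy'⟩ := not_subset.1 hcov
      exact ⟨y, hy, hy'⟩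
    have hBA : ∀ y ∈ B, ∀ τ, A τ y ∈ B := fun y hy τ => by
      refine ⟨hAK y hy.1 τ, fun h => hy.2 ?_⟩
      rw [← hback τ y]
      rcases h with ⟨x, hx⟩ | ⟨x, hx⟩
      · exact Or.inl ⟨_, by rw [← hx, hψ.eqv]⟩
      · exact Or.inr ⟨_, by rw [← hx, hψ'.eqv]⟩
    have hBs : ∀ y ∈ B, y = s o (ax r (κ o y r)) := by
      rintro y ⟨⟨z, -, rfl⟩ | ⟨z, -, rfl⟩, hy⟩
      · simp only [hD.inv, ax_at]
      · have hz : z ≠ 0 := by
          rintro rfl
          exact hy (Or.inr ⟨0, by simp only [hψ'.zero, ax_zero]⟩)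
        simp only [← htr' z hz, hD.inv, ax_at]
    obtain ⟨y0, hy0, hmin⟩ := hBc.exists_isMinOn hBn (f := fun y => normSq (κ o y r))
      fun y hy => by
        have h1 : ContinuousAt (κ o) y := by
          rw [hBs y hy]
          exact (hD.smi o _).continuousAt
        exact (continuous_normSq.continuousAt.comp ((continuous_apply r).continuousAt.comp
          h1)).continuousWithinAt
    set u0 := κ o y0 r with hu0
    have hy0s : y0 = s o (ax r u0) := hBs y0 hy0
    set e := chartAt (E d) y0 with he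
    obtain ⟨a, ha⟩ := hC.nz o r
    have ha' : (w o r a : ℂ) ≠ 0 := Int.cast_ne_zero.2 ha
    set ξ : ℂ → ι → ℂ := fun t => Pi.single a (t / w o r a) with hξ
    have hξ0 : ξ 0 = 0 := by simp [hξ]
    have hξd : Differentiable ℂ ξ := differentiable_pi.2 fun a' => by
      by_cases h : a' = a
      · simp [hξ, h]
      · simp [hξ, h]
    have hm : MDifferentiable 𝓘(ℂ, ℂ) 𝓘(ℂ, E d) fun t => A (ξ t) y0 :=
      hA.hol.comp (hξd.mdifferentiable.prodMk mdifferentiable_const)
    have h00 : A (ξ 0) y0 = y0 := by rw [hξ0, hA.zero]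
    have hsrc : ∀ᶠ t in 𝓝 (0 : ℂ), A (ξ t) y0 ∈ e.source :=
      hm.continuous.continuousAt.preimage_mem_nhds (by
        rw [h00]
        exact e.open_source.mem_nhds (mem_chart_source _ _))
    have hz : u0 = 0 := by
      refine GT40.EDGB.core (e ∘ fun t => A (ξ t) y0) (fun t => κ o (A (ξ t) y0) r)
        (e ∘ fun z => s o (ax r z)) (fun z => κ o (e.symm z) r) u0
        (hol_ch (hm 0) (by rw [h00]; exact mem_chart_source _ _)) ?_ ?_ ?_ ?_ (fun t => ?_)
        fun t => hmin (hBA y0 hy0 _)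
      · refine (sm_ch ((hD.sm o).comp (ax_smooth r).contMDiff u0) ?_).differentiableAt (by simp)
        show s o (ax r u0) ∈ _
        rw [← hy0s]
        exact mem_chart_source _ _
      · simp only [Function.comp, h00]
        have h1 : ContMDiffAt 𝓘(ℝ, E d) 𝓘(ℝ, R → ℂ) ∞ (κ o ∘ e.symm) (e y0) := by
          refine ContMDiffAt.comp _ ?_ (sm_symm (mem_chart_target _ _))
          rw [e.left_inv (mem_chart_source _ _), hy0s]
          exact hD.smi o _
        exact (((contDiff_apply ℝ ℂ r).contDiffAt.comp _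
          (contMDiffAt_iff_contDiffAt.1 h1))).differentiableAt (by simp)
      · filter_upwards [hsrc] with t ht
        simp only [Function.comp, e.left_inv ht]
      · refine Eventually.of_forall fun t => ?_
        simp only [Function.comp]
        rw [← hBs _ (hBA y0 hy0 _)]
      · have h1 : ξ t = cx (Pi.single a (t / w o r a)) := funext fun a' => by
          by_cases h : a' = a <;> simp [hξ, cx, h]
        rw [h1, hA.re, hy0s, hD.eqv, hD.inv, sg_ax, ax_at, ← h1]
        simp [chi, hξ, Pi.single_apply, mul_div_cancel₀ _ ha']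
    rw [hz, ax_zero, ← hψ.zero] at hy0s
    exact hy0.2 (Or.inl ⟨0, hy0s.symm⟩)

end Pool.Agent.Lib.GU40
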