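import Pool.Agent.Lib.GU40.B_ISO
import Pool.Agent.Lib.GT40.B_FIN
import Pool.Agent.Lib.GT40.B_PJ

/-! Project gu40: from the glued map to the conclusion. -/

open scoped Manifold ContDiff Topology Matrix
open Set Filter Metric Complex Sum

set_option linter.unusedVariables false

noncomputable section

namespace Pool.Agent.Lib.GU40

open Pool.Agent.Lib.GT40 (E V Gr Full Spans Gm Mt)
open Pool.Agent.Lib.GT40.FINB

/-- The statement `St_FIN` for a non-empty set of planes. -/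
def St_FIN1 : Prop := ∀ (m d : ℕ) (b : Bool) (p : ℤˣ) (Y : Type) [TopologicalSpace Y]
  [ChartedSpace (E d) Y] [IsManifold 𝓘(ℂ, E d) ω Y] (X : Set (Gr m m))
  (σ : GT40.Fr m m → V m m → Gr m m) (σ' : Fs m b p → (Rt m b → ℂ) → X)
  (ψ : Fs m b p → (Rt m b → ℂ) → Y) (η : Fs m b p → Y → Rt m b → ℂ) (φ : X ≃ₜ Y)
  (u : Fs m b p → Rt m b → ℂ), X.Nonempty → Gm2 X σ σ' → Cell d wt nb ψ η → (∀ o r, u o r ≠ 0) →
  (∀ o x, φ (σ' o x) = ψ o (u o * x)) → Bihol d φ

namespace FINB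

variable {m : ℕ} {b : Bool}

/-- The coordinates of a matrix in the image of `emb`. -/
def un (b : Bool) (o : Fin m → ℤˣ) (x : V m m) : Rt m b → ℂ := mk fun i l => sn b o l * x i l

theorem un_emb (o : Fin m → ℤˣ) (z : Rt m b → ℂ) : un b o (emb o z) = z := by
  simp only [un, emb, ← mul_assoc, ISOB.sn_sq, one_mul]
  exact mk_en _ z

theorem diff_un (o : Fin m → ℤˣ) (u : Rt m b → ℂ) (x : V m m) :
    DifferentiableAt ℂ (fun y => u * un b o y) x := by
  refine differentiableAt_pi.2 fun r => ?_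
  simp only [Pi.mul_apply, un, mk]
  fun_prop

theorem diff_emb (o : Fin m → ℤˣ) (u x : Rt m b → ℂ) :
    DifferentiableAt ℂ (fun z => emb o (u * z)) x := by
  refine differentiableAt_pi.2 fun i => differentiableAt_pi.2 fun l => ?_
  obtain ⟨L, hL⟩ := en_clm (b := b) (dl b) i l
  simp only [emb, ← hL]
  exact (L.differentiableAt.comp x (differentiableAt_id.const_mul u)).const_mul _

end FINB

open FINB in
theorem st_FIN1 : St_FIN1 := by
  classical
  intro m d b p Y _ _ _ X σ σ' ψ η φ u ⟨P₀, hP₀⟩ hG hc hu hφ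
  obtain ⟨p1, p2, -, -, -⟩ := GT40.st_PJ m m
  have uq : ∀ A (P P' : Gr m m), Full A → Spans P A → Spans P' A → P = P' := fun A P P' hA h h' =>
    Subtype.ext (Matrix.of.injective ((((p1 A hA).2.2 P).1 h).trans (((p1 A hA).2.2 P').1 h').symm))
  refine ⟨?_, fun y => ?_⟩
  · let F : (Fin (m + m) → Fin m → ℂ) → Y := fun A =>
      if h : A ∈ Bas X then φ ⟨h.2.choose, h.2.choose_spec.1⟩ else φ ⟨P₀, hP₀⟩
    have hF : ∀ A (P : X), Full A → Spans P.1 A → F A = φ P := by
      intro A P hA hP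
      have h : A ∈ Bas X := ⟨hA, P.1, P.2, hP⟩
      simp only [F, dif_pos h]
      congr 1
      exact Subtype.ext (uq A _ _ hA h.2.choose_spec.2 hP)
    refine ⟨F, fun A hA => ?_, hF⟩
    obtain ⟨hA1, P, hP, hs⟩ := id hA
    obtain ⟨o, x, hx⟩ := hG.cov ⟨P, hP⟩
    have hv : σ (fr o.1) (emb o.1 x) = P := (hG.val o x).symm.trans (congrArg Subtype.val hx)
    have h0 : (rK (fr o.1) A).det ≠ 0 := det_ne (fr o.1) hA1 (x := emb o.1 x) (by
      rw [← hG.gm.val, hv]
      exact hs)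
    have key : ∀ B ∈ Bas X, (rK (fr o.1) B).det ≠ 0 →
        F B = (ψ o ∘ fun B => u o * un b o.1 (co (fr o.1) B)) B := by
      rintro B ⟨hB1, Q, hQ, hQs⟩ hB
      have h1 : Spans (σ (fr o.1) (co (fr o.1) B)) B := by
        have := hG.gm.sp (fr o.1) (co (fr o.1) B)
        unfold Spans at this ⊢
        rw [← mt_co (fr o.1) hB, ← Matrix.mul_assoc, this]
      have h2 := uq B _ _ hB1 h1 hQs
      obtain ⟨z, hz⟩ := ((st_ISO m b σ hG.gm).1 o.1 _).1 (h2 ▸ hG.iso hQ)
      rw [hF B (σ' o z) hB1 (by rw [hG.val, hz]; exact h1), hφ, Function.comp_apply, ← hz, un_emb]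
    have hn : ∀ᶠ B in 𝓝 A, (rK (fr o.1) B).det ≠ 0 :=
      (diff_det (f := rK (fr o.1)) fun a b => diff_ent A _ _).continuousAt.eventually_ne h0
    have hd : DifferentiableAt ℂ (fun B => u o * un b o.1 (co (fr o.1) B)) A := by
      have h3 := diff_co (fr o.1) 1 h0
      simp only [one_mul] at h3
      exact (diff_un o.1 (u o) _).comp A h3
    refine ((hc.hol o _).comp A hd.mdifferentiableAt).mdifferentiableWithinAt.congr_of_eventuallyEq
      ?_ (key A hA h0)
    filter_upwards [self_mem_nhdsWithin, nhdsWithin_le_nhds hn] with B h1 h2 using key B h1 h2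
  · obtain ⟨o, x, hx⟩ := hG.cov (φ.symm y)
    have hy : y ∈ range (ψ o) := ⟨u o * x, by rw [← hφ, hx, φ.apply_symm_apply]⟩
    refine ⟨fun z => Mt (fr o.1) (emb o.1 ((u o)⁻¹ * η o z)), ?_⟩
    filter_upwards [(hc.op o).mem_nhds hy] with z hz
    obtain ⟨w, rfl⟩ := hz
    have hd : DifferentiableAt ℂ (fun z => Mt (fr o.1) (emb o.1 ((u o)⁻¹ * z))) (η o (ψ o w)) := by
      have h3 := diff_mt (fr o.1) 1 (emb o.1 ((u o)⁻¹ * η o (ψ o w)))
      simp only [one_mul] at h3
      exact DifferentiableAt.comp (g := Mt (fr o.1)) (f := fun z => emb o.1 ((u o)⁻¹ * z))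
        (η o (ψ o w)) h3 (diff_emb o.1 (u o)⁻¹ _)
    refine ⟨hd.mdifferentiableAt.comp _ (hc.hi o w), (p2 _ _).1, ?_⟩
    have e : u o * ((u o)⁻¹ * w) = w := by
      funext r
      simp only [Pi.mul_apply, Pi.inv_apply]
      rw [mul_inv_cancel_left₀ (hu o r)]
    have e' : φ.symm (ψ o w) = σ' o ((u o)⁻¹ * w) := by
      rw [φ.symm_apply_eq, hφ, e]
    rw [e', hc.inv, hG.val]
    exact hG.gm.sp _ _

end Pool.Agent.Lib.GU40
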