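import Pool.Agent.Lib.GU40.Blue
import Pool.Agent.Lib.GT40.B_PJ
import Pool.Agent.Lib.GT40.B_MOD

/-! Project gu40: when two points of two cells coincide. -/

open scoped Manifold ContDiff Topology Matrix
open Set Filter Metric Complex Sum

set_option linter.unusedVariables false
set_option linter.unusedSectionVars false

noncomputable section

namespace Pool.Agent.Lib.GU40

open Pool.Agent.Lib.GT40 (E V Gr Full Spans cx RAct Act Gm kp Mt)

namespace FLPB

variable {m : ℕ}

theorem eq_or_neg (u v : ℤˣ) (h : u ≠ v) : (u = 1 ↔ ¬v = 1) := by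
  rcases Int.units_eq_one_or u with rfl | rfl <;> rcases Int.units_eq_one_or v with rfl | rfl <;>
    simp_all

theorem fr_inl' (o o' : Fin m → ℤˣ) (a : Fin m) :
    fr o (inl a) = fr o' (if o' a = o a then inl a else inr a) := by
  by_cases h : o' a = o a
  · rw [if_pos h, fr_inl, fr_inl, h]
  · rw [if_neg h, fr_inl, fr_inr]
    by_cases h1 : o' a = 1
    · rw [if_pos h1, if_neg ((eq_or_neg _ _ h).1 h1)]
    · rw [if_neg h1, if_pos (by simpa [h1] using eq_or_neg _ _ h)]

theorem fr_inr' (o o' : Fin m → ℤˣ) (a : Fin m) :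
    fr o (inr a) = fr o' (if o' a = o a then inr a else inl a) := by
  by_cases h : o' a = o a
  · rw [if_pos h, fr_inr, fr_inr, h]
  · rw [if_neg h, fr_inl, fr_inr]
    by_cases h1 : o' a = 1
    · rw [if_pos h1, if_neg ((eq_or_neg _ _ h).1 h1)]
    · rw [if_neg h1, if_pos (by simpa [h1] using eq_or_neg _ _ h)]

/-- A plane that contains the basis of a point of a cell is that point. -/
theorem uniq {k q : ℕ} {σ : GT40.Fr k q → V k q → Gr k q} (hσ : Gm σ) (o : GT40.Fr k q)
    (x : V k q) (P : Gr k q) (hP : Spans P (Mt o x)) : σ o x = P := by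
  have := ((GT40.PJ.part1 _ (GT40.PJ.full_Mt o x)).2.2 P).1 hP
  rw [← hσ.val] at this
  exact Subtype.ext (Matrix.of.injective this.symm)

theorem mt_inl' (o o' : Fin m → ℤˣ) (y : V m m) (n i : Fin m) :
    Mt (fr o') y (fr o (inl n)) i =
      if o' n = o n then (if n = i then 1 else 0) else y i n := by
  rw [fr_inl' o o']
  split_ifs with h h'
  · rw [GT40.MODB.mt_inl, if_pos h']
  · rw [GT40.MODB.mt_inl, if_neg h']
  · rw [GT40.MODB.mt_inr]

theorem mt_inr' (o o' : Fin m → ℤˣ) (y : V m m) (l i : Fin m) :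
    Mt (fr o') y (fr o (inr l)) i =
      if o' l = o l then y i l else if i = l then 1 else 0 := by
  rw [fr_inr' o o']
  split_ifs with h h'
  · rw [GT40.MODB.mt_inr]
  · rw [GT40.MODB.mt_inl, if_pos h'.symm]
  · rw [GT40.MODB.mt_inl, if_neg (Ne.symm h')]

theorem sum_eq (o o' : Fin m → ℤˣ) (x y : V m m) (i l : Fin m) :
    ∑ n, Mt (fr o) x (fr o (inr l)) n * Mt (fr o') y (fr o (inl n)) i =
      (if o' i = o i then x i l else 0) + ∑ j, if o' j = o j then 0 else y i j * x j l := by
  have e : (if o' i = o i then x i l else 0) =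
      ∑ n, if n = i then (if o' n = o n then x n l else 0) else 0 := by simp
  rw [e, ← Finset.sum_add_distrib]
  refine Finset.sum_congr rfl fun n _ => ?_
  rw [GT40.MODB.mt_inr, mt_inl']
  split_ifs <;> ring

end FLPB

open FLPB in
theorem st_FLP : St_FLP := by
  intro m σ hσ o o' x y
  constructor
  · intro h i l
    have hs := hσ.sp (fr o') y
    rw [h] at hs
    rw [← sum_eq, ← GT40.MODB.fac (hσ.val (fr o) x) hs, mt_inr']
  · intro h
    refine uniq hσ _ _ _ (GT40.MODB.sp_sum (hσ.sp (fr o) x)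
      (fun n i => Mt (fr o') y (fr o (inl n)) i) fun a i => ?_)
    obtain ⟨c, rfl⟩ := (fr o).surjective a
    rcases c with n | l
    · simp [GT40.MODB.mt_inl]
    · rw [sum_eq, ← h, mt_inr']

end Pool.Agent.Lib.GU40
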