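import Pool.Agent.Lib.GU40.Blue
import Pool.Agent.Lib.GT40.B_GLU

/-! Project gu40: gluing of the cells. -/

open scoped Manifold ContDiff Topology Matrix
open Set Filter Metric Complex Sum

set_option linter.unusedSectionVars false

noncomputable section

namespace Pool.Agent.Lib.GU40

namespace GLUB

variable {ι R F : Type} [Fintype ι] [Fintype R] [DecidableEq R]

theorem dense_ne (r : R) (y : R → ℂ) : y ∈ closure {x : R → ℂ | x r ≠ 0} := by
  have hc : Continuous fun s : ℂ => y + s • (1 : R → ℂ) := by fun_prop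
  have ht : Tendsto (fun s : ℂ => y + s • (1 : R → ℂ)) (𝓝[≠] 0) (𝓝 y) := by
    have h := (hc.tendsto 0).mono_left (nhdsWithin_le_nhds (s := {0}ᶜ))
    simpa using h
  by_cases hy : y r = 0
  · refine mem_closure_of_tendsto ht ?_
    filter_upwards [self_mem_nhdsWithin] with s hs
    have hs' : s ≠ 0 := hs
    simpa [hy] using hs'
  · exact subset_closure hy

theorem dense_rg {X : Type} [TopologicalSpace X] {w : F → R → ι → ℤ} {nb : F → R → F}
    {Piv : R → Prop} {tr : F → R → (R → ℂ) → R → ℂ} {σ : F → (R → ℂ) → X} (hGEN : Gen nb Piv)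
    (hM : Mod w nb Piv tr σ) (o : F) : DenseRange (σ o) := by
  intro P
  obtain ⟨o', ho'⟩ := hM.cov P
  refine hGEN (fun o => P ∈ closure (range (σ o))) (fun o₁ r hr h => ?_) o' o (subset_closure ho')
  refine closure_minimal ?_ isClosed_closure h
  rintro _ ⟨y, rfl⟩
  refine closure_mono ?_ (mem_closure_image (hM.emb o₁).continuous.continuousAt (dense_ne r y))
  rintro _ ⟨x, hx, rfl⟩
  exact ⟨_, hM.tr o₁ r x hr hx⟩

theorem exists_ts {w : F → R → ι → ℤ} {nb : F → R → F} (h : Cmb w nb) :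
    ∃ ts : F → ℂ → ι → ℂ, ∀ o s, s ≠ 0 → ∀ y, sg (w o) (ts o s) y = s • y := by
  choose! ts hts using h.con
  exact ⟨ts, fun o s hs y => funext fun r => by rw [sg, hts o s hs, Pi.smul_apply, smul_eq_mul]⟩

theorem sg_mul (w : R → ι → ℤ) (τ : ι → ℂ) (u x : R → ℂ) : sg w τ (u * x) = u * sg w τ x := by
  funext r
  simp only [sg, Pi.mul_apply]
  ring

theorem sg_null (w : R → ι → ℤ) (τ : ι → ℂ) : sg w τ (0 : R → ℂ) = 0 := by
  funext r
  simp [sg]

theorem mul_cancel {u x y : R → ℂ} (hu : ∀ r, u r ≠ 0) (h : u * x = u * y) : x = y :=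
  funext fun r => mul_left_cancel₀ (hu r) (congrFun h r)

theorem mul_onto {u : R → ℂ} (hu : ∀ r, u r ≠ 0) (y : R → ℂ) : ∃ x, u * x = y :=
  ⟨fun r => (u r)⁻¹ * y r, funext fun r => mul_inv_cancel_left₀ (hu r) _⟩

end GLUB

open GLUB in
theorem st_GLU : St_GLU := by
  intro ι R F _ _ _ _ d X Y _ _ _ _ _ w nb Piv tr σ ψ η G hcmb hGEN ⟨Φ⟩ hM hC hN hv
  classical
  obtain ⟨ts, hts⟩ := exists_ts hcmb
  obtain ⟨o₀, u₀, hG₀⟩ := hN.ex
  have hσi : ∀ o, Function.Injective (σ o) := fun o => (hM.emb o).injective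
  have hψi : ∀ o, Function.Injective (ψ o) := fun o => Function.LeftInverse.injective (hC.inv o)
  have hψc : ∀ o, Continuous (ψ o) := fun o => (hC.hol o).continuous
  have hW : Dense {P | ∀ o, P ∈ range (σ o)} :=
    GT40.GLUB.dense_all (fun o => range (σ o)) (fun o => (hM.emb o).isOpen_range)
      (dense_rg hGEN hM)
  have hex : ∀ o, ∃ u, G o u ∧ ∀ x x₀, σ o x = σ o₀ x₀ → (∀ o', σ o x ∈ range (σ o')) →
      ψ o (u * x) = ψ o₀ (u₀ * x₀) := by
    intro o
    refine hGEN (fun o => ∃ u, G o u ∧ ∀ x x₀, σ o x = σ o₀ x₀ →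
      (∀ o', σ o x ∈ range (σ o')) → ψ o (u * x) = ψ o₀ (u₀ * x₀)) ?_ o₀ o
      ⟨u₀, hG₀, fun x x₀ h _ => by rw [hσi o₀ h]⟩
    rintro o₁ r hr ⟨u, hu, h⟩
    obtain ⟨u', hu', h'⟩ := hN.step o₁ u r hr hu
    refine ⟨u', hu', fun y x₀ hy hall => ?_⟩
    obtain ⟨x, hx⟩ := hall o₁
    have hne : x r ≠ 0 := hM.mem o₁ r x hr ⟨y, hx.symm⟩
    have hyx : tr o₁ r x = y := hσi _ ((hM.tr o₁ r x hr hne).trans hx)
    rw [← hyx, h' x hne]
    exact h x x₀ (hx.trans hy) fun o' => hx ▸ hall o'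
  choose u hu hu' using hex
  have hne : ∀ o r, u o r ≠ 0 := fun o => hN.ne o (u o) (hu o)
  set f : F → X → Y := fun o P => ψ o (u o * Function.invFun (σ o) P) with hf
  have hfσ : ∀ o x, f o (σ o x) = ψ o (u o * x) := fun o x => by
    simp only [hf]
    rw [Function.leftInverse_invFun (hσi o) x]
  have hcu : ∀ o, Continuous fun x : R → ℂ => ψ o (u o * x) := fun o =>
    (hψc o).comp (continuous_const.mul continuous_id)
  have hfc : ∀ o x, ContinuousAt (f o) (σ o x) := fun o x => by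
    rw [← (hM.emb o).continuousAt_iff]
    have e : f o ∘ σ o = fun x : R → ℂ => ψ o (u o * x) := funext (hfσ o)
    rw [e]
    exact (hcu o).continuousAt
  have hff : ∀ o o' P, (∀ o'', P ∈ range (σ o'')) → f o P = f o' P := by
    intro o o' P hP
    obtain ⟨x₀, h₀⟩ := hP o₀
    have a : ∀ o, f o P = ψ o₀ (u₀ * x₀) := fun o => by
      obtain ⟨x, hx⟩ := hP o
      rw [← hx, hfσ]
      exact hu' o x x₀ (hx.trans h₀.symm) fun o' => hx ▸ hP o'
    rw [a o, a o']
  have hcomp : ∀ o o' x x', σ o x = σ o' x' → ψ o (u o * x) = ψ o' (u o' * x') := by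
    intro o o' x x' h
    have hb : (𝓝[{P | ∀ o, P ∈ range (σ o)}] (σ o x)).NeBot :=
      mem_closure_iff_nhdsWithin_neBot.1 (hW _)
    have t1 : Tendsto (f o) (𝓝[{P | ∀ o, P ∈ range (σ o)}] (σ o x)) (𝓝 (f o (σ o x))) :=
      (hfc o x).tendsto.mono_left nhdsWithin_le_nhds
    have t2 : Tendsto (f o') (𝓝[{P | ∀ o, P ∈ range (σ o)}] (σ o x)) (𝓝 (f o' (σ o' x'))) := by
      rw [h]
      exact (hfc o' x').tendsto.mono_left nhdsWithin_le_nhds
    have e : f o =ᶠ[𝓝[{P | ∀ o, P ∈ range (σ o)}] (σ o x)] f o' := by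
      filter_upwards [self_mem_nhdsWithin] with P hP
      exact hff o o' P hP
    rw [← hfσ, ← hfσ]
    exact tendsto_nhds_unique (t1.congr' e) t2
  choose oo hoo using hM.cov
  set φ : X → Y := fun P => f (oo P) P with hφ
  have hφσ : ∀ o x, φ (σ o x) = ψ o (u o * x) := fun o x => by
    obtain ⟨y, hy⟩ := hoo (σ o x)
    have e : φ (σ o x) = f (oo (σ o x)) (σ (oo (σ o x)) y) := by rw [hy]
    rw [e, hfσ]
    exact hcomp _ _ _ _ hy
  have hφc : Continuous φ := by
    refine continuous_iff_continuousAt.2 fun P => ?_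
    obtain ⟨x, hx⟩ := hoo P
    rw [← hx, ← (hM.emb (oo P)).continuousAt_iff]
    have e : φ ∘ σ (oo P) = fun x : R → ℂ => ψ (oo P) (u (oo P) * x) := funext (hφσ _)
    rw [e]
    exact (hcu _).continuousAt
  have hsurj : Function.Surjective φ := by
    have hX : PreconnectedSpace X :=
      (dense_rg hGEN hM o₀).preconnectedSpace (hM.emb o₀).continuous
    have hY : PreconnectedSpace Y := Φ.surjective.denseRange.preconnectedSpace Φ.continuous
    have e : range φ = ⋃ o, range (ψ o) := by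
      refine Subset.antisymm ?_ ?_
      · rintro _ ⟨P, rfl⟩
        obtain ⟨x, hx⟩ := hoo P
        refine mem_iUnion.2 ⟨oo P, u (oo P) * x, ?_⟩
        rw [← hφσ, hx]
      · refine iUnion_subset fun o => ?_
        rintro _ ⟨y, rfl⟩
        obtain ⟨x, rfl⟩ := mul_onto (hne o) y
        exact ⟨σ o x, hφσ o x⟩
    have hcl : IsClopen (range φ) :=
      ⟨(isCompact_range hφc).isClosed, e ▸ isOpen_iUnion fun o => hC.op o⟩
    exact range_eq_univ.1 (hcl.eq_univ ⟨_, σ o₀ 0, rfl⟩)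
  have hinj : ∀ o o' x x', ψ o (u o * x) = ψ o' (u o' * x') → σ o x = σ o' x' := by
    intro o o' x x' h
    set γ : ℂ → X := fun s => σ o (sg (w o) (ts o' s) x) with hγ
    have hφγ : ∀ s, s ≠ 0 → φ (γ s) = ψ o' (s • (u o' * x')) := fun s hs => by
      simp only [hγ]
      rw [hφσ, ← sg_mul, hC.eq (ts o' s) o o' _ _ h, hts o' s hs]
    have hlim : Tendsto (φ ∘ γ) (𝓝[≠] 0) (𝓝 (ψ o' 0)) := by
      have hc : Continuous fun s : ℂ => ψ o' (s • (u o' * x')) :=
        (hψc o').comp (continuous_id.smul continuous_const)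
      have h1 := (hc.tendsto 0).mono_left (nhdsWithin_le_nhds (s := {0}ᶜ))
      rw [zero_smul] at h1
      refine h1.congr' ?_
      filter_upwards [self_mem_nhdsWithin] with s hs
      exact (hφγ s hs).symm
    obtain ⟨P, hP⟩ : ∃ P, MapClusterPt P (𝓝[≠] (0 : ℂ)) γ :=
      exists_clusterPt_of_compactSpace (map γ (𝓝[≠] (0 : ℂ)))
    have hP' : MapClusterPt (φ P) (𝓝[≠] (0 : ℂ)) (φ ∘ γ) := hP.continuousAt_comp hφc.continuousAt
    have hPe : φ P = ψ o' 0 := eq_of_nhds_neBot (ClusterPt.mono hP' hlim)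
    obtain ⟨z, hz⟩ := hoo P
    have h1 : ψ (oo P) (u (oo P) * z) = ψ o' 0 := by rw [← hφσ, hz, hPe]
    have h2 := hC.eq (ts (oo P) 2) (oo P) o' _ _ h1
    rw [hts _ _ two_ne_zero, sg_null, ← h1] at h2
    have h3 : u (oo P) * z = 0 := by
      have h4 := hψi _ h2
      rw [two_smul] at h4
      exact add_eq_left.1 h4
    have h5 : z = 0 := mul_cancel (hne (oo P)) (h3.trans (mul_zero _).symm)
    rw [h3] at h1
    have h6 : P = σ o' 0 := by rw [← hv _ _ h1, ← h5, hz]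
    have h7 : range (σ o') ∈ 𝓝 P := (hM.emb o').isOpen_range.mem_nhds ⟨0, h6.symm⟩
    have h8 : ∃ᶠ s in 𝓝[≠] (0 : ℂ), γ s ∈ range (σ o') := hP.frequently h7
    obtain ⟨s, ⟨y, hy⟩, hs⟩ := (h8.and_eventually self_mem_nhdsWithin).exists
    have h9 := hM.eq (-ts o' s) o o' _ y hy.symm
    rw [sg_sg, neg_add_cancel, sg_zero] at h9
    have h10 := hcomp _ _ _ _ h9
    rw [h] at h10
    rw [h9, mul_cancel (hne o') (hψi o' h10)]
  have hφi : Function.Injective φ := by
    intro P P' h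
    obtain ⟨x, hx⟩ := hoo P
    obtain ⟨x', hx'⟩ := hoo P'
    rw [← hx, ← hx']
    refine hinj _ _ _ _ ?_
    rw [← hφσ, ← hφσ, hx, hx', h]
  exact ⟨Continuous.homeoOfEquivCompactToT2 (f := Equiv.ofBijective φ ⟨hφi, hsurj⟩) hφc, u, hne,
    hφσ⟩

end Pool.Agent.Lib.GU40
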