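import Pool.Agent.Lib.GU40.Blue

/-! Project gu40: the pull-back of a Kähler form is a closed form. -/

open scoped Manifold ContDiff Topology Matrix ComplexOrder
open Set Filter Metric Complex Sum

set_option linter.unusedVariables false
set_option linter.unusedSectionVars false

noncomputable section

namespace Pool.Agent.Lib.GU40

open Pool.Agent.Lib.GT40 (E V Gr Full Spans cx RAct Act Gm kp Mt)

namespace KFB

variable {d : ℕ}

/-- The imaginary part of a sesquilinear form, as a trilinear map. -/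
theorem tri (d : ℕ) : ∃ β : (Fin d → Fin d → ℂ) →L[ℝ] E d →L[ℝ] E d →L[ℝ] ℝ,
    ∀ M a b, β M a b = (star a ⬝ᵥ Matrix.of M *ᵥ b).im := by
  let B : (Fin d → Fin d → ℂ) → E d →L[ℝ] E d →L[ℝ] ℝ := fun M =>
    (LinearMap.mk₂ ℝ (fun a b : E d => (star a ⬝ᵥ Matrix.of M *ᵥ b).im)
      (fun a a' b => by simp [add_dotProduct])
      (fun c a b => by simp [smul_dotProduct])
      (fun a b b' => by simp [Matrix.mulVec_add])
      (fun c a b => by simp [Matrix.mulVec_smul, dotProduct_smul])).toContinuousBilinearMap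
  have hB : ∀ M a b, B M a b = (star a ⬝ᵥ Matrix.of M *ᵥ b).im := fun _ _ _ => rfl
  refine ⟨LinearMap.toContinuousLinearMap
    { toFun := B
      map_add' := fun M N => ?_
      map_smul' := fun c M => ?_ }, hB⟩
  · ext a b
    simp only [add_apply, hB]
    rw [← Matrix.of_add_of, Matrix.add_mulVec, dotProduct_add, add_im]
  · ext a b
    simp only [smul_apply, hB, RingHom.id_apply]
    rw [← Matrix.smul_of, Matrix.smul_mulVec, dotProduct_smul]
    simp

theorem im_ct (A : Matrix (Fin d) (Fin d) ℂ) (a b : E d) :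
    (star a ⬝ᵥ Aᴴ *ᵥ b).im = -(star b ⬝ᵥ A *ᵥ a).im := by
  rw [Matrix.dotProduct_mulVec, ← Matrix.star_mulVec, Matrix.star_dotProduct]
  simp

/-- The real derivative of a Hermitian matrix function. -/
theorem der_herm {M : E d → HS.Mat d} {z : E d} (hh : ∀ w, (M w)ᴴ = M w)
    (hd : ∀ i j, DifferentiableAt ℝ (fun w => M w i j) z) (a : E d) :
    Matrix.of (fderiv ℝ (fun w i j => M w i j) z a) = HS.del a M z + (HS.del a M z)ᴴ := by
  have e : ∀ i j v, fderiv ℝ (fun w => M w j i) z v = star (fderiv ℝ (fun w => M w i j) z v) := by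
    intro i j v
    have h1 : (fun w => M w j i) = fun w => star (M w i j) := funext fun w => by
      rw [← Matrix.conjTranspose_apply, hh]
    rw [h1, (hd i j).hasFDerivAt.star.fderiv]
    rfl
  ext i j
  have h2 : fderiv ℝ (fun w i j => M w i j) z a i j = fderiv ℝ (fun w => M w i j) z a := by
    rw [fderiv_pi fun i => differentiableAt_pi.2 (hd i)]
    simp only [ContinuousLinearMap.pi_apply]
    rw [fderiv_pi (hd i)]
    rfl
  simp only [Matrix.of_apply, Matrix.add_apply, Matrix.conjTranspose_apply, HS.del, h2, e i j]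
  simp
  ring

theorem jac_mul {Y : Type} [TopologicalSpace Y] [ChartedSpace (E d) Y] (p : Y) (z a : E d) :
    HS.jacM p z *ᵥ a =
      fderiv ℂ (chartAt (E d) ((chartAt (E d) p).symm z) ∘ (chartAt (E d) p).symm) z a := by
  funext i
  conv_rhs => rw [← Finset.univ_sum_single a, map_sum, Finset.sum_apply]
  simp only [Matrix.mulVec, dotProduct, HS.jacM, Matrix.of_apply]
  refine Finset.sum_congr rfl fun j _ => ?_
  have : (Pi.single j (a j) : E d) = a j • (Pi.single j 1 : E d) := by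
    rw [← Pi.single_smul, smul_eq_mul, mul_one]
  rw [this, map_smul, Pi.smul_apply, smul_eq_mul, mul_comm]

/-- The form near a point, read in one chart. -/
theorem loc {R : Type} [Fintype R] [DecidableEq R] {Y : Type} [TopologicalSpace Y]
    [ChartedSpace (E d) Y] [IsManifold 𝓘(ℂ, E d) ω Y] (h : Y → HS.Mat d) {s : (R → ℂ) → Y}
    (hs : ContMDiff 𝓘(ℝ, R → ℂ) 𝓘(ℝ, E d) ∞ s) {p : Y} {x : R → ℂ}
    (hx : s x ∈ (chartAt (E d) p).source) (v v' : R → ℂ) :
    Om d h s x v v' = (star (fderiv ℝ (chartAt (E d) p ∘ s) x v) ⬝ᵥ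
      HS.inChart h p (chartAt (E d) p (s x)) *ᵥ fderiv ℝ (chartAt (E d) p ∘ s) x v').im := by
  have e1 : (chartAt (E d) p).symm (chartAt (E d) p (s x)) = s x := (chartAt (E d) p).left_inv hx
  have hT : DifferentiableAt ℂ (chartAt (E d) (s x) ∘ (chartAt (E d) p).symm)
      (chartAt (E d) p (s x)) :=
    GT40.hol_ch (GT40.hol_symm ((chartAt (E d) p).map_source hx))
      (by rw [e1]; exact mem_chart_source _ _)
  have hg : DifferentiableAt ℝ (chartAt (E d) p ∘ s) x :=
    (GT40.sm_ch (hs x) hx).differentiableAt (by simp)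
  have e2 : ∀ u, Dv d s x u =
      HS.jacM p (chartAt (E d) p (s x)) *ᵥ fderiv ℝ (chartAt (E d) p ∘ s) x u := by
    intro u
    rw [jac_mul, e1]
    have ev : chartAt (E d) (s x) ∘ s =ᶠ[𝓝 x]
        (chartAt (E d) (s x) ∘ (chartAt (E d) p).symm) ∘ (chartAt (E d) p ∘ s) := by
      filter_upwards [hs.continuous.continuousAt.preimage_mem_nhds
        ((chartAt (E d) p).open_source.mem_nhds hx)] with y hy
      simp only [Function.comp, (chartAt (E d) p).left_inv hy]
    rw [Dv, ev.fderiv_eq,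
      ((hT.hasFDerivAt.restrictScalars ℝ).comp x hg.hasFDerivAt).fderiv]
    rfl
  rw [Om, e2, e2, HS.inChart, e1, Matrix.star_mulVec, ← Matrix.dotProduct_mulVec,
    Matrix.mulVec_mulVec, Matrix.mulVec_mulVec]

end KFB

theorem st_KF : St_KF := by
  intro R _ _ d Y _ _ _ h s hK hs
  obtain ⟨β, hβ⟩ := KFB.tri d
  let Ω : (R → ℂ) → (R → ℂ) →L[ℝ] (R → ℂ) →L[ℝ] ℝ := fun x =>
    (β (fun i j => h (s x) i j)).bilinearComp (Dv d s x) (Dv d s x)
  have hΩ : ∀ x v v', Ω x v v' = Om d h s x v v' := fun x v v' => hβ _ _ _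
  have hh : ∀ p z, (HS.inChart h p z)ᴴ = HS.inChart h p z := fun p z => by
    simp only [HS.inChart, Matrix.conjTranspose_mul, Matrix.conjTranspose_conjTranspose,
      (hK.pos _).isHermitian.eq, Matrix.mul_assoc]
  have anti : ∀ (M : HS.Mat d), Mᴴ = M → ∀ a b, β (fun i j => M i j) a b =
      -β (fun i j => M i j) b a := fun M hM a b => by
    rw [hβ, hβ]
    exact (congrArg (fun A : HS.Mat d => (star a ⬝ᵥ A *ᵥ b).im) hM).symm.trans (KFB.im_ct M a b)
  have ev : ∀ x0 v v', (fun x => Ω x v v') =ᶠ[𝓝 x0] fun x =>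
      β ((fun z i j => HS.inChart h (s x0) z i j) ((chartAt (E d) (s x0) ∘ s) x))
        (fderiv ℝ (chartAt (E d) (s x0) ∘ s) x v) (fderiv ℝ (chartAt (E d) (s x0) ∘ s) x v') := by
    intro x0 v v'
    filter_upwards [hs.continuous.continuousAt.preimage_mem_nhds
      ((chartAt (E d) (s x0)).open_source.mem_nhds (mem_chart_source _ _))] with x hx
    rw [hΩ, hβ, KFB.loc h hs hx]
    rfl
  have hg : ∀ x0, ContDiffAt ℝ ∞ (chartAt (E d) (s x0) ∘ s) x0 := fun x0 =>
    GT40.sm_ch (hs x0) (mem_chart_source _ _)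
  have hD : ∀ x0, ContDiffAt ℝ 1 (fderiv ℝ (chartAt (E d) (s x0) ∘ s)) x0 := fun x0 =>
    (hg x0).fderiv_right (by norm_cast)
  have hM : ∀ x0, ContDiffAt ℝ 1 (fun z i j => HS.inChart h (s x0) z i j)
      ((chartAt (E d) (s x0) ∘ s) x0) := fun x0 =>
    contDiffAt_pi.2 fun i => contDiffAt_pi.2 fun j => (hK.smooth (s x0) i j).of_le (by norm_cast)
  have hc : ContDiff ℝ 1 Ω := by
    refine contDiff_clm_apply_iff.2 fun v => contDiff_clm_apply_iff.2 fun v' =>
      contDiff_iff_contDiffAt.2 fun x0 => ContDiffAt.congr_of_eventuallyEq ?_ (ev x0 v v')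
    exact ((β.contDiff.contDiffAt.comp x0 ((hM x0).comp x0 ((hg x0).of_le (by norm_cast)))).clm_apply
      ((hD x0).clm_apply contDiffAt_const)).clm_apply ((hD x0).clm_apply contDiffAt_const)
  refine ⟨Ω, hc, hΩ, fun x v v' => anti (h (s x)) (hK.pos _).isHermitian.eq _ _, fun x u v v' => ?_⟩
  have hdΩ := (hc.differentiable (by simp) x).hasFDerivAt
  have h1 := ((hg x).differentiableAt (by simp)).hasFDerivAt
  have h2 := ((hD x).differentiableAt (by simp)).hasFDerivAt
  have h3 := ((hM x).differentiableAt (by simp)).hasFDerivAt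
  have sy := (hg x).isSymmSndFDerivAt (by simp; norm_cast)
  have dh := KFB.der_herm (hh (s x)) fun i j => (hK.smooth (s x) i j).differentiableAt (by simp)
  have cl := hK.closed (s x)
  have an := anti _ (hh (s x) (chartAt (E d) (s x) (s x)))
  have ev' := ev x
  have e0 : chartAt (E d) (s x) (s x) = (chartAt (E d) (s x) ∘ s) x := rfl
  rw [e0] at dh cl an
  generalize chartAt (E d) (s x) ∘ s = g at h1 h2 h3 sy dh cl an ev'
  have key : ∀ u v v', fderiv ℝ Ω x u v v' =
      β (fderiv ℝ (fun z i j => HS.inChart h (s x) z i j) (g x) (fderiv ℝ g x u))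
        (fderiv ℝ g x v) (fderiv ℝ g x v') +
      β (fun i j => HS.inChart h (s x) (g x) i j) (fderiv ℝ (fderiv ℝ g) x u v) (fderiv ℝ g x v') +
      β (fun i j => HS.inChart h (s x) (g x) i j) (fderiv ℝ g x v)
        (fderiv ℝ (fderiv ℝ g) x u v') := by
    intro u v v'
    have a1 := (hdΩ.clm_apply (hasFDerivAt_const v x)).clm_apply (hasFDerivAt_const v' x)
    have a0 := HasFDerivAt.comp (G := E d →L[ℝ] E d →L[ℝ] ℝ) x β.hasFDerivAt (h3.comp x h1)
    have a4 := a0.clm_apply (h2.clm_apply (hasFDerivAt_const v x))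
    have a2 := a4.clm_apply (h2.clm_apply (hasFDerivAt_const v' x))
    have a3 := congrArg (fun L => L u) (a1.unique (a2.congr_of_eventuallyEq (ev' v v')))
    simp at a3
    rw [a3]
    ring
  have fst : ∀ a b c, β (fderiv ℝ (fun z i j => HS.inChart h (s x) z i j) (g x) a) b c =
      (star b ⬝ᵥ HS.del a (HS.inChart h (s x)) (g x) *ᵥ c).im -
        (star c ⬝ᵥ HS.del a (HS.inChart h (s x)) (g x) *ᵥ b).im := fun a b c => by
    rw [hβ, dh, Matrix.add_mulVec, dotProduct_add, add_im, KFB.im_ct, sub_eq_add_neg]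
  rw [key, key, key, fst, fst, fst, sy v u, sy v' u, sy v' v, cl (fderiv ℝ g x u),
    cl (fderiv ℝ g x u), cl (fderiv ℝ g x v') (fderiv ℝ g x v), an (fderiv ℝ g x v),
    an (fderiv ℝ g x v'), an (fderiv ℝ g x u)]
  ring

end Pool.Agent.Lib.GU40
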