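import Pool.Agent.Lib.GU40.B_SG1

/-! Project gu40, block MOM: moment functions. -/

open scoped Manifold ContDiff Topology Matrix ComplexOrder
open Set Filter Metric Complex Sum

set_option linter.unusedVariables false
set_option linter.unusedSectionVars false

noncomputable section

namespace Pool.Agent.Lib.GU40

open Pool.Agent.Lib.GT40 (E cx hol_ch hol_symm sm_ch sm_symm)

namespace MOMB

variable {ι R F : Type} [Fintype ι] [Fintype R] [DecidableEq R]

theorem rot_ax (n : R → ℤ) (θ : ℝ) (r : R) (z : ℂ) :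
    rot n θ (ax r z) = ax r (exp (I * (n r * θ)) * z) := by
  funext r'
  by_cases h : r' = r <;> simp [rot, ax, h]

theorem gen_ax (n : R → ℤ) (r : R) (t : ℝ) (z : ℂ) :
    (fun r' => I * n r' * ax r (t * z) r') = (n r * t : ℝ) • ax r (I * z) := by
  funext r'
  by_cases h : r' = r
  · simp only [ax, h, if_true, Pi.smul_apply, real_smul]
    push_cast
    ring
  · simp [ax, h]

theorem om_ax (B : (R → ℂ) →L[ℝ] (R → ℂ) →L[ℝ] ℝ) (hB : ∀ v v', B v v' = -B v' v) (r : R)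
    (z : ℂ) : B (ax r z) (ax r (I * z)) = normSq z * B (ax r 1) (I • ax r 1) := by
  have h0 (v : R → ℂ) : B v v = 0 := by linarith [hB v v]
  rw [SG1B.ax_eq r z, SG1B.ax_eq r (I * z)]
  simp only [map_add, map_smul, _root_.add_apply, _root_.smul_apply,
    h0, hB (I • ax r 1) (ax r 1), smul_eq_mul, mul_re, mul_im, I_re, I_im, normSq_apply]
  ring

theorem normSq_exp (k : ℤ) (θ : ℝ) : normSq (exp (I * (k * θ))) = 1 := by
  rw [normSq_eq_norm_sq, show I * (k * θ : ℂ) = ((k * θ : ℝ) : ℂ) * I by push_cast; ring,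
    norm_exp_ofReal_mul_I, one_pow]

theorem hasDerivAt_ax (r : R) (u : ℂ) (t : ℝ) :
    HasDerivAt (fun t : ℝ => ax r (t * u)) (ax r u) t := by
  have : (fun t : ℝ => ax r (t * u)) = fun t : ℝ => t • ax r u := by
    funext t
    rw [← smul_ax, Complex.coe_smul]
  rw [this]
  simpa using (hasDerivAt_id t).smul_const (ax r u)

section pot

variable {n : R → ℤ} {Ω : (R → ℂ) → (R → ℂ) →L[ℝ] (R → ℂ) →L[ℝ] ℝ} {H : (R → ℂ) → ℝ}
  {L : (R → ℂ) → (R → ℂ) →L[ℝ] ℝ}

theorem deriv_ax (hA : ∀ x v v', Ω x v v' = -Ω x v' v)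
    (hH : ∀ x, HasFDerivAt H (L x) x ∧ ∀ v, L x v = ∫ θ in (0 : ℝ)..2 * Real.pi,
      Ω (rot n θ x) (rot n θ v) fun r => I * n r * rot n θ x r) (r : R) (u : ℂ) (t : ℝ) :
    HasDerivAt (fun t : ℝ => H (ax r (t * u))) (∫ θ in (0 : ℝ)..2 * Real.pi, t * normSq u *
      (n r * Ω (ax r (exp (I * (n r * θ)) * (t * u))) (ax r 1) (I • ax r 1))) t := by
  have h1 := (hH (ax r (t * u))).1.comp_hasDerivAt t (hasDerivAt_ax r u t)
  rw [(hH _).2] at h1
  refine h1.congr_deriv (intervalIntegral.integral_congr fun θ _ => ?_)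
  simp only [rot_ax]
  rw [mul_left_comm, gen_ax, map_smul, om_ax _ (hA _), map_mul, normSq_exp, smul_eq_mul]
  ring

theorem mono (hΩ : Continuous Ω) (hA : ∀ x v v', Ω x v v' = -Ω x v' v)
    (hH : ∀ x, HasFDerivAt H (L x) x ∧ ∀ v, L x v = ∫ θ in (0 : ℝ)..2 * Real.pi,
      Ω (rot n θ x) (rot n θ v) fun r => I * n r * rot n θ x r) (r : R) {u : ℂ} (hu : u ≠ 0)
    {σ : ℝ} (hσ : ∀ z, 0 < σ * (n r * Ω (ax r z) (ax r 1) (I • ax r 1))) :
    σ * H 0 < σ * H (ax r u) := by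
  have hd (t : ℝ) := (deriv_ax hA hH r u t).const_mul σ
  have := strictMonoOn_of_deriv_pos (convex_Ici (0 : ℝ))
    (fun t _ => (hd t).continuousAt.continuousWithinAt) (fun t ht => by
      rw [interior_Ici] at ht
      rw [(hd t).deriv, ← intervalIntegral.integral_const_mul]
      refine intervalIntegral.intervalIntegral_pos_of_pos_on (Continuous.intervalIntegrable ?_ _ _)
        (fun θ _ => ?_) (by positivity)
      · refine continuous_const.mul (continuous_const.mul (continuous_const.mul ?_))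
        exact ((hΩ.comp ((SG1B.cont_ax r).comp (by fun_prop))).clm_apply
          continuous_const).clm_apply continuous_const
      · rw [mul_left_comm]
        exact mul_pos (mul_pos ht (normSq_pos.2 hu)) (hσ _))
    (show (0 : ℝ) ∈ Ici 0 by simp) (show (1 : ℝ) ∈ Ici 0 by simp) one_pos
  simpa [ax_zero] using this

theorem flat (hA : ∀ x v v', Ω x v v' = -Ω x v' v)
    (hH : ∀ x, HasFDerivAt H (L x) x ∧ ∀ v, L x v = ∫ θ in (0 : ℝ)..2 * Real.pi,
      Ω (rot n θ x) (rot n θ v) fun r => I * n r * rot n θ x r) (r : R) (u : ℂ) (h : n r = 0) :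
    H (ax r u) = H 0 := by
  have hd (t : ℝ) := deriv_ax hA hH r u t
  have := is_const_of_deriv_eq_zero (fun t => (hd t).differentiableAt)
    (fun t => by rw [(hd t).deriv]; simp [h]) 1 0
  simpa [ax_zero] using this

end pot

theorem rot_eq (w : R → ι → ℤ) (ξ : ι → ℤ) (θ : ℝ) (x : R → ℂ) :
    rot (fun r => w r ⬝ᵥ ξ) θ x = sg w (cx fun a => ξ a * θ) x := by
  funext r
  simp only [rot, sg, chi, cx, dotProduct]
  push_cast
  simp only [Finset.sum_mul, mul_assoc]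

theorem hasDerivAt_rot (n : R → ℤ) (x : R → ℂ) (θ : ℝ) :
    HasDerivAt (fun θ => rot n θ x) (fun r => I * n r * rot n θ x r) θ := by
  refine hasDerivAt_pi.2 fun r => ?_
  have h1 : HasDerivAt (fun θ : ℝ => I * (n r * (θ : ℂ))) (I * (n r * 1)) θ :=
    ((ofRealCLM.hasDerivAt).const_mul _).const_mul _
  refine (h1.cexp.mul_const (x r)).congr_deriv ?_
  simp only [rot]
  ring

variable {d : ℕ} {Y : Type} [TopologicalSpace Y] [ChartedSpace (E d) Y]
  [IsManifold 𝓘(ℂ, E d) ω Y] {w : F → R → ι → ℤ} {nb : F → R → F} {s : F → (R → ℂ) → Y}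
  {κ : F → Y → R → ℂ} {ρ : (ι → ℝ) → Y → Y} {h : Y → HS.Mat d}

theorem om_sign (hD : Dat d w nb s κ ρ) (hh : GH.Kaehler h) (o : F) (x : R → ℂ) (r : R) {ε : ℝ}
    (hO : Ori d (s o) x (ax r 1) ε) : 0 < ε * Om d h (s o) x (ax r 1) (I • ax r 1) := by
  obtain ⟨a, b, hb, e⟩ := hO
  have hp := (hh.pos (s o x)).dotProduct_mulVec_pos (SG1B.dv_ne hD o x r)
  have e1 := congrArg (fun v => (star (Dv d (s o) x (ax r 1)) ⬝ᵥ h (s o x) *ᵥ v).im) e
  simp only [← Complex.coe_smul, Matrix.mulVec_add, Matrix.mulVec_smul, dotProduct_add,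
    dotProduct_smul, smul_eq_mul, add_im, mul_im, I_re, I_im, ofReal_re, ofReal_im] at e1
  obtain ⟨h1, h2⟩ := Complex.pos_iff.1 hp
  rw [← h2] at e1
  have h3 : 0 < b * Om d h (s o) x (ax r 1) (I • ax r 1) := by
    unfold Om
    linarith
  have hb0 : b ≠ 0 := fun c => by simp [c] at hb
  refine (mul_pos_iff_of_pos_left (mul_self_pos.2 hb0)).1 ?_
  nlinarith [mul_pos hb h3]

theorem back (hD : Dat d w nb s κ ρ) {o o' : F} {x : R → ℂ} (hx : s o x ∈ range (s o')) :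
    s o' (κ o' (s o x)) = s o x := by
  obtain ⟨y, hy⟩ := hx
  rw [← hy, hD.inv]

theorem isOpen_ov (hD : Dat d w nb s κ ρ) (o o' : F) : IsOpen (s o ⁻¹' range (s o')) :=
  (hD.op o').preimage (hD.sm o).continuous

theorem diff_g (hD : Dat d w nb s κ ρ) {o o' : F} {x : R → ℂ} (hx : s o x ∈ range (s o')) :
    DifferentiableAt ℝ (κ o' ∘ s o) x := by
  have h1 := hD.smi o' (κ o' (s o x))
  rw [back hD hx] at h1
  exact (contMDiffAt_iff_contDiffAt.1 (h1.comp x (hD.sm o x))).differentiableAt (by simp)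

theorem dv_g (hD : Dat d w nb s κ ρ) {o o' : F} {x : R → ℂ} (hx : s o x ∈ range (s o'))
    (v : R → ℂ) :
    Dv d (s o') (κ o' (s o x)) (fderiv ℝ (κ o' ∘ s o) x v) = Dv d (s o) x v := by
  have h1 : DifferentiableAt ℝ (chartAt (E d) (s o' (κ o' (s o x))) ∘ s o') (κ o' (s o x)) :=
    (sm_ch (hD.sm o' _) (mem_chart_source _ _)).differentiableAt (by simp)
  have h2 := (h1.hasFDerivAt.comp x (diff_g hD hx).hasFDerivAt).fderiv
  have h3 : (chartAt (E d) (s o' (κ o' (s o x))) ∘ s o') ∘ (κ o' ∘ s o) =ᶠ[𝓝 x]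
      chartAt (E d) (s o x) ∘ s o := by
    filter_upwards [(isOpen_ov hD o o').mem_nhds hx] with y hy
    simp only [Function.comp_apply]
    rw [back hD hx, back hD hy]
  rw [h3.fderiv_eq] at h2
  exact (DFunLike.congr_fun h2 v).symm

theorem om_g (hD : Dat d w nb s κ ρ) {o o' : F} {x : R → ℂ} (hx : s o x ∈ range (s o'))
    (v v' : R → ℂ) : Om d h (s o') (κ o' (s o x)) (fderiv ℝ (κ o' ∘ s o) x v)
      (fderiv ℝ (κ o' ∘ s o) x v') = Om d h (s o) x v v' := by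
  unfold Om
  rw [dv_g hD hx, dv_g hD hx, back hD hx]

theorem s_sg (hD : Dat d w nb s κ ρ) {o o' : F} {x : R → ℂ} (hx : s o x ∈ range (s o'))
    (θ : ι → ℝ) : s o' (sg (w o') (cx θ) (κ o' (s o x))) = s o (sg (w o) (cx θ) x) := by
  rw [← hD.eqv, ← hD.eqv, back hD hx]

theorem g_sg (hD : Dat d w nb s κ ρ) {o o' : F} {x : R → ℂ} (hx : s o x ∈ range (s o'))
    (θ : ι → ℝ) : κ o' (s o (sg (w o) (cx θ) x)) = sg (w o') (cx θ) (κ o' (s o x)) := by
  rw [← s_sg hD hx, hD.inv]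

theorem dg_sg (hD : Dat d w nb s κ ρ) {o o' : F} {x : R → ℂ} (hx : s o x ∈ range (s o'))
    (θ : ι → ℝ) (v : R → ℂ) : fderiv ℝ (κ o' ∘ s o) (sg (w o) (cx θ) x) (sg (w o) (cx θ) v) =
      sg (w o') (cx θ) (fderiv ℝ (κ o' ∘ s o) x v) := by
  have h1 := ((diff_g hD ⟨_, s_sg hD hx θ⟩).hasFDerivAt.comp x
    (SG1B.sgL (w o) (cx θ)).hasFDerivAt).fderiv
  have h2 := ((SG1B.sgL (w o') (cx θ)).hasFDerivAt.comp x (diff_g hD hx).hasFDerivAt).fderiv
  have h3 : (κ o' ∘ s o) ∘ SG1B.sgL (w o) (cx θ) =ᶠ[𝓝 x]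
      SG1B.sgL (w o') (cx θ) ∘ (κ o' ∘ s o) := by
    filter_upwards [(isOpen_ov hD o o').mem_nhds hx] with y hy using g_sg hD hy θ
  exact DFunLike.congr_fun (h1.symm.trans (h3.fderiv_eq.trans h2)) v

theorem dg_gen (hD : Dat d w nb s κ ρ) {o o' : F} {x : R → ℂ} (hx : s o x ∈ range (s o'))
    (ξ : ι → ℤ) (θ : ℝ) : fderiv ℝ (κ o' ∘ s o) (rot (fun r => w o r ⬝ᵥ ξ) θ x)
      (fun r => I * (w o r ⬝ᵥ ξ : ℤ) * rot (fun r => w o r ⬝ᵥ ξ) θ x r) =
      fun r => I * (w o' r ⬝ᵥ ξ : ℤ) * rot (fun r => w o' r ⬝ᵥ ξ) θ (κ o' (s o x)) r := by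
  have h0 : s o (rot (fun r => w o r ⬝ᵥ ξ) θ x) ∈ range (s o') := by
    rw [rot_eq]
    exact ⟨_, s_sg hD hx _⟩
  have h1 := (diff_g hD h0).hasFDerivAt.comp_hasDerivAt θ
    (hasDerivAt_rot (fun r => w o r ⬝ᵥ ξ) x θ)
  refine h1.unique ((hasDerivAt_rot (fun r => w o' r ⬝ᵥ ξ) (κ o' (s o x)) θ).congr_of_eventuallyEq
    (.of_forall fun θ => ?_))
  simp only [Function.comp_apply, rot_eq]
  exact g_sg hD hx _

end MOMB

open MOMB in
theorem st_MOM (hKF : St_KF) (hPOT : St_POT) : St_MOM := by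
  intro ι R F _ _ _ d Y _ _ _ w nb s κ ρ h ξ hC hD hh
  choose Ω h1 h2 h3 h4 using fun o => hKF R d Y h (s o) hh (hD.sm o)
  choose H L hH using fun o => hPOT R (fun r => w o r ⬝ᵥ ξ) (Ω o) (h1 o) (h3 o) (h4 o)
  refine ⟨H, fun o o' hc => ?_, fun o r u ε hO hu hε => ?_, fun o r u ε hO hu hε => ?_,
    fun o r u h0 => flat (h3 o) (hH o) r u h0⟩
  · have hd (x) (hx : s o x ∈ range (s o')) :
        HasFDerivAt (fun x => H o x - H o' (κ o' (s o x))) (0 : (R → ℂ) →L[ℝ] ℝ) x := by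
      refine ((hH o x).1.sub ((hH o' _).1.comp x (diff_g hD hx).hasFDerivAt)).congr_fderiv ?_
      ext v
      have h5 : s o' (κ o' (s o x)) = s o x := back hD hx
      rw [_root_.sub_apply, ContinuousLinearMap.comp_apply, (hH o x).2, (hH o' _).2,
        _root_.zero_apply, sub_eq_zero]
      refine intervalIntegral.integral_congr fun θ _ => ?_
      have h0 : s o (rot (fun r => w o r ⬝ᵥ ξ) θ x) ∈ range (s o') := by
        rw [rot_eq]
        exact ⟨_, s_sg hD hx _⟩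
      simp only [h2]
      rw [← om_g hD h0, dg_gen hD hx]
      simp only [Function.comp_apply, rot_eq, dg_sg hD hx, g_sg hD hx]
    obtain ⟨c, hc⟩ := (isOpen_ov hD o o').exists_is_const_of_fderiv_eq_zero (𝕜 := ℝ) hc
      (fun x hx => (hd x hx).differentiableAt.differentiableWithinAt) fun x hx => (hd x hx).fderiv
    exact ⟨c, fun x hx => by linarith [hc x hx]⟩
  · have hε0 : ε ≠ 0 := fun c => by simp [c] at hε
    have := mono (σ := 1) (h1 o).continuous (h3 o) (hH o) r hu fun z => by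
      rw [h2, one_mul]
      refine (mul_pos_iff_of_pos_left (mul_self_pos.2 hε0)).1 ?_
      nlinarith [mul_pos hε (om_sign hD hh o _ r (hO z))]
    linarith
  · have hε0 : ε ≠ 0 := fun c => by simp [c] at hε
    have := mono (σ := -1) (h1 o).continuous (h3 o) (hH o) r hu fun z => by
      rw [h2]
      refine (mul_pos_iff_of_pos_left (mul_self_pos.2 hε0)).1 ?_
      nlinarith [mul_pos (neg_pos.2 hε) (om_sign hD hh o _ r (hO z))]
    linarith

end Pool.Agent.Lib.GU40
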