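import Pool.Agent.Lib.GU40.NRK

/-! Project gu40: normalisation in the skew case. -/

open scoped Manifold ContDiff Topology Matrix
open Set Filter Metric Complex Sum

set_option linter.unusedVariables false
set_option linter.unusedSectionVars false

noncomputable section

namespace Pool.Agent.Lib.GU40

open Pool.Agent.Lib.GT40 (E V Gr Full Spans cx RAct Act Gm kp Mt)

namespace NR2B

open NRK CMBB

variable {m d : ℕ} {p : ℤˣ} {Y : Type} [TopologicalSpace Y] [ChartedSpace (E d) Y]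
  {ψ : Fs m false p → (Rt m false → ℂ) → Y} {η : Fs m false p → Y → Rt m false → ℂ}

theorem sk (x : Rt m false → ℂ) (a c : Fin m) : en (-1) x c a = -en (-1) x a c := by
  simpa [dl] using en_symm x a c

theorem dg (x : Rt m false → ℂ) (a : Fin m) : en (-1) x a a = 0 := by simp [en]

theorem en_row {δ : ℂ} {M : Fin m → Fin m → ℂ} {a e : Fin m} (hae : a ≠ e) (h : δ * M e a = M a e) :
    en δ (mk M : Rt m false → ℂ) a e = M a e := by
  rcases lt_trichotomy a e with h1 | rfl | h1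
  · simp [en, mk, h1]
  · exact absurd rfl hae
  · simp [en, mk, h1, h1.not_gt, h]

/-- The point has rank two, seen from `a, c`. -/
def A2 (ψ : Fs m false p → (Rt m false → ℂ) → Y) (o : Fs m false p) (a c : Fin m)
    (x : Rt m false → ℂ) : Prop :=
  ∃ h : a ≠ c, en (-1) x a c ≠ 0 ∧ As ψ o (fl o a c (Or.inr h)) x

/-- The quadratic relations. -/
def Pl (x : Rt m false → ℂ) : Prop := ∀ a c e f,
  en (-1) x a c * en (-1) x e f - en (-1) x a e * en (-1) x c f + en (-1) x a f * en (-1) x c e = 0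

/-- All entries are different from zero. -/
def NZ (x : Rt m false → ℂ) : Prop := ∀ e f, e ≠ f → en (-1) x e f ≠ 0

theorem A2.symm {o : Fs m false p} {a c : Fin m} {x : Rt m false → ℂ} (h : A2 ψ o a c x) :
    A2 ψ o c a x := by
  obtain ⟨h1, h2, h3⟩ := h
  refine ⟨h1.symm, by rwa [sk, neg_ne_zero], ?_⟩
  rwa [fl_comm]

theorem k2 (hc : Cell d wt nb ψ η) (ht : Trn2 ψ) {o : Fs m false p} {a c e : Fin m}
    {x : Rt m false → ℂ} (h : A2 ψ o a c x) (hea : e ≠ a) (hx : en (-1) x a e ≠ 0) :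
    A2 ψ o a e x := by
  rcases eq_or_ne e c with rfl | hec
  · exact h
  obtain ⟨hac, h1, y, h2, h3⟩ := h
  obtain ⟨k, β, γ, hk, hT⟩ := ht o a c hac
  obtain ⟨y', h4, -, h5, -⟩ := hT x h1
  obtain rfl : y = y' := inj hc _ (h2.trans h4.symm)
  have e1 : fl (fl o a c (Or.inr hac)) c e (Or.inr hec.symm) = fl o a e (Or.inr hea.symm) :=
    Subtype.ext (funext fun i => sg3 _ hac hea.symm hec.symm)
  refine ⟨hea.symm, hx, key hc h2 h3 ?_⟩
  obtain ⟨k', β', γ', -, hT'⟩ := ht (fl o a c (Or.inr hac)) c e hec.symm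
  rw [← e1]
  refine (hT' _ ?_).imp fun _ h => h.1
  rw [en_ite (-1) y fun i => (fl o a c (Or.inr hac)).1 i ≠ o.1 i,
    if_neg (by simp [fl_eq, hea, hec]), (h5 e hea hec).2]
  exact div_ne_zero (mul_ne_zero (hk _ _) hx) h1

theorem rel (hc : Cell d wt nb ψ η) {o : Fs m false p} {a c : Fin m} {x y : Rt m false → ℂ}
    (h : A2 ψ o a c x) (hac : a ≠ c) (hy : ψ (fl o a c (Or.inr hac)) y = ψ o x) {e f : Fin m}
    (h1 : e ≠ a) (h2 : e ≠ c) (h3 : f ≠ a) (h4 : f ≠ c) : en (-1) y e f = 0 := by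
  obtain ⟨_, -, y', h5, h6⟩ := h
  obtain rfl : y = y' := inj hc _ (hy.trans h5.symm)
  exact en_zero (q := fun i => (fl o a c (Or.inr hac)).1 i = o.1 i) h6
    ((fl_eq o a c _ e).2 ⟨h1, h2⟩) ((fl_eq o a c _ f).2 ⟨h3, h4⟩)

theorem all (hc : Cell d wt nb ψ η) (ht : Trn2 ψ) {o : Fs m false p} {a c : Fin m}
    {x : Rt m false → ℂ} (h : A2 ψ o a c x) (hx : NZ x) {e f : Fin m} (hef : e ≠ f) :
    A2 ψ o e f x := by
  rcases eq_or_ne e a with rfl | hea
  · exact k2 hc ht h hef.symm (hx _ _ hef)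
  · exact k2 hc ht (k2 hc ht h hea (hx _ _ hea.symm)).symm hef.symm (hx _ _ hef)

theorem nz_mul {u x : Rt m false → ℂ} (hu : ∀ r, u r ≠ 0) (hx : NZ x) : NZ (u * x) :=
  fun e f h => by
    rw [en_mul]
    exact mul_ne_zero (en_one_ne hu (Or.inr h)) (hx e f h)

theorem en_tr (o : Fs m false p) (r : Rt m false) (x : Rt m false → ℂ) (e f : Fin m) :
    en (-1) (tr o r x) e f = t2 r.1.1 r.1.2 (en (-1) x) e f := by
  have h : r.1.2 ≠ r.1.1 := (r.2.resolve_right (by simp)).ne'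
  have := en_mk (b := false) (M := t2 r.1.1 r.1.2 (en (-1) x)) (fun e f => ?_) e f
  · simpa [tr, dl] using this
  · simp only [t2, dl, sk x e f, sk x r.1.1 e, sk x r.1.2 e, sk x r.1.1 f, sk x r.1.2 f]
    by_cases i1 : e = r.1.1 <;> by_cases i2 : e = r.1.2 <;> by_cases i3 : f = r.1.1 <;>
      by_cases i4 : f = r.1.2 <;> simp [i1, i2, i3, i4, h, h.symm] <;> ring

theorem tr_tr (o : Fs m false p) (r : Rt m false) (x : Rt m false → ℂ) (hx : x r ≠ 0) :
    tr o r (tr o r x) = x := by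
  have h : r.1.2 ≠ r.1.1 := (r.2.resolve_right (by simp)).ne'
  rw [← en_val (-1) x r] at hx
  refine en_ext (δ := -1) fun e f => ?_
  rw [en_tr]
  simp only [t2, en_tr]
  by_cases i1 : e = r.1.1 <;> by_cases i2 : e = r.1.2 <;> by_cases i3 : f = r.1.1 <;>
    by_cases i4 : f = r.1.2 <;> simp [i1, i2, i3, i4, h, h.symm, dg, sk x r.1.1 r.1.2] <;>
    field_simp
  ring

theorem test {w : Fin m → ℂ} (e f : Fin m) :
    en (-1) (mk fun i j => w j - w i : Rt m false → ℂ) e f = w f - w e := by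
  simpa [dl] using en_mk (b := false) (M := fun i j => w j - w i) (fun a c => by simp [dl]) e f

theorem step (hc : Cell d wt nb ψ η) (ht : Trn2 ψ) {o : Fs m false p} {u : Rt m false → ℂ}
    (hu : ∀ r, u r ≠ 0) (hA : ∀ x, Pl x → NZ x → ∀ a c, a ≠ c → A2 ψ o a c (u * x))
    (r : Rt m false) : ∃ u' : Rt m false → ℂ, (∀ r, u' r ≠ 0) ∧
      ∀ x, x r ≠ 0 → ψ (nb o r) (u' * tr o r x) = ψ o (u * x) := by
  obtain ⟨⟨a, c⟩, hr⟩ := r
  have hlt : a < c := hr.resolve_right (by simp)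
  have hac : a ≠ c := hlt.ne
  obtain ⟨k, β, γ, hk, hT⟩ := ht o a c hac
  have u0 : ∀ e f, e ≠ f → en 1 u e f ≠ 0 := fun e f h => en_one_ne hu (Or.inr h)
  have u1 := u0 a c hac
  have key : ∀ e f, e ≠ f → e ≠ a → e ≠ c → f ≠ a → f ≠ c →
      k e f * en 1 u e f * en 1 u a c + β e f * (en 1 u a e * en 1 u c f) = 0 ∧
      γ e f * (en 1 u a f * en 1 u c e) - k e f * en 1 u e f * en 1 u a c = 0 := by
    intro e f h0 h1 h2 h3 h4
    have inj1 : ∀ i j : Fin m, i ≠ j → ((j : ℕ) : ℂ) - ((i : ℕ) : ℂ) ≠ 0 := fun i j h h' =>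
      h (Fin.ext (Nat.cast_injective (R := ℂ) (sub_eq_zero.1 h')).symm)
    have one : ∀ μ : ℕ, m ≤ μ → k e f * en 1 u e f * en 1 u a c * ((μ - (e : ℕ)) * ((c : ℕ) - (a : ℕ))) +
        β e f * (en 1 u a e * en 1 u c f) * (((e : ℕ) - (a : ℕ)) * (μ - (c : ℕ))) +
        γ e f * (en 1 u a f * en 1 u c e) * ((μ - (a : ℕ)) * ((e : ℕ) - (c : ℕ))) = 0 := by
      intro μ hμ
      set w : Fin m → ℂ := fun i => ((if i = f then μ else (i : ℕ) : ℕ) : ℂ) with hw
      have hz : NZ (mk fun i j => w j - w i) := fun i j hij h => by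
        rw [test, sub_eq_zero] at h
        have h' := Nat.cast_injective (R := ℂ) h
        have := i.2
        have := j.2
        have : (i : ℕ) ≠ j := fun h => hij (Fin.ext h)
        split_ifs at h' with j1 j2 j2
        · exact hij (j2.trans j1.symm)
        all_goals omega
      have h5 := nz_mul hu hz a c hac
      obtain ⟨y, e0, -, -, e1⟩ := hT _ h5
      have e2 := e1 e f h1 h2 h3 h4
      rw [rel hc (hA _ (fun a c e f => by simp only [test]; ring) hz a c hac) hac e0 h1 h2 h3 h4] at e2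
      simp only [en_mul, test, hw, if_true, if_neg h0, if_neg h3.symm, if_neg h4.symm] at e2
      have h6 := inj1 a c hac
      field_simp at e2
      linear_combination -e2
    have q1 := one m le_rfl
    have q2 := one (m + 1) (Nat.le_succ m)
    push_cast at q2
    have q3 : (k e f * en 1 u e f * en 1 u a c + β e f * (en 1 u a e * en 1 u c f)) *
        ((((e : ℕ) : ℂ) - (a : ℕ)) * ((c : ℕ) - (a : ℕ))) = 0 := by
      linear_combination (((m : ℂ) - (a : ℕ)) + 1) * -q1 + ((m : ℂ) - (a : ℕ)) * q2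
    have q4 := (mul_eq_zero.1 q3).resolve_right (mul_ne_zero (inj1 _ _ h1.symm) (inj1 _ _ hac))
    refine ⟨q4, (mul_eq_zero.1 (?_ : _ * (((e : ℕ) : ℂ) - (c : ℕ)) = 0)).resolve_right
      (inj1 _ _ h2.symm)⟩
    linear_combination q2 - q1 - (((e : ℕ) : ℂ) - (a : ℕ)) * q4
  refine ⟨mk fun e f =>
    if e = a then (if f = c then -k a c / en 1 u a c else -k a f * en 1 u c f / en 1 u a c)
    else if e = c then k c f * en 1 u a f / en 1 u a c
    else if f = a then -k a e * en 1 u c e / en 1 u a c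
    else if f = c then k c e * en 1 u a e / en 1 u a c else k e f * en 1 u e f, fun r => ?_,
    fun x hx => ?_⟩
  · have h0 : r.1.1 < r.1.2 := r.2.resolve_right (by simp)
    simp only [mk]
    split_ifs with i1 i2 i3 i4 i5
    · simp [hk, u1]
    · simp [hk, u1, u0 _ _ (Ne.symm i2)]
    · simp [hk, u1, u0 a r.1.2 (hlt.trans (i3 ▸ h0)).ne]
    · simp [hk, u1, u0 _ _ (Ne.symm i3)]
    · simp [hk, u1, u0 _ _ (Ne.symm i1)]
    · simp [hk, u0 _ _ h0.ne]
  · rw [← en_val (-1) x ⟨(a, c), hr⟩] at hx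
    change en (-1) x a c ≠ 0 at hx
    obtain ⟨y, e0, e1, e2, e3⟩ := hT (u * x) (by rw [en_mul]; exact mul_ne_zero u1 hx)
    rw [← e0]
    refine congrArg _ (funext fun r => ?_)
    have h0 : r.1.1 < r.1.2 := r.2.resolve_right (by simp)
    rw [← en_val (-1) y r, Pi.mul_apply, ← en_val (-1) (tr _ _ x) r, en_tr]
    simp only [mk, t2]
    by_cases i1 : r.1.1 = a
    · have j1 : r.1.2 ≠ a := (i1 ▸ h0).ne'
      by_cases i2 : r.1.2 = c
      · simp only [i1, i2, if_true, if_neg hac.symm, e1, en_mul]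
        field_simp
      · simp only [i1, i2, j1, if_true, if_false, (e2 _ j1 i2).1, en_mul]
        field_simp
    by_cases i2 : r.1.1 = c
    · have j1 : r.1.2 ≠ c := (i2 ▸ h0).ne'
      have j2 : r.1.2 ≠ a := (hlt.trans (i2 ▸ h0)).ne'
      simp only [i2, j1, j2, if_true, if_false, if_neg hac.symm, (e2 _ j2 j1).2, en_mul]
      field_simp
    by_cases i3 : r.1.2 = a
    · simp only [i1, i2, i3, if_true, if_false, sk _ a r.1.1, sk _ c r.1.1, (e2 _ i1 i2).1, en_mul]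
      field_simp
    by_cases i4 : r.1.2 = c
    · simp only [i1, i2, i4, if_true, if_false, if_neg hac.symm, sk _ a r.1.1, sk _ c r.1.1,
        (e2 _ i1 i2).2, en_mul]
      field_simp
    obtain ⟨q1, q2⟩ := key _ _ h0.ne i1 i2 i3 i4
    simp only [i1, i2, i3, i4, if_false, sk _ a r.1.1, sk _ c r.1.1, e3 _ _ i1 i2 i3 i4, en_mul]
    field_simp
    linear_combination -(en (-1) x a r.1.1 * en (-1) x c r.1.2) * q1 -
      (en (-1) x a r.1.2 * en (-1) x c r.1.1) * q2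

theorem start (hc : Cell d wt nb ψ η) (ht : Trn2 ψ) (o : Fs m false p) {a c : Fin m}
    (hac : a ≠ c) : ∃ u : Rt m false → ℂ, (∀ r, u r ≠ 0) ∧
      ∀ x, Pl x → NZ x → A2 ψ o a c (u * x) := by
  obtain ⟨k, β, γ, hk, hT⟩ := ht o a c hac
  have base : ∀ P Q : Fin m → ℂ, ∃ x, A2 ψ o a c x ∧ en (-1) x a c = 1 ∧
      (∀ i, i ≠ a → i ≠ c → en (-1) x a i = P i ∧ en (-1) x c i = Q i) ∧
      ∀ e f, e ≠ a → e ≠ c → f ≠ a → f ≠ c →
        k e f * en (-1) x e f + (β e f * (P e * Q f) + γ e f * (P f * Q e)) = 0 := by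
    intro P Q
    set x : Rt m false → ℂ := mk fun i j =>
      if i = a then (if j = c then 1 else P j) else if i = c then (if j = a then -1 else Q j)
      else if j = a then -P i else if j = c then -Q i
      else -(β i j * (P i * Q j) + γ i j * (P j * Q i)) / k i j with hx
    have h1 : en (-1) x a c = 1 := by
      rw [hx, en_row hac] <;> simp [hac.symm]
    have h2 : ∀ i, i ≠ a → i ≠ c → en (-1) x a i = P i ∧ en (-1) x c i = Q i := fun i i1 i2 => by
      constructor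
      · rw [hx, en_row i1.symm] <;> simp [i1, i2]
      · rw [hx, en_row i2.symm] <;> simp [i1, i2, hac.symm]
    obtain ⟨y, e0, -, -, e1⟩ := hT x (by simp [h1])
    have h3 : A2 ψ o a c x := ⟨hac, by simp [h1], y, e0, fun r j1 j2 => by
      rw [fl_eq] at j1 j2
      have := hk r.1.1 r.1.2
      rw [← en_val (-1) y r, e1 _ _ j1.1 j1.2 j2.1 j2.2, en_val, h1, (h2 _ j1.1 j1.2).1,
        (h2 _ j1.1 j1.2).2, (h2 _ j2.1 j2.2).1, (h2 _ j2.1 j2.2).2]
      simp only [hx, mk, j1.1, j1.2, j2.1, j2.2, if_false]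
      field_simp
      ring⟩
    refine ⟨x, h3, h1, h2, fun e f j1 j2 j3 j4 => ?_⟩
    have e2 := e1 e f j1 j2 j3 j4
    rw [rel hc h3 hac e0 j1 j2 j3 j4, h1, (h2 _ j1 j2).1, (h2 _ j1 j2).2, (h2 _ j3 j4).1,
      (h2 _ j3 j4).2, div_one] at e2
    exact e2.symm
  have nz : ∀ e f, e ≠ f → e ≠ a → e ≠ c → f ≠ a → f ≠ c → β e f ≠ 0 ∧ γ f e ≠ 0 := by
    intro e f h0 j1 j2 j3 j4
    obtain ⟨x, h1, h2, h3, h4⟩ := base (fun i => if i = e then 1 else 0) fun i => if i = f then 1 else 0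
    have h5 : en (-1) x a e = 1 := by simp [(h3 e j1 j2).1]
    have h6 := k2 hc ht h1 j1 (by simp [h5])
    obtain ⟨k', β', γ', hk', hT'⟩ := ht o a e j1.symm
    obtain ⟨y, e0, -, -, e1⟩ := hT' x (by simp [h5])
    have e2 := e1 c f hac.symm j2.symm j3 h0.symm
    rw [rel hc h6 j1.symm e0 hac.symm j2.symm j3 h0.symm, (h3 f j3 j4).1, (h3 f j3 j4).2] at e2
    have h7 : en (-1) x e f ≠ 0 := fun h => hk' c f (by simpa [h, h0.symm] using e2.symm)
    have h8 := h4 e f j1 j2 j3 j4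
    have h9 := h4 f e j3 j4 j1 j2
    rw [sk] at h9
    constructor
    · intro h
      simp [h, h0, hk, h7] at h8
    · intro h
      simp [h, h0, hk, h7] at h9
  obtain ⟨Q, q0, hQ⟩ : ∃ Q : Fin m → ℂ, (∀ i, i ≠ a → i ≠ c → Q i ≠ 0) ∧
      ∀ i j, i ≠ a → i ≠ c → j ≠ a → j ≠ c → β i j * Q j + γ i j * Q i = 0 := by
    by_cases h : ∃ e, e ≠ a ∧ e ≠ c
    swap
    · exact ⟨1, fun _ _ _ => one_ne_zero, fun i j j1 j2 _ _ => (h ⟨i, j1, j2⟩).elim⟩
    obtain ⟨e, j1, j2⟩ := h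
    set Q : Fin m → ℂ := fun i => if i = e then 1 else -γ e i / β e i with hQ
    obtain ⟨x, h1, h2, h3, h4⟩ := base 1 Q
    have h5 : en (-1) x a e = 1 := (h3 e j1 j2).1
    have h6 := k2 hc ht h1 j1 (by simp [h5])
    obtain ⟨k', β', γ', hk', hT'⟩ := ht o a e j1.symm
    obtain ⟨y, e0, -, -, e1⟩ := hT' x (by simp [h5])
    have h7 : ∀ i, i ≠ a → i ≠ c → en (-1) x e i = 0 := fun i i1 i2 => by
      rcases eq_or_ne i e with rfl | i3
      · exact dg x i
      have h8 := h4 e i j1 j2 i1 i2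
      have h9 := (nz e i i3.symm j1 j2 i1 i2).1
      simp only [hQ, i3, if_true, if_false, Pi.one_apply, one_mul, mul_div_cancel₀ _ h9] at h8
      simpa [hk] using h8
    refine ⟨Q, fun i i1 i2 => ?_, fun i j i1 i2 i3 i4 => ?_⟩
    · simp only [hQ]
      split_ifs with i3
      · exact one_ne_zero
      · exact div_ne_zero (neg_ne_zero.2 (nz i e i3 i1 i2 j1 j2).2) (nz e i (Ne.symm i3) j1 j2 i1 i2).1
    · have h8 : en (-1) x i j = 0 := by
        rcases eq_or_ne i e with rfl | i5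
        · exact h7 j i3 i4
        rcases eq_or_ne j e with rfl | i6
        · rw [sk, h7 i i1 i2, neg_zero]
        have e2 := e1 i j i1 i5 i3 i6
        rw [rel hc h6 j1.symm e0 i1 i5 i3 i6, h7 i i1 i2, h7 j i3 i4] at e2
        simpa [hk'] using e2
      simpa [h8] using h4 i j i1 i2 i3 i4
  set u : Rt m false → ℂ := mk fun i j => if i = a ∨ j = a then 1 else if i = c then Q j
    else if j = c then Q i else -β i j * Q j / k i j with hu
  have h1 : ∀ i, i ≠ a → en 1 u a i = 1 := fun i i1 => by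
    rw [hu, en_row i1.symm] <;> simp
  have h2 : ∀ i, i ≠ a → i ≠ c → en 1 u c i = Q i := fun i i1 i2 => by
    rw [hu, en_row i2.symm] <;> simp [i1, i2, hac.symm]
  have h3 : ∀ r, u r ≠ 0 := fun r => by
    have h0 : r.1.1 ≠ r.1.2 := (r.2.resolve_right (by simp)).ne
    simp only [hu, mk]
    split_ifs with i1 i2 i3
    · exact one_ne_zero
    · exact q0 _ (not_or.1 i1).2 (i2 ▸ h0).symm
    · exact q0 _ (not_or.1 i1).1 i2
    · exact div_ne_zero (mul_ne_zero (neg_ne_zero.2 (nz _ _ h0 (not_or.1 i1).1 i2 (not_or.1 i1).2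
        i3).1) (q0 _ (not_or.1 i1).2 i3)) (hk _ _)
  refine ⟨u, h3, fun x hp hx => ?_⟩
  have h4 := nz_mul h3 hx a c hac
  obtain ⟨y, e0, -, -, e1⟩ := hT _ h4
  refine ⟨hac, h4, y, e0, fun r j1 j2 => ?_⟩
  rw [fl_eq] at j1 j2
  have := hk r.1.1 r.1.2
  have := hx a c hac
  rw [← en_val (-1) y r, e1 _ _ j1.1 j1.2 j2.1 j2.2]
  simp only [en_mul, h1 _ j1.1, h1 _ j2.1, h1 _ hac.symm, h2 _ j1.1 j1.2, h2 _ j2.1 j2.2, en_val 1]
  simp only [hu, mk, j1.1, j1.2, j2.1, j2.2, or_self, if_false]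
  field_simp
  linear_combination -(β r.1.1 r.1.2 * Q r.1.2) * hp a c r.1.1 r.1.2 +
    (en (-1) x a r.1.2 * en (-1) x c r.1.1) * hQ _ _ j1.1 j1.2 j2.1 j2.2

end NR2B

open NR2B NRK CMBB in
theorem st_NR2 : St_NR2 := by
  intro m d p Y _ _ _ ψ η ⟨o⟩ hc ht
  refine ⟨fun o u => (∀ r, u r ≠ 0) ∧ ∀ x, Pl x → NZ x → ∀ a c, a ≠ c → A2 ψ o a c (u * x), ?_,
    fun o u h => h.1, ?_⟩
  · by_cases h : ∃ a c : Fin m, a ≠ c
    · obtain ⟨a, c, hac⟩ := h
      obtain ⟨u, h1, h2⟩ := start hc ht o hac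
      exact ⟨o, u, h1, fun x hp hx e f hef => all hc ht (h2 x hp hx) (nz_mul h1 hx) hef⟩
    · exact ⟨o, 1, fun _ => one_ne_zero, fun x _ _ a c hac => (h ⟨a, c, hac⟩).elim⟩
  · rintro o u r - ⟨hu, hA⟩
    obtain ⟨u', h1, h2⟩ := step hc ht hu hA r
    have hac : r.1.1 ≠ r.1.2 := (r.2.resolve_right (by simp)).ne
    refine ⟨u', ⟨h1, fun y hp hy e f hef => all hc ht (a := r.1.1) (c := r.1.2)
      ⟨hac, nz_mul h1 hy _ _ hac, u * tr o r y, ?_, fun r' j1 j2 => ?_⟩ (nz_mul h1 hy) hef⟩, h2⟩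
    · have h3 := hy _ _ hac
      have h4 : tr o r y r ≠ 0 := by
        rw [← en_val (-1) (tr o r y) r, en_tr]
        simpa [t2, hac.symm] using h3
      rw [en_val] at h3
      change ψ (fl (fl o _ _ _) _ _ _) _ = _
      rw [fl_fl, ← h2 _ h4, tr_tr o r y h3]
    · rw [fl_eq] at j1 j2
      have h3 := hy _ _ hac
      rw [Pi.mul_apply, ← en_val (-1) (tr o r y) r', en_tr]
      simp only [t2, j1.1, j1.2, j2.1, j2.2, if_false, sk y r.1.1 r'.1.1, sk y r.1.2 r'.1.1]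
      refine mul_eq_zero_of_right _ ?_
      field_simp
      linear_combination hp r.1.1 r.1.2 r'.1.1 r'.1.2

end Pool.Agent.Lib.GU40
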