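import Pool.Agent.Lib.GU40.NRK

/-! Project gu40: normalisation in the symmetric case. -/

open scoped Manifold ContDiff Topology Matrix
open Set Filter Metric Complex Sum

set_option linter.unusedVariables false
set_option linter.unusedSectionVars false

noncomputable section

namespace Pool.Agent.Lib.GU40

open Pool.Agent.Lib.GT40 (E V Gr Full Spans cx RAct Act Gm kp Mt)

namespace NR3B

open NRK CMBB

variable {m d : ℕ} {p : ℤˣ} {Y : Type} [TopologicalSpace Y] [ChartedSpace (E d) Y]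
  {ψ : Fs m true p → (Rt m true → ℂ) → Y} {η : Fs m true p → Y → Rt m true → ℂ}

/-- The frame with one sign changed. -/
abbrev F1 (o : Fs m true p) (a : Fin m) : Fs m true p := fl o a a (Or.inl rfl)

/-- The diagonal index. -/
abbrev dg (a : Fin m) : Rt m true := ⟨(a, a), Or.inr ⟨rfl, rfl⟩⟩

/-- The point has rank one, seen from `a`. -/
def A3 (ψ : Fs m true p → (Rt m true → ℂ) → Y) (o : Fs m true p) (a : Fin m)
    (z : Rt m true → ℂ) : Prop := en 1 z a a ≠ 0 ∧ As ψ o (F1 o a) z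

theorem f1_eq (o : Fs m true p) (a e : Fin m) : (F1 o a).1 e = o.1 e ↔ e ≠ a := by
  rw [fl_eq, and_self]

theorem mem3 (hc : Cell d wt nb ψ η) (ht : Trn3 ψ) {o : Fs m true p} {c : Fin m}
    {z : Rt m true → ℂ} (h : ψ o z ∈ range (ψ (F1 o c))) : en 1 z c c ≠ 0 := by
  obtain ⟨k, β, hk, hT⟩ := ht (F1 o c) c
  rw [en_val 1 z (dg c)]
  refine mem hc (hk c c) (fun w hw => ?_) h
  obtain ⟨y, h1, h2, -⟩ := hT w (by rwa [en_val 1 w (dg c)])
  rw [fl_fl] at h1
  rw [en_val 1 y (dg c), en_val 1 w (dg c)] at h2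
  exact ⟨y, h1, h2⟩

theorem sh (hc : Cell d wt nb ψ η) {o : Fs m true p} {a c : Fin m} (hac : a ≠ c)
    {y : Rt m true → ℂ} (ha : en 1 y a a = 0) (hcc : en 1 y c c = 0) (h : en 1 y a c ≠ 0) :
    ψ o y ∈ range (ψ (fl o a c (Or.inl rfl))) := by
  obtain ⟨r, hr⟩ := ex_is (b := true) (Or.inr hac)
  set t : ℂ → Fin m → ℂ := fun s e => if e = a then (en 1 y a c)⁻¹ else if e = c then 1 else s
    with ht
  have z1 : Continuous fun s => st (t s) y := continuous_pi fun r => by
    simp only [st, ht]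
    split_ifs <;> fun_prop
  have z2 : st (t 0) y = ax r 1 := funext fun r' => by
    have e0 := en_val 1 y r'
    have e1 := en_one_symm y a c
    have e2 : r' = r ↔ Is r' a c := ⟨fun h => h ▸ hr, fun h => Is.uniq (by
      rcases hr with hr | hr <;> rw [hr]
      exacts [h, h.symm])⟩
    simp only [st, ax, ht, e2, Is, Prod.ext_iff, ← e0]
    by_cases h1 : r'.1.1 = a <;> by_cases h2 : r'.1.2 = a <;> by_cases h3 : r'.1.1 = c <;>
      by_cases h4 : r'.1.2 = c <;> simp [h1, h2, h3, h4, hac, hac.symm, ha, hcc, h, e1]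
  obtain ⟨⟨s, hs, h1⟩, -⟩ := near hc (o := o) (o' := fl o a c (Or.inl rfl)) z1 (by
    rw [z2, ← hr.nb_eq]
    exact hc.edge o r)
  refine back hc (fun e => ?_) h1
  simp only [ht]
  split_ifs
  exacts [inv_ne_zero h, one_ne_zero, hs]

theorem k3 (hc : Cell d wt nb ψ η) (ht : Trn3 ψ) {o : Fs m true p} {a c : Fin m}
    {z : Rt m true → ℂ} (h : A3 ψ o a z) (hz : en 1 z a c ≠ 0) : A3 ψ o c z := by
  rcases eq_or_ne a c with rfl | hac
  · exact h
  obtain ⟨h1, y, h2, h3⟩ := h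
  obtain ⟨k, β, hk, hT⟩ := ht o a
  obtain ⟨y', h4, -, h5, -⟩ := hT z h1
  obtain rfl : y = y' := inj hc _ (h2.trans h4.symm)
  have e : fl (F1 o a) a c (Or.inl rfl) = F1 o c := Subtype.ext (funext fun i => by
    by_cases i1 : i = a <;> by_cases i2 : i = c <;> simp_all [fl, fv])
  have h6 : As ψ o (F1 o c) z := by
    refine key hc h2 h3 ?_
    rw [← e]
    have e2 := en_ite 1 y fun i => (F1 o a).1 i ≠ o.1 i
    refine sh hc hac ?_ ?_ ?_
    · rw [e2]
      simp [f1_eq]
    · rw [e2, en_zero (q := fun i => (F1 o a).1 i = o.1 i) h3 ((f1_eq o a c).2 hac.symm)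
        ((f1_eq o a c).2 hac.symm), ite_self]
    · rw [e2, if_neg (by simp [f1_eq, hac.symm]), h5 c hac.symm]
      exact div_ne_zero (mul_ne_zero (hk _ _) hz) h1
  obtain ⟨y₂, h7, h8⟩ := h6
  exact ⟨mem3 hc ht ⟨y₂, h7⟩, y₂, h7, h8⟩

theorem rel (hc : Cell d wt nb ψ η) {o : Fs m true p} {a : Fin m} {z y : Rt m true → ℂ}
    (h : A3 ψ o a z) (hy : ψ (F1 o a) y = ψ o z) {e f : Fin m} (he : e ≠ a) (hf : f ≠ a) :
    en 1 y e f = 0 := by
  obtain ⟨-, y', h2, h3⟩ := h
  obtain rfl : y = y' := inj hc _ (hy.trans h2.symm)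
  exact en_zero (q := fun i => (F1 o a).1 i = o.1 i) h3 ((f1_eq o a e).2 he) ((f1_eq o a f).2 hf)

theorem all (hc : Cell d wt nb ψ η) (ht : Trn3 ψ) {o : Fs m true p} {a : Fin m}
    {u : Rt m true → ℂ} (h : A3 ψ o a u) (hu : ∀ e, en 1 u a e ≠ 0) :
    (∀ r, u r ≠ 0) ∧ ∀ c, A3 ψ o c u := by
  have h1 : ∀ c, A3 ψ o c u := fun c => k3 hc ht h (hu c)
  refine ⟨fun r h0 => ?_, h1⟩
  rw [← en_val 1 u r] at h0
  rcases eq_or_ne r.1.2 r.1.1 with e | e
  · exact (h1 r.1.1).1 (e ▸ h0)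
  obtain ⟨k, β, hk, hT⟩ := ht o r.1.1
  obtain ⟨y, h2, -, -, h3⟩ := hT u (h1 _).1
  have h4 := h3 _ _ e e
  rw [rel hc (h1 _) h2 e e, h0] at h4
  exact mul_ne_zero (hk _ _) (h1 r.1.2).1 (by simpa using h4.symm)

theorem en_row {M : Fin m → Fin m → ℂ} {a e : Fin m} (h : M e a = M a e) :
    en 1 (mk M : Rt m true → ℂ) a e = M a e := by
  rcases lt_trichotomy a e with h1 | rfl | h1
  · simp [en, mk, h1]
  · simp [en, mk]
  · simp [en, mk, h1, h1.not_gt, h1.ne', h]

end NR3B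

open NR3B NRK CMBB in
theorem st_NR3 : St_NR3 := by
  intro m d p Y _ _ _ ψ η hm hc ht
  refine ⟨fun o u => (∀ r, u r ≠ 0) ∧ ∀ c, A3 ψ o c u, ?_, fun o u h => h.1, ?_⟩
  · let o : Fs m true p := ⟨1, Or.inl rfl⟩
    let a : Fin m := ⟨0, hm⟩
    obtain ⟨k, β, hk, hT⟩ := ht o a
    set u : Rt m true → ℂ := mk fun e f => if e = a ∨ f = a then 1 else -β e f / k e f with hu
    have h1 : ∀ e, en 1 u a e = 1 := fun e => by
      rw [hu, en_row] <;> simp
    obtain ⟨y, h2, -, -, h3⟩ := hT u (by simp [h1])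
    refine ⟨o, u, all hc ht (a := a) ⟨by simp [h1], y, h2, fun r e1 e2 => ?_⟩ (by simp [h1])⟩
    rw [f1_eq] at e1 e2
    have := hk r.1.1 r.1.2
    rw [← en_val 1 y r, h3 _ _ e1 e2, en_val, h1, h1, h1]
    simp only [hu, mk, e1, e2, or_self, if_false]
    field_simp
    ring
  · rintro o u ⟨⟨a, a'⟩, hr⟩ hp ⟨hu, hA⟩
    obtain rfl : a = a' := hp.resolve_left (by simp)
    obtain ⟨k, β, hk, hT⟩ := ht o a
    have hs := usq (o.1 a)
    set s : ℂ := ((o.1 a : ℤ) : ℂ) with hs'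
    have s0 : s ≠ 0 := left_ne_zero_of_mul_eq_one hs
    have u0 : ∀ e f, en 1 u e f ≠ 0 := fun e f => en_one_ne hu (Or.inl rfl)
    set u' : Rt m true → ℂ := mk fun e f =>
      if e = a then (if f = a then -k a a / en 1 u a a else s * k a f * en 1 u a f / en 1 u a a)
      else if f = a then s * k a e * en 1 u a e / en 1 u a a else k e f * en 1 u e f with hu'
    have h1 : ∀ r, u' r ≠ 0 := fun r => by
      simp only [hu', mk]
      split_ifs <;> simp [hk, u0, s0]
    have h2 : ∀ x : Rt m true → ℂ, x (dg a) ≠ 0 →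
        ψ (F1 o a) (u' * tr o (dg a) x) = ψ o (u * x) := by
      intro x hx
      rw [← en_val 1 x (dg a)] at hx
      change en 1 x a a ≠ 0 at hx
      have u1 := u0 a a
      obtain ⟨y, e0, e1, e2, e3⟩ := hT (u * x) (by rw [en_mul]; exact mul_ne_zero u1 hx)
      obtain ⟨y', e4, -, -, e5⟩ := hT u u1
      rw [← e0]
      refine congrArg _ (funext fun r => ?_)
      rw [← en_val 1 y r]
      simp only [Pi.mul_apply, hu', tr, mk, t3, dl, if_true, ← hs']
      by_cases i1 : r.1.1 = a <;> by_cases i2 : r.1.2 = a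
      · simp only [i1, i2, if_true, e1, en_mul]
        field_simp
      · simp only [i1, i2, if_true, if_false, e2 _ i2, en_mul]
        field_simp
        linear_combination (k a r.1.2 * en 1 u a r.1.2 * en 1 x a r.1.2) * hs
      · simp only [i1, i2, if_true, if_false, en_one_symm _ a r.1.1, e2 _ i1, en_mul]
        field_simp
        linear_combination (k a r.1.1 * en 1 u a r.1.1 * en 1 x a r.1.1) * hs
      · have e6 := e5 _ _ i1 i2
        rw [rel hc (hA a) e4 i1 i2] at e6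
        simp only [i1, i2, if_false, en_one_symm _ a r.1.1, e3 _ _ i1 i2, en_mul]
        field_simp at e6 ⊢
        linear_combination (en 1 x a r.1.1 * en 1 x a r.1.2) * e6
    refine ⟨u', all hc ht (a := a) ⟨en_one_ne h1 (Or.inl rfl), ?_⟩
      (fun e => en_one_ne h1 (Or.inl rfl)), h2⟩
    set x : Rt m true → ℂ := mk fun e f =>
      if e = a then (if f = a then -1 else -s) else if f = a then -s else 0 with hx
    have x1 : ∀ e f, en 1 x e f =
        if e = a then (if f = a then -1 else -s) else if f = a then -s else 0 := fun e f => by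
      rw [hx, en_row]
      by_cases i1 : e = a <;> by_cases i2 : f = a <;> simp [i1, i2]
    have x2 : tr o (dg a) x = 1 := funext fun r => by
      simp only [tr, mk, t3, dl, if_true, ← hs', x1]
      by_cases i1 : r.1.1 = a <;> by_cases i2 : r.1.2 = a <;> simp [i1, i2, hs, neg_div]
    have x3 := h2 x (by simp [hx, mk])
    rw [x2, mul_one] at x3
    refine ⟨u * x, ?_, fun r e1 e2 => ?_⟩
    · change ψ (fl (fl o a a _) a a _) _ = ψ (F1 o a) u'
      rw [fl_fl, x3]
    · rw [f1_eq] at e1 e2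
      simp [hx, mk, e1, e2]

end Pool.Agent.Lib.GU40
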