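import Pool.Agent.Lib.GU40.Blue

/-! Project gu40: the orientation of a complex line. -/

open scoped Manifold ContDiff Topology Matrix
open Set Filter Metric Complex Sum

set_option linter.unusedVariables false
set_option linter.unusedSectionVars false

noncomputable section

namespace Pool.Agent.Lib.GU40

open Pool.Agent.Lib.GT40 (E V Gr Full Spans cx RAct Act Gm kp Mt)

theorem st_ORI : St_ORI := by
  intro R _ _ d Y _ _ s x v ε μ hμ ⟨a, b, hb, e⟩
  set D := Dv d s x
  have b0 : b ≠ 0 := fun h => by simp [h] at hb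
  have n0 : 0 < μ.re ^ 2 + μ.im ^ 2 := by
    have := normSq_pos.2 hμ
    rw [normSq_apply] at this
    nlinarith
  have e1 : μ • v = μ.re • v + μ.im • (I • v) := by
    funext r
    simp only [Pi.add_apply, Pi.smul_apply, smul_eq_mul, real_smul]
    conv_lhs => rw [← re_add_im μ]
    ring
  have e2 : I • μ • v = (-μ.im) • v + μ.re • (I • v) := by
    funext r
    simp only [Pi.add_apply, Pi.smul_apply, smul_eq_mul, real_smul, ofReal_neg]
    conv_lhs => rw [← re_add_im μ]
    linear_combination (μ.im * v r) * I_mul_I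
  set X := μ.re
  set Z := μ.im
  refine ⟨(X * (a * X - Z * (1 + a ^ 2) / b) + Z * (b * X - a * Z)) / (X ^ 2 + Z ^ 2),
    ((b * X - a * Z) ^ 2 + Z ^ 2) / (b * (X ^ 2 + Z ^ 2)), ?_, ?_⟩
  · have h1 : 0 < (b * X - a * Z) ^ 2 + Z ^ 2 := by
      rcases eq_or_ne Z 0 with h | h
      · have : X ≠ 0 := fun h' => by simp [h, h'] at n0
        rw [h]
        have := mul_ne_zero b0 this
        simp only [mul_zero, sub_zero]
        positivity
      · positivity
    have h2 : ε * (((b * X - a * Z) ^ 2 + Z ^ 2) / (b * (X ^ 2 + Z ^ 2))) =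
        ε * b * (((b * X - a * Z) ^ 2 + Z ^ 2) / (b ^ 2 * (X ^ 2 + Z ^ 2))) := by
      field_simp
    rw [h2]
    positivity
  · change I • D (μ • v) = _ • D (μ • v) + _ • D (I • μ • v)
    rw [e2, e1, map_add, map_add, D.map_smul X v, D.map_smul Z, D.map_smul (-Z), D.map_smul X]
    funext i
    have e3 := congrFun e i
    simp only [Pi.add_apply, Pi.smul_apply, smul_eq_mul, real_smul] at e3 ⊢
    have b1 : (b : ℂ) ≠ 0 := ofReal_ne_zero.2 b0
    have n1 : (X : ℂ) ^ 2 + (Z : ℂ) ^ 2 ≠ 0 := by exact_mod_cast n0.ne'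
    have e4 : D (I • v) i = (I - a) * D v i / b := by
      field_simp
      linear_combination -e3
    rw [e4]
    push_cast
    field_simp
    linear_combination (D v i * ((Z : ℂ) * b * X ^ 2 + Z ^ 3 * b)) * I_mul_I

end Pool.Agent.Lib.GU40
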