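import Pool.Agent.Lib.GU40.Blue

/-! Project gu40, block POT: the potential of the averaged contraction of a closed form. -/

open scoped Topology
open Set Filter Metric Complex MeasureTheory

set_option linter.unusedSectionVars false

noncomputable section

namespace Pool.Agent.Lib.GU40

namespace POTB

variable {E G : Type} [NormedAddCommGroup E] [NormedSpace ℝ E] [FiniteDimensional ℝ E]
  [NormedAddCommGroup G] [NormedSpace ℝ G]

theorem par {F : E × ℝ → G} {D : E × ℝ → E →L[ℝ] G} (hF : Continuous F) (hD : Continuous D)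
    (h : ∀ x t, HasFDerivAt (fun x => F (x, t)) (D (x, t)) x) (a b : ℝ) (x : E) :
    HasFDerivAt (fun x => ∫ t in a..b, F (x, t)) (∫ t in a..b, D (x, t)) x := by
  have := FiniteDimensional.proper_real E
  obtain ⟨C, hC⟩ := ((isCompact_closedBall x 1).prod (isCompact_uIcc (a := a) (b := b))
    ).exists_bound_of_continuousOn hD.continuousOn
  refine intervalIntegral.hasFDerivAt_integral_of_dominated_of_fderiv_le
    (F := fun x t => F (x, t)) (F' := fun x t => D (x, t)) (bound := fun _ => C)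
    (closedBall_mem_nhds x one_pos)
    (Eventually.of_forall fun y => (hF.comp (Continuous.prodMk_right y)).aestronglyMeasurable)
    ((hF.comp (Continuous.prodMk_right x)).intervalIntegrable a b)
    (hD.comp (Continuous.prodMk_right x)).aestronglyMeasurable
    (Eventually.of_forall fun t ht y hy => hC (y, t) ⟨hy, uIoc_subset_uIcc ht⟩)
    intervalIntegrable_const (Eventually.of_forall fun t _ y _ => h y t)

theorem anti {Ω : E → E →L[ℝ] E →L[ℝ] ℝ} {x : E} {Ω' : E →L[ℝ] E →L[ℝ] E →L[ℝ] ℝ}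
    (hO : HasFDerivAt Ω Ω' x) (ha : ∀ x v v', Ω x v v' = -Ω x v' v) (u v w : E) :
    Ω' u v w = -Ω' u w v := by
  have h1 := (hO.clm_apply (hasFDerivAt_const v x)).clm_apply (hasFDerivAt_const w x)
  have h2 := ((hO.clm_apply (hasFDerivAt_const w x)).clm_apply (hasFDerivAt_const v x)).neg
  have h3 : (fun y => Ω y v w) = -fun y => Ω y w v := funext fun y => ha y v w
  rw [h3] at h1
  simpa using DFunLike.congr_fun (h1.unique h2) u

theorem val {Ω : E → E →L[ℝ] E →L[ℝ] ℝ} {x : E} {Ω' : E →L[ℝ] E →L[ℝ] E →L[ℝ] ℝ}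
    (A S : E →L[ℝ] E) (hO : HasFDerivAt Ω Ω' (S x)) {D : E →L[ℝ] E →L[ℝ] ℝ}
    (hD : HasFDerivAt (fun y => ((Ω (S y)).flip (A (S y))).comp S) D x) (u v : E) :
    D u v = Ω' (S u) (S v) (A (S x)) + Ω (S x) (S v) (A (S u)) := by
  have h1 := hD.clm_apply (hasFDerivAt_const v x)
  have h0 : HasFDerivAt (fun y => Ω (S y)) (Ω'.comp S) x :=
    HasFDerivAt.comp (g := Ω) (f := S) x hO S.hasFDerivAt
  have h4 : HasFDerivAt (fun y => A (S y)) (A.comp S) x := (A.comp S).hasFDerivAt
  have h2 := (h0.clm_apply (hasFDerivAt_const (S v) x)).clm_apply h4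
  have h3 := DFunLike.congr_fun (h1.unique h2) u
  simpa [add_comm] using h3

theorem flow {Ω : E → E →L[ℝ] E →L[ℝ] ℝ} {Ω' : E →L[ℝ] E →L[ℝ] E →L[ℝ] ℝ} {x u v : ℝ → E}
    {x' u' v' : E} {t : ℝ} (hO : HasFDerivAt Ω Ω' (x t)) (hx : HasDerivAt x x' t)
    (hu : HasDerivAt u u' t) (hv : HasDerivAt v v' t) :
    HasDerivAt (fun t => Ω (x t) (u t) (v t))
      (Ω' x' (u t) (v t) + Ω (x t) u' (v t) + Ω (x t) (u t) v') t := by
  have h0 : HasDerivAt (fun s => Ω (x s)) (Ω' x') t :=
    HasFDerivAt.comp_hasDerivAt (l := Ω) (f := x) t hO hx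
  exact (h0.clm_apply hu).clm_apply hv

theorem ev {D : ℝ → E →L[ℝ] E →L[ℝ] ℝ} (hD : Continuous D) (a b : ℝ) (u v : E) :
    (∫ t in a..b, D t) u v - (∫ t in a..b, D t) v u = ∫ t in a..b, (D t u v - D t v u) := by
  have h1 : ∀ u, Continuous fun t => D t u := fun u => hD.clm_apply continuous_const
  have h2 : ∀ u v, (∫ t in a..b, D t) u v = ∫ t in a..b, D t u v := fun u v => by
    rw [ContinuousLinearMap.intervalIntegral_apply (hD.intervalIntegrable _ _),
      ContinuousLinearMap.intervalIntegral_apply ((h1 u).intervalIntegrable _ _)]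
  rw [h2, h2, intervalIntegral.integral_sub
    (((h1 u).clm_apply continuous_const).intervalIntegrable _ _)
    (((h1 v).clm_apply continuous_const).intervalIntegrable _ _)]

theorem core {Ω : E → E →L[ℝ] E →L[ℝ] ℝ} (hΩ : ContDiff ℝ 1 Ω)
    (ha : ∀ x v v', Ω x v v' = -Ω x v' v)
    (hc : ∀ x u v v', fderiv ℝ Ω x u v v' + fderiv ℝ Ω x v v' u + fderiv ℝ Ω x v' u v = 0)
    (A : E →L[ℝ] E) {R : ℝ → E →L[ℝ] E} (hR : ContDiff ℝ 1 R)
    (hd : ∀ v t, HasDerivAt (fun t => R t v) (A (R t v)) t) {T : ℝ} (hT : R T = R 0) :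
    ∃ (H : E → ℝ) (L : E → E →L[ℝ] ℝ), ∀ x, HasFDerivAt H (L x) x ∧ ∀ v,
      L x v = ∫ θ in (0 : ℝ)..T, Ω (R θ x) (R θ v) (A (R θ x)) := by
  have hO : ∀ x, HasFDerivAt Ω (fderiv ℝ Ω x) x := fun x =>
    (hΩ.differentiable one_ne_zero x).hasFDerivAt
  obtain ⟨Φ, hp⟩ : ∃ Φ : E × ℝ → E →L[ℝ] ℝ,
    Φ = fun p => ((Ω (R p.2 p.1)).flip (A (R p.2 p.1))).comp (R p.2) := ⟨_, rfl⟩
  have hx : ContDiff ℝ 1 fun p : E × ℝ => R p.2 p.1 := (hR.comp contDiff_snd).clm_apply contDiff_fst
  have hΦ : ContDiff ℝ 1 Φ := hp ▸ contDiff_clm_apply_iff.2 fun v =>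
    ((hΩ.comp hx).clm_apply ((hR.comp contDiff_snd).clm_apply contDiff_const)).clm_apply
      (A.contDiff.comp hx)
  obtain ⟨D, hDc, hD⟩ : ∃ D : E × ℝ → E →L[ℝ] E →L[ℝ] ℝ, Continuous D ∧
      ∀ x t, HasFDerivAt (fun x => Φ (x, t)) (D (x, t)) x :=
    ⟨fun p => (fderiv ℝ Φ p).comp (ContinuousLinearMap.inl ℝ E ℝ),
      (hΦ.continuous_fderiv one_ne_zero).clm_comp continuous_const, fun x t =>
      HasFDerivAt.comp (g := Φ) (f := fun e => (e, t)) x
        (hΦ.differentiable one_ne_zero (x, t)).hasFDerivAt (hasFDerivAt_prodMk_left (𝕜 := ℝ) x t)⟩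
  have hv : ∀ x t u v, D (x, t) u v = fderiv ℝ Ω (R t x) (R t u) (R t v) (A (R t x)) +
      Ω (R t x) (R t v) (A (R t u)) := fun x t =>
    val A (R t) (hO (R t x)) (by simpa only [hp] using hD x t)
  have hL := par hΦ.continuous hDc hD 0 T
  have hs : ∀ x u v, (∫ t in (0 : ℝ)..T, D (x, t)) u v = (∫ t in (0 : ℝ)..T, D (x, t)) v u := by
    intro x u v
    have hi : Continuous fun t => D (x, t) := hDc.comp (Continuous.prodMk_right x)
    have h0 : ∀ t, HasDerivAt (fun t => Ω (R t x) (R t u) (R t v))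
        (D (x, t) v u - D (x, t) u v) t := fun t => by
      refine (flow (hO (R t x)) (hd x t) (hd u t) (hd v t)).congr_deriv ?_
      have h2 := hc (R t x) (R t u) (R t v) (A (R t x))
      have h3 := anti (hO (R t x)) ha (R t v) (A (R t x)) (R t u)
      have h4 := ha (R t x) (R t v) (A (R t u))
      rw [hv, hv]
      linarith
    have h1 := intervalIntegral.integral_eq_sub_of_hasDerivAt (a := 0) (b := T) (fun t _ => h0 t)
      ((((hi.clm_apply continuous_const).clm_apply continuous_const).sub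
        ((hi.clm_apply continuous_const).clm_apply continuous_const)).intervalIntegrable _ _)
    rw [hT, sub_self, ← ev hi, sub_eq_zero] at h1
    exact h1.symm
  obtain ⟨H, hH⟩ := (convex_univ (𝕜 := ℝ) (E := E)).exists_forall_hasFDerivAt_of_fderiv_symmetric
    (ω := fun x => ∫ t in (0 : ℝ)..T, Φ (x, t)) isOpen_univ
    (fun x _ => (hL x).differentiableAt.differentiableWithinAt) fun x _ u v => by
      rw [(hL x).fderiv]
      exact hs x u v
  refine ⟨H, _, fun x => ⟨hH x (mem_univ x), fun v => ?_⟩⟩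
  have hi : Continuous fun t => Φ (x, t) := hΦ.continuous.comp (Continuous.prodMk_right x)
  rw [ContinuousLinearMap.intervalIntegral_apply (hi.intervalIntegrable _ _) v, hp]
  rfl

/-- A diagonal map. -/
def dg {R : Type} [Fintype R] (c : R → ℂ) : (R → ℂ) →L[ℝ] R → ℂ :=
  ContinuousLinearMap.pi fun r => c r • ContinuousLinearMap.proj r

theorem dg_app {R : Type} [Fintype R] (c x : R → ℂ) : dg c x = fun r => c r * x r := rfl

end POTB

theorem st_POT : St_POT := by
  intro R _ _ n Ω hΩ ha hc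
  have he : ∀ r, ContDiff ℝ 1 fun θ : ℝ => exp (I * (n r * θ)) := fun r =>
    (contDiff_const.mul (contDiff_const.mul ofRealCLM.contDiff)).cexp
  refine POTB.core hΩ ha hc (POTB.dg fun r => I * n r)
    (R := fun θ => POTB.dg fun r => exp (I * (n r * θ)))
    (contDiff_clm_apply_iff.2 fun v => contDiff_pi.2 fun r => (he r).mul contDiff_const)
    (fun v t => hasDerivAt_pi.2 fun r => ?_) ?_
  · have h1 : HasDerivAt (fun θ : ℝ => (θ : ℂ)) 1 t := ofRealCLM.hasDerivAt
    refine ((((h1.const_mul (n r : ℂ)).const_mul I).cexp).mul_const (v r)).congr_deriv ?_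
    simp only [POTB.dg_app]
    ring
  · congr 1
    funext r
    rw [show I * ((n r : ℂ) * ((2 * Real.pi : ℝ) : ℂ)) = n r * (2 * Real.pi * I) by
      push_cast; ring, exp_int_mul_two_pi_mul_I]
    simp

end Pool.Agent.Lib.GU40
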