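import Pool.Agent.Lib.GU40.Blue

/-! Project gu40, block SG1: the orientation is constant along an axis. -/

open scoped Manifold ContDiff Topology Matrix
open Set Filter Metric Complex Sum

set_option linter.unusedVariables false
set_option linter.unusedSectionVars false

noncomputable section

namespace Pool.Agent.Lib.GU40

open Pool.Agent.Lib.GT40 (E cx hol_ch hol_symm sm_ch sm_symm)

namespace SG1B

variable {ι R F : Type} [Fintype ι] [Fintype R] [DecidableEq R] {d : ℕ} {Y : Type}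
  [TopologicalSpace Y] [ChartedSpace (E d) Y] [IsManifold 𝓘(ℂ, E d) ω Y]

/-- A holomorphic map acts on real differentials by a complex linear map. -/
theorem chg {s : (R → ℂ) → Y} {f : Y → Y} {x : R → ℂ} {p p' : Y}
    (hs : ContMDiffAt 𝓘(ℝ, R → ℂ) 𝓘(ℝ, E d) ∞ s x)
    (hf : MDifferentiableAt 𝓘(ℂ, E d) 𝓘(ℂ, E d) f (s x))
    (hp : s x ∈ (chartAt (E d) p).source) (hp' : f (s x) ∈ (chartAt (E d) p').source) :
    ∃ L : E d →L[ℂ] E d, ∀ v, fderiv ℝ (chartAt (E d) p' ∘ f ∘ s) x v =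
      L (fderiv ℝ (chartAt (E d) p ∘ s) x v) := by
  have hz := (chartAt (E d) p).map_source hp
  have hl := (chartAt (E d) p).left_inv hp
  have h1 : MDifferentiableAt 𝓘(ℂ, E d) 𝓘(ℂ, E d) (f ∘ (chartAt (E d) p).symm)
      (chartAt (E d) p (s x)) := MDifferentiableAt.comp _ (by rw [hl]; exact hf) (hol_symm hz)
  have h2 : DifferentiableAt ℂ (chartAt (E d) p' ∘ (f ∘ (chartAt (E d) p).symm))
      (chartAt (E d) p (s x)) := hol_ch h1 (by rw [Function.comp_apply, hl]; exact hp')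
  have h3 : DifferentiableAt ℝ (chartAt (E d) p ∘ s) x :=
    (sm_ch hs hp).differentiableAt (by simp)
  have h4 := (h2.hasFDerivAt.restrictScalars ℝ).comp x h3.hasFDerivAt
  have h5 : (chartAt (E d) p' ∘ f ∘ s) =ᶠ[𝓝 x]
      (chartAt (E d) p' ∘ (f ∘ (chartAt (E d) p).symm)) ∘ (chartAt (E d) p ∘ s) := by
    filter_upwards [hs.continuousAt.preimage_mem_nhds
      ((chartAt (E d) p).open_source.mem_nhds hp)] with y hy
    simp only [Function.comp_apply]
    rw [(chartAt (E d) p).left_inv hy]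
  refine ⟨fderiv ℂ (chartAt (E d) p' ∘ (f ∘ (chartAt (E d) p).symm)) (chartAt (E d) p (s x)),
    fun v => ?_⟩
  rw [h5.fderiv_eq, h4.fderiv]
  rfl

variable {w : F → R → ι → ℤ} {nb : F → R → F} {s : F → (R → ℂ) → Y} {κ : F → Y → R → ℂ}
  {ρ : (ι → ℝ) → Y → Y}

/-- The real differential of a cell is bijective. -/
theorem bij (h : Dat d w nb s κ ρ) (o : F) (x : R → ℂ) : Function.Bijective (Dv d (s o) x) := by
  have hp := mem_chart_source (E d) (s o x)
  set e := chartAt (E d) (s o x) with he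
  have hz := e.map_source hp
  have hl := e.left_inv hp
  have h1 : DifferentiableAt ℝ (e ∘ s o) x := (sm_ch (h.sm o x) hp).differentiableAt (by simp)
  have h2 : ContMDiffAt 𝓘(ℝ, E d) 𝓘(ℝ, R → ℂ) ∞ (κ o ∘ e.symm) (e (s o x)) :=
    ContMDiffAt.comp _ (by rw [hl]; exact h.smi o x) (sm_symm hz)
  have h3 : DifferentiableAt ℝ (κ o ∘ e.symm) (e (s o x)) :=
    (contMDiffAt_iff_contDiffAt.1 h2).differentiableAt (by simp)
  have hx : (κ o ∘ e.symm) (e (s o x)) = x := by rw [Function.comp_apply, hl, h.inv]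
  have h4 : ((κ o ∘ e.symm) ∘ (e ∘ s o)) =ᶠ[𝓝 x] id := by
    filter_upwards [(h.sm o x).continuousAt.preimage_mem_nhds (e.open_source.mem_nhds hp)]
      with y hy
    simp only [Function.comp_apply, id]
    rw [e.left_inv hy, h.inv]
  have h5 : ((e ∘ s o) ∘ (κ o ∘ e.symm)) =ᶠ[𝓝 (e (s o x))] id := by
    have hc : ContinuousAt e.symm (e (s o x)) := e.continuousAt_symm hz
    have hr : range (s o) ∈ 𝓝 (e.symm (e (s o x))) := by
      rw [hl]
      exact (h.op o).mem_nhds ⟨x, rfl⟩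
    filter_upwards [hc.preimage_mem_nhds hr, e.open_target.mem_nhds hz] with z hz1 hz2
    obtain ⟨y, hy⟩ := hz1
    simp only [Function.comp_apply, id]
    rw [← hy, h.inv, hy, e.right_inv hz2]
  have h6 := h3.hasFDerivAt.comp x h1.hasFDerivAt
  have h1' : HasFDerivAt (e ∘ s o) (fderiv ℝ (e ∘ s o) x) ((κ o ∘ e.symm) (e (s o x))) := by
    rw [hx]
    exact h1.hasFDerivAt
  have h7 := h1'.comp _ h3.hasFDerivAt
  have h8 := h6.fderiv
  have h9 := h7.fderiv
  rw [h4.fderiv_eq, fderiv_id] at h8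
  rw [h5.fderiv_eq, fderiv_id] at h9
  constructor
  · refine Function.LeftInverse.injective (g := fderiv ℝ (κ o ∘ e.symm) (e (s o x))) fun v => ?_
    exact (DFunLike.congr_fun h8 v).symm
  · refine Function.RightInverse.surjective (g := fderiv ℝ (κ o ∘ e.symm) (e (s o x))) fun v => ?_
    exact (DFunLike.congr_fun h9 v).symm

/-- The action on coordinates, as a real linear map. -/
def sgL (w : R → ι → ℤ) (τ : ι → ℂ) : (R → ℂ) →L[ℝ] R → ℂ :=
  (ContinuousLinearMap.pi fun r => chi (w r) τ •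
    ContinuousLinearMap.proj (R := ℂ) (φ := fun _ : R => ℂ) r).restrictScalars ℝ

theorem sgL_apply (w : R → ι → ℤ) (τ : ι → ℂ) (x : R → ℂ) : sgL w τ x = sg w τ x := rfl

/-- The elements of the torus that fix a point act complex linearly. -/
theorem equi (h : Dat d w nb s κ ρ) (o : F) {x : R → ℂ} {θ : ι → ℝ}
    (hx : sg (w o) (cx θ) x = x) : ∃ L : E d →L[ℂ] E d, ∀ v,
      Dv d (s o) x (sg (w o) (cx θ) v) = L (Dv d (s o) x v) := by
  have he : ρ θ ∘ s o = s o ∘ sgL (w o) (cx θ) := funext fun y => h.eqv θ o y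
  have hp := mem_chart_source (E d) (s o x)
  have hf : ρ θ (s o x) = s o x := by rw [h.eqv, hx]
  obtain ⟨L, hL⟩ := chg (p := s o x) (p' := s o x) (h.sm o x) (h.hol θ (s o x)) hp
    (by rw [hf]; exact hp)
  refine ⟨L, fun v => ?_⟩
  have h3 : HasFDerivAt (chartAt (E d) (s o x) ∘ s o) (Dv d (s o) x) (sgL (w o) (cx θ) x) := by
    rw [sgL_apply, hx]
    exact ((sm_ch (h.sm o x) hp).differentiableAt (by simp)).hasFDerivAt
  have h4 := (h3.comp x (sgL (w o) (cx θ)).hasFDerivAt).fderiv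
  have h5 := hL v
  rw [he, ← Function.comp_assoc, h4] at h5
  exact h5

theorem ax_eq (r : R) (z : ℂ) : ax r z = z.re • ax r 1 + z.im • (I • ax r 1) := by
  funext r'
  simp only [ax, Pi.add_apply, Pi.smul_apply, real_smul, smul_eq_mul]
  by_cases hc : r' = r
  · simp only [if_pos hc, mul_one, re_add_im]
  · simp only [if_neg hc, mul_zero, add_zero]

theorem dv_ne (h : Dat d w nb s κ ρ) (o : F) (x : R → ℂ) (r : R) :
    Dv d (s o) x (ax r 1) ≠ 0 := fun c => by
  have c' : ax r (1 : ℂ) = 0 := (bij h o _).1 (by rw [c, map_zero])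
  have := congrFun c' r
  simp [ax] at this

/-- The image of the tangent line of an axis is a complex line. -/
theorem exi (hc : Cmb w nb) (h : Dat d w nb s κ ρ) (o : F) (r : R) (z : ℂ) :
    ∃ a b : ℝ, b ≠ 0 ∧ I • Dv d (s o) (ax r z) (ax r 1) =
      a • Dv d (s o) (ax r z) (ax r 1) + b • Dv d (s o) (ax r z) (I • ax r 1) := by
  obtain ⟨hi, hs⟩ := bij h o (ax r z)
  obtain ⟨u, hu⟩ := hs (I • Dv d (s o) (ax r z) (ax r 1))
  have hu' : u = ax r (u r) := by
    funext r'
    by_cases hr : r' = r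
    · simp [ax, hr]
    rw [ax, if_neg hr]
    obtain ⟨θ, h1, h2⟩ := hc.sep o r r' hr
    have fx (z : ℂ) : sg (w o) (cx θ) (ax r z) = ax r z := by rw [sg_ax, h1, one_mul]
    obtain ⟨L, hL⟩ := equi h o (fx z)
    have e1 : sg (w o) (cx θ) u = u := by
      apply hi
      rw [hL, hu, map_smul, ← hL, fx]
    by_contra h0
    exact h2 (mul_right_cancel₀ h0 ((congrFun e1 r').trans (one_mul _).symm))
  have e3 : I • Dv d (s o) (ax r z) (ax r 1) =
      (u r).re • Dv d (s o) (ax r z) (ax r 1) + (u r).im • Dv d (s o) (ax r z) (I • ax r 1) := by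
    have e0 := congrArg (Dv d (s o) (ax r z)) (hu'.trans (ax_eq r (u r)))
    rw [map_add, map_smul, map_smul, hu] at e0
    exact e0
  refine ⟨(u r).re, (u r).im, fun h0 => ?_, e3⟩
  rw [h0, zero_smul, add_zero, ← Complex.coe_smul, ← sub_eq_zero, ← sub_smul] at e3
  rcases smul_eq_zero.1 e3 with c | c
  · have := congrArg im c
    simp at this
  · exact dv_ne h o _ r c

theorem excl (h : Dat d w nb s κ ρ) (o : F) (x : R → ℂ) (r : R) :
    ¬(Ori d (s o) x (ax r 1) 1 ∧ Ori d (s o) x (ax r 1) (-1)) := by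
  rintro ⟨⟨a, b, hb, e⟩, ⟨a', b', hb', e'⟩⟩
  rw [e, ← map_smul, ← map_smul, ← map_smul, ← map_smul, ← map_add, ← map_add] at e'
  have c := congrArg im (congrFun ((bij h o x).1 e') r)
  simp [ax] at c
  linarith

theorem cont_ax (r : R) : Continuous (ax r : ℂ → R → ℂ) := by
  refine continuous_pi fun r' => ?_
  by_cases hc : r' = r
  · simp only [ax, if_pos hc]
    exact continuous_id
  · simp only [ax, if_neg hc]
    exact continuous_const

theorem sq_eq {P R : ℂ} {a b : ℝ} (e : I * P = a * P + b * R) :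
    b * (R.im * P.re - R.re * P.im) = P.re ^ 2 + P.im ^ 2 := by
  have h1 := congrArg re e
  have h2 := congrArg im e
  simp at h1 h2
  linear_combination P.im * h1 - P.re * h2

theorem opn (hC : Cmb w nb) (h : Dat d w nb s κ ρ) (o : F) (r : R) (ε : ℝ) :
    IsOpen {z : ℂ | Ori d (s o) (ax r z) (ax r 1) ε} := by
  refine isOpen_iff_mem_nhds.2 fun w₀ hw => ?_
  obtain ⟨a₀, b₀, hb₀, e₀⟩ := hw
  have hp := mem_chart_source (E d) (s o (ax r w₀))
  set e := chartAt (E d) (s o (ax r w₀)) with he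
  obtain ⟨c, hc⟩ := Function.ne_iff.1 (dv_ne h o (ax r w₀) r)
  have h1 : ContinuousAt (fun w => fderiv ℝ (e ∘ s o) (ax r w)) w₀ :=
    ContinuousAt.comp (f := ax r) ((sm_ch (h.sm o _) hp).continuousAt_fderiv (by simp))
      (cont_ax r).continuousAt
  have h2 : ∀ v, ContinuousAt (fun w => fderiv ℝ (e ∘ s o) (ax r w) v c) w₀ := fun v =>
    (continuous_apply c).continuousAt.comp (h1.clm_apply continuousAt_const)
  set P : ℂ → ℂ := fun w => fderiv ℝ (e ∘ s o) (ax r w) (ax r 1) c with hP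
  set Q : ℂ → ℂ := fun w => fderiv ℝ (e ∘ s o) (ax r w) (I • ax r 1) c with hR
  have cP : ContinuousAt P w₀ := h2 _
  have cR : ContinuousAt Q w₀ := h2 _
  have cg : ContinuousAt (fun w => ε * ((Q w).im * (P w).re - (Q w).re * (P w).im)) w₀ :=
    continuousAt_const.mul
      (((continuous_im.continuousAt.comp cR).mul (continuous_re.continuousAt.comp cP)).sub
        ((continuous_re.continuousAt.comp cR).mul (continuous_im.continuousAt.comp cP)))
  have g0 : 0 < ε * ((Q w₀).im * (P w₀).re - (Q w₀).re * (P w₀).im) := by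
    have e1 : I * P w₀ = a₀ * P w₀ + b₀ * Q w₀ := congrFun e₀ c
    have e2 := sq_eq e1
    have e3 : 0 < (P w₀).re ^ 2 + (P w₀).im ^ 2 := by
      have := normSq_pos.2 (show P w₀ ≠ 0 from hc)
      rw [normSq_apply] at this
      nlinarith
    have hb : b₀ ≠ 0 := fun c => by simp [c] at hb₀
    have e4 : 0 < b₀ ^ 2 * (ε * ((Q w₀).im * (P w₀).re - (Q w₀).re * (P w₀).im)) := by
      have := mul_pos hb₀ e3
      rw [← e2] at this
      nlinarith
    exact (mul_pos_iff_of_pos_left (by positivity)).1 e4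
  have hsrc : ∀ᶠ w in 𝓝 w₀, s o (ax r w) ∈ e.source :=
    ((h.sm o).continuous.comp (cont_ax r)).continuousAt.preimage_mem_nhds
      (e.open_source.mem_nhds hp)
  filter_upwards [cg.eventually (lt_mem_nhds g0), hsrc] with w hw1 hw2
  obtain ⟨a, b, hb, e1⟩ := exi hC h o r w
  refine ⟨a, b, ?_, e1⟩
  obtain ⟨L, hL⟩ := chg (f := id) (p := s o (ax r w)) (p' := s o (ax r w₀)) (h.sm o _)
    mdifferentiableAt_id (mem_chart_source (E d) _) hw2
  have e2 := congrArg L e1
  rw [map_smul, map_add, L.map_smul_of_tower, L.map_smul_of_tower] at e2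
  have e3 : I * P w = a * P w + b * Q w := by
    have := congrFun e2 c
    simp only [Dv, ← hL] at this
    exact this
  have e4 := sq_eq e3
  have hε : ε ≠ 0 := fun c => by simp [c] at hb₀
  have e5 : 0 ≤ (ε * b) * (ε * ((Q w).im * (P w).re - (Q w).re * (P w).im)) := by
    have : (ε * b) * (ε * ((Q w).im * (P w).re - (Q w).re * (P w).im)) =
        ε ^ 2 * ((P w).re ^ 2 + (P w).im ^ 2) := by rw [← e4]; ring
    rw [this]
    positivity
  exact lt_of_le_of_ne (nonneg_of_mul_nonneg_left e5 hw1) (mul_ne_zero hε hb).symm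

end SG1B

open SG1B in
theorem st_SG1 : St_SG1 := by
  intro ι R F _ _ _ d Y _ _ _ w nb s κ ρ hC h
  refine ⟨bij h, fun o r => ⟨?_, fun z => excl h o _ r⟩⟩
  have hu : (univ : Set ℂ) ⊆ {z : ℂ | Ori d (s o) (ax r z) (ax r 1) 1} ∪
      {z : ℂ | Ori d (s o) (ax r z) (ax r 1) (-1)} := fun z _ => by
    obtain ⟨a, b, hb, e⟩ := exi hC h o r z
    rcases lt_or_gt_of_ne hb with c | c
    · exact Or.inr ⟨a, b, by linarith, e⟩
    · exact Or.inl ⟨a, b, by linarith, e⟩
  rcases isPreconnected_univ.subset_or_subset (opn hC h o r 1) (opn hC h o r (-1))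
    (disjoint_left.2 fun z h1 h2 => excl h o _ r ⟨h1, h2⟩) hu with c | c
  · exact Or.inl fun z => c (mem_univ z)
  · exact Or.inr fun z => c (mem_univ z)

end Pool.Agent.Lib.GU40
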