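import Pool.Agent.Lib.GU40.Blue

/-! Project gu40: all orientations agree. -/

open scoped Manifold ContDiff Topology Matrix
open Set Filter Metric Complex Sum

set_option linter.unusedVariables false
set_option linter.unusedSectionVars false

noncomputable section

namespace Pool.Agent.Lib.GU40

open Pool.Agent.Lib.GT40 (E V Gr Full Spans cx RAct Act Gm kp Mt)

namespace SGNB

variable {ι R F : Type} [Fintype ι] [Fintype R] [DecidableEq R] {d : ℕ} {Y : Type}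
  [TopologicalSpace Y] [ChartedSpace (E d) Y] [IsManifold 𝓘(ℂ, E d) ω Y] {w : F → R → ι → ℤ}
  {nb : F → R → F} {s : F → (R → ℂ) → Y} {κ : F → Y → R → ℂ} {ρ : (ι → ℝ) → Y → Y}

/-- The axis as a linear map. -/
def al (r : R) : ℂ →L[ℂ] R → ℂ := ContinuousLinearMap.single ℂ (fun _ => ℂ) r

theorem al_ap (r : R) (z : ℂ) : al r z = ax r z := by
  funext r'
  simp [al, ax, Pi.single_apply]

theorem dv_eq (h : Dat d w nb s κ ρ) {o o' : F} {r : R} {c : ℂ}
    (e : ∀ z, z ≠ 0 → s o' (ax r (c / z)) = s o (ax r z)) (v : ℂ) :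
    Dv d (s o) (ax r 1) (ax r v) = Dv d (s o') (ax r c) (ax r (-c * v)) := by
  have e1 : s o' (ax r c) = s o (ax r 1) := by simpa using e 1 one_ne_zero
  have d1 : HasFDerivAt (chartAt (E d) (s o (ax r 1)) ∘ s o) (Dv d (s o) (ax r 1)) (al r 1) := by
    rw [al_ap]
    exact ((GT40.sm_ch (h.sm o _) (mem_chart_source _ _)).differentiableAt (by simp)).hasFDerivAt
  have d2 : HasFDerivAt (chartAt (E d) (s o (ax r 1)) ∘ s o') (Dv d (s o') (ax r c))
      (al r (c / 1)) := by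
    rw [al_ap, div_one, ← e1]
    exact ((GT40.sm_ch (h.sm o' _) (mem_chart_source _ _)).differentiableAt (by simp)).hasFDerivAt
  have d3 : HasDerivAt (fun z : ℂ => c / z) (-c) 1 := by
    simpa [div_eq_mul_inv] using (hasDerivAt_inv (one_ne_zero (α := ℂ))).const_mul c
  have d4 := d1.comp 1 ((al r).hasFDerivAt.restrictScalars ℝ)
  have d5 := HasFDerivAt.comp (f := fun z : ℂ => al r (c / z)) 1 d2
    ((HasFDerivAt.comp (f := fun z : ℂ => c / z) 1 (al r).hasFDerivAt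
      d3.hasFDerivAt).restrictScalars ℝ)
  have d6 := d4.unique (d5.congr_of_eventuallyEq (by
    filter_upwards [isOpen_ne.mem_nhds (one_ne_zero (α := ℂ))] with z hz
    simp only [Function.comp, al_ap, e z hz]))
  have d7 := congrArg (fun L => L v) d6
  simpa [al_ap, mul_comm] using d7

theorem cross (hORI : St_ORI) (h : Dat d w nb s κ ρ) {o : F} {r : R} {ε : ℝ}
    (a : Ori d (s o) (ax r 1) (ax r 1) ε) : ∃ c, Ori d (s (nb o r)) (ax r c) (ax r 1) ε := by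
  obtain ⟨c, hc, e⟩ := h.edge.1 o r
  obtain ⟨a, b, hb, e1⟩ := a
  have h1 : Ori d (s (nb o r)) (ax r c) (ax r (-c * 1)) ε := by
    refine ⟨a, b, hb, ?_⟩
    rw [smul_ax, ← dv_eq h e, mul_left_comm, ← dv_eq h e, ← smul_ax]
    exact e1
  have h2 := hORI R d Y _ _ _ ε (-c)⁻¹ (inv_ne_zero (neg_ne_zero.2 hc)) h1
  rw [smul_ax, mul_one, inv_mul_cancel₀ (neg_ne_zero.2 hc)] at h2
  exact ⟨c, h2⟩

end SGNB

open SGNB in
theorem st_SGN (hORI : St_ORI) (hSG1 : St_SG1) (hMOM : St_MOM) : St_SGN := by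
  intro ι R F _ _ _ d Y _ _ _ w nb s κ ρ h hC hD hO hK
  obtain ⟨-, h1⟩ := hSG1 ι R F d Y w nb s κ ρ hC hD
  have ed : ∀ (ε : ℝ), ε = 1 ∨ ε = -1 → ∀ o r, (∀ z, Ori d (s o) (ax r z) (ax r 1) ε) →
      ∀ z, Ori d (s (nb o r)) (ax r z) (ax r 1) ε := by
    intro ε hε o r a
    obtain ⟨c, hc⟩ := cross hORI hD (a 1)
    obtain ⟨b | b, b'⟩ := h1 (nb o r) r <;> rcases hε with rfl | rfl
    · exact b
    · exact absurd ⟨b c, hc⟩ (b' c)
    · exact absurd ⟨hc, b c⟩ (b' c)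
    · exact b
  have tri := hC.tri (fun o r => ∀ z, Ori d (s o) (ax r z) (ax r 1) 1) (ed 1 (Or.inl rfl))
    fun o r r' r'' ξ e x1 x2 x3 a => (h1 o r').1.resolve_right fun a' => by
      obtain ⟨H, hH⟩ := hMOM ι R F d Y w nb s κ ρ h ξ hC hD hK
      have gl : ∀ o r, ∃ k c, c ≠ 0 ∧ H o (ax r 1) = H (nb o r) (ax r c) + k ∧
          Dense (s o ⁻¹' range (s (nb o r))) ∧
          ∀ x, s o x ∈ range (s (nb o r)) → H o x = H (nb o r) (κ (nb o r) (s o x)) + k := by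
        intro o r
        obtain ⟨c, hc, e⟩ := hD.edge.1 o r
        obtain ⟨k, hk⟩ := hH.glue o (nb o r) (hO _ _).1
        have e1 := e 1 one_ne_zero
        refine ⟨k, c, hc, ?_, (hO _ _).2 ⟨_, _, e1⟩, hk⟩
        rw [hk _ ⟨_, e1⟩, ← e1, hD.inv, div_one]
      obtain ⟨k1, c1, n1, g1, d1, f1⟩ := gl o r
      obtain ⟨k2, c2, n2, g2, d2, f2⟩ := gl o r'
      obtain ⟨k3, c3, n3, g3, -, f3⟩ := gl (nb o r) r''
      obtain ⟨x, ⟨y, hy⟩, hx⟩ := d1.exists_mem_open ((hD.op (nb o r')).preimage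
        (hD.sm o).continuous) d2.nonempty
      have q1 := f1 x ⟨y, hy⟩
      have q2 := f2 x hx
      have q3 := f3 y (by rw [e, hy]; exact hx)
      rw [← hy, hD.inv] at q1
      rw [e, hy] at q3
      have o1 : w (nb o r) r ⬝ᵥ ξ = -(w o r ⬝ᵥ ξ) := by rw [hC.opp, neg_dotProduct]
      have o2 : w (nb o r') r' ⬝ᵥ ξ = -(w o r' ⬝ᵥ ξ) := by rw [hC.opp, neg_dotProduct]
      have o3 : w (nb (nb o r) r'') r'' ⬝ᵥ ξ = 0 := by rw [hC.opp, neg_dotProduct, x3, neg_zero]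
      have y1 : (0 : ℝ) < (w o r ⬝ᵥ ξ : ℤ) := by exact_mod_cast x1
      have y2 : (0 : ℝ) < (w o r' ⬝ᵥ ξ : ℤ) := by exact_mod_cast x2
      have u1 := hH.up o r 1 1 a one_ne_zero (by linarith)
      have u2 := hH.down _ r c1 1 (ed 1 (Or.inl rfl) o r a) n1 (by rw [o1]; push_cast at y1 ⊢; linarith)
      have u3 := hH.down o r' 1 (-1) a' one_ne_zero (by linarith)
      have u4 := hH.up _ r' c2 (-1) (ed (-1) (Or.inr rfl) o r' a') n2
        (by rw [o2]; push_cast at y2 ⊢; linarith)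
      have u5 := hH.flat _ r'' 1 x3
      have u6 := hH.flat _ r'' c3 o3
      rw [u5, u6, e] at g3
      linarith
  by_cases h2 : ∃ o r, ∀ z, Ori d (s o) (ax r z) (ax r 1) 1
  · obtain ⟨o, r, a⟩ := h2
    exact Or.inl fun o' r' => ax_zero r' ▸ tri o r o' r' a 0
  · exact Or.inr fun o r => ax_zero r ▸ (h1 o r).1.resolve_left (fun a => h2 ⟨o, r, a⟩) 0

end Pool.Agent.Lib.GU40
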