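import Pool.Agent.Lib.GU40.Blue

/-! Project gu40, block TR2: the transition maps are forced by the weights, skew case. -/

open scoped Manifold ContDiff Topology Matrix
open Set Filter Metric Complex Sum

set_option linter.unusedVariables false
set_option linter.unusedSectionVars false

noncomputable section

namespace Pool.Agent.Lib.GU40

open Pool.Agent.Lib.GT40 (E)

namespace TR2B

theorem lin3 {V : Type} [NormedAddCommGroup V] [NormedSpace ℂ V] {F : V → ℂ} {y v₁ v₂ v₃ : V}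
    (hd : DifferentiableAt ℂ F y) (Φ : ℂ → ℂ → ℂ → ℂ)
    (hΦ : ∀ α β γ, Φ α β γ = F (y + (α • v₁ + β • v₂ + γ • v₃)))
    (h : ∀ s α β γ : ℂ, Φ (s * α) (s * β) (s * γ) = s * Φ α β γ) (α β γ : ℂ) :
    Φ α β γ = α * Φ 1 0 0 + β * Φ 0 1 0 + γ * Φ 0 0 1 := by
  have key : ∀ α β γ : ℂ, Φ α β γ = fderiv ℂ F y (α • v₁ + β • v₂ + γ • v₃) := by
    intro α β γ
    have h1 : HasDerivAt (fun s : ℂ => y + s • (α • v₁ + β • v₂ + γ • v₃))
        (α • v₁ + β • v₂ + γ • v₃) 0 := by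
      simpa using ((hasDerivAt_id (0 : ℂ)).smul_const (α • v₁ + β • v₂ + γ • v₃)).const_add y
    have h2 := hd.hasFDerivAt.comp_hasDerivAt_of_eq (0 : ℂ) h1 (by simp)
    have h3 : (F ∘ fun s : ℂ => y + s • (α • v₁ + β • v₂ + γ • v₃)) = fun s => s * Φ α β γ := by
      funext s
      rw [← h, hΦ, Function.comp_apply, smul_add, smul_add, smul_smul, smul_smul, smul_smul]
    rw [h3] at h2
    simpa using ((hasDerivAt_id (0 : ℂ)).mul_const (Φ α β γ)).unique h2
  simp only [key, map_add, map_smul, smul_eq_mul]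
  ring

variable {m : ℕ}

theorem skew (x : Rt m false → ℂ) (i j : Fin m) : en (-1) x j i = -en (-1) x i j := by
  simpa [dl] using en_symm x i j

theorem diag (x : Rt m false → ℂ) (i : Fin m) : en (-1) x i i = 0 := by simp [en]

/-- The elementary skew matrix. -/
def El (e f : Fin m) : Rt m false → ℂ :=
  mk fun i j => (if i = e ∧ j = f then 1 else 0) - if i = f ∧ j = e then 1 else 0

theorem en_El (e f i j : Fin m) :
    en (-1) (El e f) i j = (if i = e ∧ j = f then 1 else 0) - if i = f ∧ j = e then 1 else 0 := by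
  have := en_mk (m := m) (b := false)
    (M := fun i j => (if i = e ∧ j = f then 1 else 0) - if i = f ∧ j = e then 1 else 0)
    (fun a c => by simp [dl, and_comm]) i j
  simpa [dl, El] using this

theorem st_add (t : Fin m → ℂ) (x y : Rt m false → ℂ) : st t (x + y) = st t x + st t y := by
  funext r
  simp [st, mul_add]

theorem st_El (t : Fin m → ℂ) (z : ℂ) (e f : Fin m) :
    st t (z • El e f) = (t e * t f * z) • El e f := by
  refine en_ext (δ := -1) fun i j => ?_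
  simp only [en_st, en_smul, en_El]
  by_cases h : i = e ∧ j = f
  · obtain ⟨rfl, rfl⟩ := h
    ring
  · by_cases h' : i = f ∧ j = e
    · obtain ⟨rfl, rfl⟩ := h'
      ring
    · simp [h, h']

theorem dec2 {a c : Fin m} (hac : a ≠ c) (x : Rt m false → ℂ)
    (h : ∀ i j, i ≠ a → i ≠ c → en (-1) x i j = 0) : x = en (-1) x a c • El a c := by
  have h' : ∀ i j, j ≠ a → j ≠ c → en (-1) x i j = 0 := fun i j h1 h2 => by
    rw [skew, h j i h1 h2, neg_zero]
  refine en_ext (δ := -1) fun i j => ?_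
  simp only [en_smul, en_El]
  have h1 := skew x a c
  have hi : i = a ∨ i = c ∨ (i ≠ a ∧ i ≠ c) := by tauto
  have hj : j = a ∨ j = c ∨ (j ≠ a ∧ j ≠ c) := by tauto
  rcases hi with rfl | rfl | hi <;> rcases hj with rfl | rfl | hj <;> simp [*, diag, hac.symm]

theorem dec3 {a c e : Fin m} (hac : a ≠ c) (hea : e ≠ a) (hec : e ≠ c) (x : Rt m false → ℂ)
    (h : ∀ i j, i ≠ a → i ≠ c → i ≠ e → en (-1) x i j = 0) :
    x = en (-1) x a c • El a c + (en (-1) x a e • El a e + en (-1) x c e • El c e) := by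
  have h' : ∀ i j, j ≠ a → j ≠ c → j ≠ e → en (-1) x i j = 0 := fun i j h1 h2 h3 => by
    rw [skew, h j i h1 h2 h3, neg_zero]
  refine en_ext (δ := -1) fun i j => ?_
  simp only [en_smul, en_add, en_El]
  have h1 := skew x a c
  have h2 := skew x a e
  have h3 := skew x c e
  have hi : i = a ∨ i = c ∨ i = e ∨ (i ≠ a ∧ i ≠ c ∧ i ≠ e) := by tauto
  have hj : j = a ∨ j = c ∨ j = e ∨ (j ≠ a ∧ j ≠ c ∧ j ≠ e) := by tauto
  rcases hi with rfl | rfl | rfl | hi <;> rcases hj with rfl | rfl | rfl | hj <;>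
    simp [*, diag, hac.symm, hea.symm, hec.symm]

theorem dec4 {a c e f : Fin m} (hac : a ≠ c) (hea : e ≠ a) (hec : e ≠ c) (hfa : f ≠ a)
    (hfc : f ≠ c) (hef : e ≠ f) (x : Rt m false → ℂ)
    (h : ∀ i j, i ≠ a → i ≠ c → i ≠ e → i ≠ f → en (-1) x i j = 0) :
    x = en (-1) x a c • El a c + en (-1) x a e • El a e + en (-1) x c e • El c e +
      en (-1) x e f • El e f + en (-1) x a f • El a f + en (-1) x c f • El c f := by
  have h' : ∀ i j, j ≠ a → j ≠ c → j ≠ e → j ≠ f → en (-1) x i j = 0 := fun i j h1 h2 h3 h4 => by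
    rw [skew, h j i h1 h2 h3 h4, neg_zero]
  refine en_ext (δ := -1) fun i j => ?_
  simp only [en_smul, en_add, en_El]
  have h1 := skew x a c
  have h2 := skew x a e
  have h3 := skew x c e
  have h4 := skew x a f
  have h5 := skew x c f
  have h6 := skew x e f
  have hi : i = a ∨ i = c ∨ i = e ∨ i = f ∨ (i ≠ a ∧ i ≠ c ∧ i ≠ e ∧ i ≠ f) := by tauto
  have hj : j = a ∨ j = c ∨ j = e ∨ j = f ∨ (j ≠ a ∧ j ≠ c ∧ j ≠ e ∧ j ≠ f) := by tauto
  rcases hi with rfl | rfl | rfl | rfl | hi <;> rcases hj with rfl | rfl | rfl | rfl | hj <;>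
    simp [*, diag, hac.symm, hea.symm, hec.symm, hfa.symm, hfc.symm, hef.symm]

/-- A holomorphic function with a given weight. -/
structure Wf (a c : Fin m) (F : (Rt m false → ℂ) → ℂ) (χ : (Fin m → ℂ) → ℂ) : Prop where
  hd : ∀ x, en (-1) x a c ≠ 0 → DifferentiableAt ℂ F x
  he : ∀ t x, t a ≠ 0 → t c ≠ 0 → en (-1) x a c ≠ 0 → F (st t x) = χ t * F x

variable {a c e f : Fin m} {F : (Rt m false → ℂ) → ℂ}

theorem two (hac : a ≠ c) (h : Wf a c F fun t => (t a)⁻¹ * (t c)⁻¹) :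
    ∃ k, ∀ x, en (-1) x a c ≠ 0 → F x = k / en (-1) x a c := by
  refine ⟨F ((1 : ℂ) • El a c), fun x hx => ?_⟩
  have h1 := h.he (fun i => if i = a then (en (-1) x a c)⁻¹ else if i = c then 1 else 0) x
    (by simpa using hx) (by simp [hac.symm]) hx
  rw [dec2 hac (st _ x) fun i j h1 h2 => by simp [en_st, h1, h2]] at h1
  simp only [en_st, if_true, hac.symm, if_false, mul_one, inv_mul_cancel₀ hx, inv_inv,
    inv_one] at h1
  rw [h1]
  field_simp

theorem three (hac : a ≠ c) (hea : e ≠ a) (hec : e ≠ c) (h : Wf a c F fun t => (t a)⁻¹ * t e) :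
    ∃ k, ∀ x, en (-1) x a c ≠ 0 → F x = k * en (-1) x c e / en (-1) x a c := by
  let Φ : ℂ → ℂ → ℂ → ℂ := fun α β γ =>
    F ((1 : ℂ) • El a c + (α • El a e + β • El c e + γ • (0 : Rt m false → ℂ)))
  have sc : ∀ u s α β γ γ' : ℂ, u ≠ 0 → Φ (u * s * α) (u⁻¹ * s * β) γ' = u⁻¹ * s * Φ α β γ := by
    intro u s α β γ γ' hu
    have h1 := h.he (fun i => if i = a then u else if i = c then u⁻¹ else s)
      ((1 : ℂ) • El a c + (α • El a e + β • El c e)) (by simpa using hu)
      (by simpa [hac.symm] using hu)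
      (by simp [en_add, en_smul, en_El, hac, hac.symm, hea.symm, hec.symm])
    simp only [st_add, st_El, if_true, hac.symm, if_false, hea, hec, mul_inv_cancel₀ hu,
      mul_one] at h1
    simpa only [Φ, smul_zero, add_zero] using h1
  have ln := lin3 (h.hd ((1 : ℂ) • El a c) (by simp [en_El, hac, hac.symm])) Φ
    (fun _ _ _ => rfl) fun s α β γ => by simpa using sc 1 s α β γ (s * γ) one_ne_zero
  have z1 : Φ 1 0 0 = 0 := by
    have h1 := sc 2 1 1 0 0 0 two_ne_zero
    rw [ln] at h1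
    linear_combination (2 / 3 : ℂ) * h1
  refine ⟨Φ 0 1 0, fun x hx => ?_⟩
  have h1 := h.he
    (fun i => if i = a then (en (-1) x a c)⁻¹ else if i = c ∨ i = e then 1 else 0) x
    (by simpa using hx) (by simp [hac.symm]) hx
  rw [dec3 hac hea hec (st _ x) fun i j h1 h2 h3 => by simp [en_st, h1, h2, h3]] at h1
  simp only [en_st, if_true, hac.symm, if_false, mul_one, inv_mul_cancel₀ hx, inv_inv, hea,
    true_or, or_true, one_mul] at h1
  have h2 := ln ((en (-1) x a c)⁻¹ * en (-1) x a e) (en (-1) x c e) 0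
  rw [z1] at h2
  simp only [Φ, smul_zero, add_zero] at h2 ⊢
  rw [eq_div_iff hx]
  linear_combination h2 - h1

theorem four (hac : a ≠ c) (hea : e ≠ a) (hec : e ≠ c) (hfa : f ≠ a) (hfc : f ≠ c) (hef : e ≠ f)
    (h : Wf a c F fun t => t e * t f) : ∃ k β γ, ∀ x, en (-1) x a c ≠ 0 →
      F x = k * en (-1) x e f + (β * (en (-1) x a e * en (-1) x c f) +
        γ * (en (-1) x a f * en (-1) x c e)) / en (-1) x a c := by
  let Φ : ℂ → ℂ → ℂ → ℂ → ℂ → ℂ := fun α β ρ μ ν =>
    F ((1 : ℂ) • El a c + α • El a e + β • El c e + ρ • El e f + μ • El a f + ν • El c f)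
  have w : ∀ α β ρ μ ν : ℂ, en (-1)
      ((1 : ℂ) • El a c + α • El a e + β • El c e + ρ • El e f + μ • El a f + ν • El c f) a c ≠ 0 :=
    fun α β ρ μ ν => by
      simp [en_add, en_smul, en_El, hac, hac.symm, hea.symm, hec.symm, hfa.symm, hfc.symm]
  have sc : ∀ u s s' α β ρ μ ν : ℂ, u ≠ 0 →
      Φ (u * s * α) (u⁻¹ * s * β) (s * s' * ρ) (u * s' * μ) (u⁻¹ * s' * ν) =
        s * s' * Φ α β ρ μ ν := by
    intro u s s' α β ρ μ ν hu
    have h1 := h.he (fun i => if i = a then u else if i = c then u⁻¹ else if i = e then s else s')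
      _ (by simpa using hu) (by simpa [hac.symm] using hu) (w α β ρ μ ν)
    simpa only [st_add, st_El, if_true, hac.symm, if_false, hea, hec, hfa, hfc, hef.symm,
      mul_inv_cancel₀ hu, mul_one] using h1
  have l1 : ∀ μ ν α β ρ : ℂ,
      Φ α β ρ μ ν = α * Φ 1 0 0 μ ν + β * Φ 0 1 0 μ ν + ρ * Φ 0 0 1 μ ν := fun μ ν =>
    lin3 (v₁ := El a e) (v₂ := El c e) (v₃ := El e f) (h.hd _ (w 0 0 0 μ ν))
      (fun α β ρ => Φ α β ρ μ ν) (fun α β ρ => congrArg F (by module))
      fun s α β ρ => by simpa using sc 1 s 1 α β ρ μ ν one_ne_zero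
  have l2 : ∀ α β ρ μ ν : ℂ,
      Φ α β ρ μ ν = ρ * Φ α β 1 0 0 + μ * Φ α β 0 1 0 + ν * Φ α β 0 0 1 := fun α β =>
    lin3 (v₁ := El e f) (v₂ := El a f) (v₃ := El c f) (h.hd _ (w α β 0 0 0))
      (fun ρ μ ν => Φ α β ρ μ ν) (fun ρ μ ν => congrArg F (by module))
      fun s ρ μ ν => by simpa using sc 1 1 s α β ρ μ ν one_ne_zero
  have z0 : ∀ μ ν, Φ 0 0 0 μ ν = 0 := fun μ ν => by rw [l1]; ring
  have z1 : Φ 1 0 0 1 0 = 0 := by
    have h1 := sc 2 1 1 1 0 0 1 0 two_ne_zero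
    simp only [mul_one, mul_zero] at h1
    rw [l1, l2 1 0 0 2 0] at h1
    linear_combination (1 / 3 : ℂ) * h1
  have z2 : Φ 0 1 0 0 1 = 0 := by
    have h1 := sc 2⁻¹ 1 1 0 1 0 0 1 (by norm_num)
    simp only [mul_one, mul_zero, inv_inv] at h1
    rw [l1, l2 0 1 0 0 2] at h1
    linear_combination (1 / 3 : ℂ) * h1
  refine ⟨Φ 0 0 1 0 0, Φ 1 0 0 0 1, Φ 0 1 0 1 0, fun x hx => ?_⟩
  have h1 := h.he
    (fun i => if i = a then (en (-1) x a c)⁻¹ else if i = c ∨ i = e ∨ i = f then 1 else 0) x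
    (by simpa using hx) (by simp [hac.symm]) hx
  rw [dec4 hac hea hec hfa hfc hef (st _ x)
    fun i j h1 h2 h3 h4 => by simp [en_st, h1, h2, h3, h4]] at h1
  simp only [en_st, if_true, hac.symm, if_false, mul_one, inv_mul_cancel₀ hx, hea, hfa,
    true_or, or_true, one_mul] at h1
  have h2 : Φ ((en (-1) x a c)⁻¹ * en (-1) x a e) (en (-1) x c e) (en (-1) x e f)
    ((en (-1) x a c)⁻¹ * en (-1) x a f) (en (-1) x c f) = F x := h1
  rw [← h2, l1, l2 1 0 0 _ _, l2 0 1 0 _ _, l2 0 0 1 _ _, z0, z0, z1, z2]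
  field_simp
  ring

theorem ext4 {y y' : Rt m false → ℂ} (h1 : en (-1) y a c = en (-1) y' a c)
    (h2 : ∀ e, e ≠ a → e ≠ c → en (-1) y a e = en (-1) y' a e ∧ en (-1) y c e = en (-1) y' c e)
    (h3 : ∀ e f, e ≠ a → e ≠ c → f ≠ a → f ≠ c → en (-1) y e f = en (-1) y' e f) : y = y' := by
  refine en_ext (δ := -1) fun i j => ?_
  have hi : i = a ∨ i = c ∨ (i ≠ a ∧ i ≠ c) := by tauto
  have hj : j = a ∨ j = c ∨ (j ≠ a ∧ j ≠ c) := by tauto
  rcases hi with rfl | rfl | hi <;> rcases hj with rfl | rfl | hj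
  · rw [diag, diag]
  · exact h1
  · exact (h2 j hj.1 hj.2).1
  · rw [skew y, skew y', h1]
  · rw [diag, diag]
  · exact (h2 j hj.1 hj.2).2
  · rw [skew y, skew y', (h2 i hi.1 hi.2).1]
  · rw [skew y, skew y', (h2 i hi.1 hi.2).2]
  · exact h3 i j hi.1 hi.2 hj.1 hj.2

theorem cont_st (u : ℂ → Fin m → ℂ) (hu : ∀ i, Continuous fun s => u s i) (x : Rt m false → ℂ) :
    Continuous fun s => st (u s) x :=
  continuous_pi fun r => ((hu _).mul (hu _)).mul continuous_const

theorem wf {θ : (Rt m false → ℂ) → Rt m false → ℂ}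
    (hd : ∀ x, en (-1) x a c ≠ 0 → DifferentiableAt ℂ θ x)
    (he : ∀ (t : Fin m → ℂ) x, (∀ i, t i ≠ 0) → en (-1) x a c ≠ 0 →
      θ (st t x) = st (fun i => if i = a ∨ i = c then (t i)⁻¹ else t i) (θ x)) (i j : Fin m) :
    Wf a c (fun x => en (-1) (θ x) i j) fun t =>
      (if i = a ∨ i = c then (t i)⁻¹ else t i) * if j = a ∨ j = c then (t j)⁻¹ else t j := by
  refine ⟨fun x hx => ?_, fun t x ha hc hx => ?_⟩
  · obtain ⟨L, hL⟩ := en_clm (m := m) (b := false) (-1) i j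
    simp only [← hL]
    exact L.differentiableAt.comp x (hd x hx)
  rw [← en_st (-1) fun i => if i = a ∨ i = c then (t i)⁻¹ else t i]
  congr 1
  have c1 : Continuous fun s : ℂ => st (fun l => t l + if t l = 0 then s else 0) x :=
    cont_st _ (fun l => by split_ifs <;> fun_prop) x
  have c2 : Continuous fun s : ℂ => st (fun l => if l = a ∨ l = c then (t l)⁻¹ else
      t l + if t l = 0 then s else 0) (θ x) :=
    cont_st _ (fun l => by split_ifs <;> fun_prop) _
  have h1 : ContinuousAt θ (st (fun l => t l + if t l = 0 then (0 : ℂ) else 0) x) :=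
    (hd _ (by simpa [en_st, ha, hc] using hx)).continuousAt
  have h2 := (ContinuousAt.comp (f := fun s : ℂ => st (fun l => t l + if t l = 0 then s else 0) x)
    h1 c1.continuousAt).tendsto.mono_left (nhdsWithin_le_nhds (s := {0}ᶜ))
  have h3 := tendsto_nhds_unique_of_eventuallyEq h2
    ((c2.tendsto 0).mono_left (nhdsWithin_le_nhds (s := {0}ᶜ))) (by
      filter_upwards [self_mem_nhdsWithin] with s hs
      rw [Function.comp_apply, he _ x (fun l => by
        split_ifs with h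
        · simpa [h] using hs
        · simpa using h) hx]
      congr 1
      funext l
      by_cases h : l = a ∨ l = c
      · rcases h with rfl | rfl <;> simp [ha, hc]
      · simp [h])
  simpa using h3

theorem core (hac : a ≠ c) {θ : (Rt m false → ℂ) → Rt m false → ℂ}
    (hd : ∀ x, en (-1) x a c ≠ 0 → DifferentiableAt ℂ θ x)
    (hi : ∀ x x', en (-1) x a c ≠ 0 → en (-1) x' a c ≠ 0 → θ x = θ x' → x = x')
    (he : ∀ (t : Fin m → ℂ) x, (∀ i, t i ≠ 0) → en (-1) x a c ≠ 0 →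
      θ (st t x) = st (fun i => if i = a ∨ i = c then (t i)⁻¹ else t i) (θ x)) :
    ∃ k β γ : Fin m → Fin m → ℂ, (∀ e f, k e f ≠ 0) ∧ ∀ x, en (-1) x a c ≠ 0 →
      en (-1) (θ x) a c = k a c / en (-1) x a c ∧
      (∀ e, e ≠ a → e ≠ c → en (-1) (θ x) a e = k a e * en (-1) x c e / en (-1) x a c ∧
        en (-1) (θ x) c e = k c e * en (-1) x a e / en (-1) x a c) ∧
      ∀ e f, e ≠ a → e ≠ c → f ≠ a → f ≠ c → en (-1) (θ x) e f = k e f * en (-1) x e f +
        (β e f * (en (-1) x a e * en (-1) x c f) + γ e f * (en (-1) x a f * en (-1) x c e)) /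
          en (-1) x a c := by
  obtain ⟨k0, h0⟩ := two hac (by simpa using wf hd he a c)
  have e1 : ∀ e, ∃ k, e ≠ a → e ≠ c → ∀ x, en (-1) x a c ≠ 0 →
      en (-1) (θ x) a e = k * en (-1) x c e / en (-1) x a c := fun e => by
    by_cases h : e ≠ a ∧ e ≠ c
    · obtain ⟨k, hk⟩ := three hac h.1 h.2 (by simpa [h.1, h.2] using wf hd he a e)
      exact ⟨k, fun _ _ => hk⟩
    · exact ⟨0, fun h1 h2 => absurd ⟨h1, h2⟩ h⟩
  have e2 : ∀ e, ∃ k, e ≠ a → e ≠ c → ∀ x, en (-1) x a c ≠ 0 →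
      en (-1) (θ x) c e = k * en (-1) x a e / en (-1) x a c := fun e => by
    by_cases h : e ≠ a ∧ e ≠ c
    · have h1 : Wf a c (fun x => en (-1) (θ x) c e) fun t => (t c)⁻¹ * t e := by
        simpa [h.1, h.2] using wf hd he c e
      have h2 : ∀ x : Rt m false → ℂ, en (-1) x c a ≠ 0 → en (-1) x a c ≠ 0 := fun x hx => by
        rwa [skew, neg_ne_zero]
      obtain ⟨k, hk⟩ := three hac.symm h.2 h.1
        ⟨fun x hx => h1.hd x (h2 x hx), fun t x p q hx => h1.he t x q p (h2 x hx)⟩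
      refine ⟨-k, fun _ _ x hx => ?_⟩
      rw [hk x (by rwa [skew, neg_ne_zero]), skew x a c, neg_mul, div_neg, neg_div]
    · exact ⟨0, fun h1 h2 => absurd ⟨h1, h2⟩ h⟩
  have e3 : ∀ e f, ∃ k β γ, (e = f → k = 1) ∧ (e ≠ a → e ≠ c → f ≠ a → f ≠ c → ∀ x,
      en (-1) x a c ≠ 0 → en (-1) (θ x) e f = k * en (-1) x e f +
        (β * (en (-1) x a e * en (-1) x c f) + γ * (en (-1) x a f * en (-1) x c e)) /
          en (-1) x a c) := fun e f => by
    by_cases hef : e = f
    · exact ⟨1, 0, 0, fun _ => rfl, fun _ _ _ _ x _ => by simp [hef, diag]⟩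
    by_cases h : (e ≠ a ∧ e ≠ c) ∧ f ≠ a ∧ f ≠ c
    · obtain ⟨k, β, γ, hk⟩ := four hac h.1.1 h.1.2 h.2.1 h.2.2 hef
        (by simpa [h.1.1, h.1.2, h.2.1, h.2.2] using wf hd he e f)
      exact ⟨k, β, γ, fun h => absurd h hef, fun _ _ _ _ => hk⟩
    · exact ⟨0, 0, 0, fun h => absurd h hef, fun h1 h2 h3 h4 => absurd ⟨⟨h1, h2⟩, h3, h4⟩ h⟩
  choose k1 h1 using e1
  choose k2 h2 using e2
  choose k3 β γ h3 h4 using e3
  have w0 : en (-1) (El a c) a c ≠ 0 := by simp [en_El, hac]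
  have inj : ∀ i j, i ≠ j → en (-1) (El a c + El i j) a c ≠ 0 →
      θ (El a c + El i j) ≠ θ (El a c) := fun i j hij hw h => by
    have h5 := en_El i j i j
    rw [add_eq_left.1 (hi _ _ hw w0 h)] at h5
    simp [hij, en] at h5
  have n0 : k0 ≠ 0 := by
    rintro rfl
    have hw : en (-1) (El a c + El a c) a c ≠ 0 := by simp [en_add, en_El, hac]
    refine inj a c hac hw (ext4 (a := a) (c := c) ?_ (fun e p q => ?_) fun e f p q r s => ?_)
    · simp [h0 _ hw, h0 _ w0]
    · simp [h1 e p q _ hw, h1 e p q _ w0, h2 e p q _ hw, h2 e p q _ w0, en_add, en_El, p, q]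
    · simp [h4 e f p q r s _ hw, h4 e f p q r s _ w0, en_add, en_El, p, q, r, s]
  have n1 : ∀ g, g ≠ a → g ≠ c → k1 g ≠ 0 := by
    intro g ga gc hk
    have hw : en (-1) (El a c + El c g) a c ≠ 0 := by simp [en_add, en_El, hac, ga.symm]
    refine inj c g gc.symm hw (ext4 (a := a) (c := c) ?_ (fun e p q => ?_) fun e f p q r s => ?_)
    · simp [h0 _ hw, h0 _ w0, en_add, en_El, hac, ga.symm]
    · rw [h1 e p q _ hw, h1 e p q _ w0, h2 e p q _ hw, h2 e p q _ w0]
      by_cases h : e = g <;> simp [en_add, en_El, p, q, hac, ga, gc, ga.symm, gc.symm, h, hk]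
    · simp [h4 e f p q r s _ hw, h4 e f p q r s _ w0, en_add, en_El, p, q, r, s, hac, ga.symm]
  have n2 : ∀ g, g ≠ a → g ≠ c → k2 g ≠ 0 := by
    intro g ga gc hk
    have hw : en (-1) (El a c + El a g) a c ≠ 0 := by simp [en_add, en_El, hac, ga.symm, gc.symm]
    refine inj a g ga.symm hw (ext4 (a := a) (c := c) ?_ (fun e p q => ?_) fun e f p q r s => ?_)
    · simp [h0 _ hw, h0 _ w0, en_add, en_El, hac, ga.symm, gc.symm]
    · rw [h1 e p q _ hw, h1 e p q _ w0, h2 e p q _ hw, h2 e p q _ w0]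
      by_cases h : e = g <;>
        simp [en_add, en_El, p, q, hac.symm, ga, gc, ga.symm, gc.symm, h, hk]
    · simp [h4 e f p q r s _ hw, h4 e f p q r s _ w0, en_add, en_El, p, q, r, s, hac.symm, gc.symm]
  have n3 : ∀ g l, g ≠ a → g ≠ c → l ≠ a → l ≠ c → k3 g l ≠ 0 := by
    intro g l ga gc la lc hk
    have gl : g ≠ l := fun h => by
      rw [h3 g l h] at hk
      exact one_ne_zero hk
    have hw : en (-1) (El a c + El g l) a c ≠ 0 := by simp [en_add, en_El, hac, ga.symm, la.symm]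
    have k1 : en (-1) (θ (El a c + El g l)) g l = en (-1) (θ (El a c)) g l := by
      simp [h4 g l ga gc la lc _ hw, h4 g l ga gc la lc _ w0, en_add, en_El, hk, ga, gc, la, lc,
        ga.symm, gc.symm, la.symm, lc.symm]
    refine inj g l gl hw (ext4 (a := a) (c := c) ?_ (fun e p q => ?_) fun e f p q r s => ?_)
    · simp [h0 _ hw, h0 _ w0, en_add, en_El, hac, ga.symm, la.symm]
    · simp [h1 e p q _ hw, h1 e p q _ w0, h2 e p q _ hw, h2 e p q _ w0, en_add, en_El, p, q,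
        ga.symm, gc.symm, la.symm, lc.symm]
    · by_cases u : e = g ∧ f = l
      · rw [u.1, u.2, k1]
      by_cases v : e = l ∧ f = g
      · rw [v.1, v.2, skew, k1, ← skew]
      simp [h4 e f p q r s _ hw, h4 e f p q r s _ w0, en_add, en_El, p, q, r, s, u, v,
        ga.symm, gc.symm, la.symm, lc.symm]
  refine ⟨fun i j => if j = a then 1 else if j = c then k0 else if i = a then k1 j
    else if i = c then k2 j else k3 i j, β, γ, fun i j => ?_, fun x hx => ⟨?_, fun e p q => ?_,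
      fun e f p q r s => ?_⟩⟩
  · dsimp only
    split_ifs with p q r s
    exacts [one_ne_zero, n0, n1 j p q, n2 j p q, n3 i j r s p q]
  · simpa [hac.symm] using h0 x hx
  · simpa [p, q, hac.symm] using ⟨h1 e p q x hx, h2 e p q x hx⟩
  · simpa [p, q, r, s] using h4 e f p q r s x hx

end TR2B

open TR2B in
theorem st_TR2 : St_TR2 := by
  intro m d p Y _ _ _ ψ η hC o a c hac
  have eqv : ∀ (t : Fin m → ℂ) x y, (∀ i, t i ≠ 0) → ψ (fl o a c (Or.inr hac)) y = ψ o x →
      ψ (fl o a c (Or.inr hac)) (st (fun i => if i = a ∨ i = c then (t i)⁻¹ else t i) y) =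
        ψ o (st t x) := fun t x y ht h => by
    rw [eq_st hC.eq ht h.symm]
    congr 2
    funext i
    by_cases h1 : i = a ∨ i = c
    · rw [if_pos h1, if_neg (by rw [fl_eq]; tauto)]
    · rw [if_neg h1, if_pos (by rw [fl_eq]; tauto)]
  have mem : ∀ x, en (-1) x a c ≠ 0 → ψ o x ∈ range (ψ (fl o a c (Or.inr hac))) := by
    intro x hx
    obtain ⟨r, h1, h2, h3⟩ : ∃ r : Rt m false, nb o r = fl o a c (Or.inr hac) ∧ x r ≠ 0 ∧
        r.1.1 < r.1.2 := by
      rcases lt_or_gt_of_ne hac with h | h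
      · exact ⟨⟨(a, c), Or.inl h⟩, rfl, by rwa [← en_val (-1) x], h⟩
      · exact ⟨⟨(c, a), Or.inl h⟩, fl_comm _ _ _ _ _,
          by rwa [← en_val (-1) x, skew, neg_ne_zero], h⟩
    let u : ℂ → Fin m → ℂ := fun s i => if i = r.1.1 then (x r)⁻¹ else if i = r.1.2 then 1 else s
    have c1 : Continuous fun s => st (u s) x :=
      cont_st u (fun i => by dsimp only [u]; split_ifs <;> fun_prop) x
    have h4 : st (u 0) x = ax r 1 := by
      funext r'
      by_cases h : r' = r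
      · simp [st, ax, u, h, h3.ne', h2]
      · have h5 : r'.1.1 < r'.1.2 := r'.2.resolve_right (by simp)
        have h6 : ¬(r'.1.1 = r.1.1 ∧ r'.1.2 = r.1.2) := fun h' =>
          h (Subtype.ext (Prod.ext h'.1 h'.2))
        simp only [st, ax, u, if_neg h]
        split_ifs <;> first | omega | simp
    have h5 : ∀ᶠ s in 𝓝 (0 : ℂ), ψ o (st (u s) x) ∈ range (ψ (fl o a c (Or.inr hac))) :=
      (((hC.hol o).continuous.comp c1).tendsto 0).eventually ((hC.op _).mem_nhds (by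
        rw [Function.comp_apply, h4, ← h1]
        exact hC.edge o r))
    obtain ⟨s, ⟨y, hy⟩, hs⟩ :=
      ((h5.filter_mono nhdsWithin_le_nhds).and (self_mem_nhdsWithin (s := {0}ᶜ))).exists
    have h6 : ∀ i, u s i ≠ 0 := fun i => by
      dsimp only [u]
      split_ifs
      exacts [inv_ne_zero h2, one_ne_zero, hs]
    refine ⟨_, (eqv (fun i => (u s i)⁻¹) _ y (fun i => inv_ne_zero (h6 i)) hy).trans ?_⟩
    congr 1
    funext r'
    have := h6 r'.1.1
    have := h6 r'.1.2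
    simp only [st]
    field_simp
  have val : ∀ x, en (-1) x a c ≠ 0 →
      ψ (fl o a c (Or.inr hac)) (η (fl o a c (Or.inr hac)) (ψ o x)) = ψ o x := fun x hx => by
    obtain ⟨y, hy⟩ := mem x hx
    rw [← hy, hC.inv]
  obtain ⟨k, β, γ, h1, h2⟩ := core hac (θ := fun x => η (fl o a c (Or.inr hac)) (ψ o x))
    (fun x hx => by
      have h3 := hC.hi (fl o a c (Or.inr hac)) (η (fl o a c (Or.inr hac)) (ψ o x))
      rw [val x hx] at h3
      exact (h3.comp x (hC.hol o x)).differentiableAt)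
    (fun x x' hx hx' h => by
      have h3 : ψ o x = ψ o x' := by rw [← val x hx, ← val x' hx', h]
      rw [← hC.inv o x, h3, hC.inv])
    fun t x ht hx => by rw [← eqv t x _ ht (val x hx), hC.inv]
  exact ⟨k, β, γ, h1, fun x hx => ⟨_, val x hx, h2 x hx⟩⟩

end Pool.Agent.Lib.GU40
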