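import Pool.Agent.Lib.GU40.K28

/-! Project gu40, block TR3: the transition maps in the symmetric case. -/

open scoped Manifold ContDiff Topology
open Set Filter Complex

noncomputable section

namespace Pool.Agent.Lib.GU40

open Pool.Agent.Lib.GT40 (E)
open K28

namespace TR3B

theorem rt {A : ℂ} (hA : A ≠ 0) : ∃ w : ℂ, w ≠ 0 ∧ w * w = A := by
  obtain ⟨w, hw⟩ := IsAlgClosed.exists_eq_mul_self A
  exact ⟨w, fun e => hA (by rw [hw, e, mul_zero]), hw.symm⟩

/-- A function of two variables of degrees one and two, of degree two. -/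
theorem two (G : ℂ → ℂ → ℂ) (hc : ContinuousAt (fun v => G v 1) 0)
    (hd : Differentiable ℂ fun u => G 1 u)
    (hs : ∀ s v u, s ≠ 0 → G (s * v) (s * s * u) = s * s * G v u) (v u : ℂ) :
    G v u = G 0 1 * u + G 1 0 * (v * v) := by
  have dS : Differentiable ℂ (dslope (fun u => G 1 u) 0) :=
    differentiableOn_univ.1 ((differentiableOn_dslope univ_mem).2 hd.differentiableOn)
  have i0 : Tendsto (fun u : ℂ => u⁻¹) (cocompact ℂ) (𝓝 0) := by
    rw [← Metric.cobounded_eq_cocompact]
    exact tendsto_inv₀_cobounded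
  have n0 : ∀ᶠ u : ℂ in cocompact ℂ, u ≠ 0 := isCompact_singleton.compl_mem_cocompact
  choose r hr using fun u : ℂ => IsAlgClosed.exists_eq_mul_self u⁻¹
  have r0 : Tendsto r (cocompact ℂ) (𝓝 0) := by
    rw [tendsto_zero_iff_norm_tendsto_zero] at i0 ⊢
    have := i0.sqrt
    rw [Real.sqrt_zero] at this
    refine this.congr fun u => ?_
    rw [hr u, norm_mul, Real.sqrt_mul_self (norm_nonneg _)]
  have lim : Tendsto (dslope (fun u => G 1 u) 0) (cocompact ℂ) (𝓝 (G 0 1)) := by
    have h1 := (hc.tendsto.comp r0).sub (i0.mul_const (G 1 0))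
    rw [zero_mul, sub_zero] at h1
    refine h1.congr' (n0.mono fun u hu => ?_)
    have h2 := hs (r u) 1 u fun e => inv_ne_zero hu (by rw [hr u, e, mul_zero])
    rw [← hr u, mul_one, inv_mul_cancel₀ hu] at h2
    simp only [Function.comp, h2, dslope_of_ne _ hu, slope_def_field, sub_zero]
    field_simp
  have hG : ∀ u, G 1 u = G 1 0 + u * G 0 1 := fun u => by
    have h1 := sub_smul_dslope (fun u => G 1 u) 0 u
    rw [dS.apply_eq_of_tendsto_cocompact u lim, sub_zero, smul_eq_mul] at h1
    linear_combination -h1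
  by_cases hv : v = 0
  · by_cases hu : u = 0
    · have := hs 2 0 0 two_ne_zero
      rw [mul_zero, mul_zero] at this
      rw [hu, hv]
      linear_combination (-1 / 3 : ℂ) * this
    · obtain ⟨w, w0, hw⟩ := rt hu
      have := hs w 0 1 w0
      rw [mul_zero, mul_one, hw] at this
      rw [hv, this]
      ring
  · have := hs v 1 (u / (v * v)) hv
    rw [mul_one, mul_div_cancel₀ _ (mul_ne_zero hv hv), hG] at this
    rw [this]
    field_simp
    ring

variable {m : ℕ}

theorem enU (i j e f : Fin m) : en 1 (U i j : Rt m true → ℂ) e f =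
    if e = i ∧ f = j then 1 else if e = j ∧ f = i then 1 else 0 := en_U (Or.inl rfl) e f

theorem U_comm (i j : Fin m) : (U i j : Rt m true → ℂ) = U j i :=
  en_ext (δ := 1) fun e f => by
    rw [enU, enU]
    split_ifs <;> rfl

/-- A block of size two. -/
def q3 (a e : Fin m) (A B C : ℂ) : Rt m true → ℂ := A • U a a + B • U a e + C • U e e

/-- A block of size three. -/
def q6 (a e f : Fin m) (A B B' C C' D : ℂ) : Rt m true → ℂ :=
  A • U a a + B • U a e + B' • U a f + C • U e e + C' • U f f + D • U e f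

variable {a e f : Fin m}

theorem q3_aa (h : e ≠ a) (A B C : ℂ) : en 1 (q3 a e A B C) a a = A := by
  simp [q3, en_add, en_smul, enU, h.symm]

theorem q6_aa (h : e ≠ a) (h' : f ≠ a) (A B B' C C' D : ℂ) :
    en 1 (q6 a e f A B B' C C' D) a a = A := by
  simp [q6, en_add, en_smul, enU, h.symm, h'.symm]

theorem cut1 (x : Rt m true → ℂ) :
    st (fun i => if i = a then 1 else 0) x = en 1 x a a • U a a :=
  en_ext (δ := 1) fun i j => by
    by_cases h1 : i = a <;> by_cases h2 : j = a <;> simp [en_st, en_smul, enU, h1, h2]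

theorem cut3 (h : e ≠ a) (x : Rt m true → ℂ) : st (fun i => if i = a ∨ i = e then 1 else 0) x =
    q3 a e (en 1 x a a) (en 1 x a e) (en 1 x e e) :=
  en_ext (δ := 1) fun i j => by
    have := en_one_symm x a e
    simp only [q3, en_add, en_smul, en_st, enU]
    by_cases h1 : i = a <;> by_cases h2 : j = a <;> by_cases h3 : i = e <;> by_cases h4 : j = e <;>
      simp_all

theorem cut6 (h : e ≠ a) (h' : f ≠ a) (h'' : e ≠ f) (x : Rt m true → ℂ) :
    st (fun i => if i = a ∨ i = e ∨ i = f then 1 else 0) x =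
      q6 a e f (en 1 x a a) (en 1 x a e) (en 1 x a f) (en 1 x e e) (en 1 x f f) (en 1 x e f) :=
  en_ext (δ := 1) fun i j => by
    have s1 := en_one_symm x a e
    have s2 := en_one_symm x a f
    have s3 := en_one_symm x e f
    have n1 := h.symm
    have n2 := h'.symm
    have n3 := h''.symm
    simp only [q6, en_add, en_smul, en_st, enU]
    by_cases i1 : i = a
    · by_cases j1 : j = a
      · simp [*]
      · by_cases j2 : j = e
        · simp [*]
        · by_cases j3 : j = f <;> simp [*]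
    · by_cases i2 : i = e
      · by_cases j1 : j = a
        · simp [*]
        · by_cases j2 : j = e
          · simp [*]
          · by_cases j3 : j = f <;> simp [*]
      · by_cases i3 : i = f
        · by_cases j1 : j = a
          · simp [*]
          · by_cases j2 : j = e
            · simp [*]
            · by_cases j3 : j = f <;> simp [*]
        · simp [*]

theorem st3 (t : Fin m → ℂ) (A B C : ℂ) :
    st t (q3 a e A B C) = q3 a e (t a * t a * A) (t a * t e * B) (t e * t e * C) := by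
  simp only [q3, st_add, st_smul, st_U, smul_smul, mul_comm]

theorem st6 (t : Fin m → ℂ) (A B B' C C' D : ℂ) : st t (q6 a e f A B B' C C' D) =
    q6 a e f (t a * t a * A) (t a * t e * B) (t a * t f * B') (t e * t e * C) (t f * t f * C')
      (t e * t f * D) := by
  simp only [q6, st_add, st_smul, st_U, smul_smul, mul_comm]

variable {F : (Rt m true → ℂ) → ℂ}

theorem sh1 (hd : ∀ x, en 1 x a a ≠ 0 → DifferentiableAt ℂ F x)
    (hs : ∀ t x, (∀ i, t i ≠ 0) → en 1 x a a ≠ 0 → F (st t x) = (t a)⁻¹ * (t a)⁻¹ * F x)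
    {x : Rt m true → ℂ} (hx : en 1 x a a ≠ 0) : F x = F (U a a) / en 1 x a a := by
  obtain ⟨w, w0, hw⟩ := rt hx
  have h1 := hs (fun _ => w) (U a a) (fun _ => w0) (by simp [enU])
  rw [cut (· = a) (F := F) (x := x) (hd _ (by simpa [en_st] using hx)).continuousAt fun s s0 => by
    rw [hs _ x (fun i => by split_ifs <;> simp [s0]) hx]
    simp, cut1, ← hw, ← st_U (fun _ => w), h1]
  field_simp

theorem sh2 (h : e ≠ a) (hd : ∀ x, en 1 x a a ≠ 0 → DifferentiableAt ℂ F x)
    (hs : ∀ t x, (∀ i, t i ≠ 0) → en 1 x a a ≠ 0 → F (st t x) = (t a)⁻¹ * t e * F x)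
    {x : Rt m true → ℂ} (hx : en 1 x a a ≠ 0) :
    F x = F (U a a + U a e) * en 1 x a e / en 1 x a a := by
  have sc : ∀ r s A B C : ℂ, r ≠ 0 → s ≠ 0 → A ≠ 0 →
      F (q3 a e (r * r * A) (r * s * B) (s * s * C)) = r⁻¹ * s * F (q3 a e A B C) := by
    intro r s A B C hr hs' hA
    simpa [st3, h] using hs (fun i => if i = a then r else s) (q3 a e A B C)
      (fun i => by split_ifs <;> assumption) (by rwa [q3_aa h])
  have l1 : ∀ A B C : ℂ, A ≠ 0 →
      F (q3 a e A B C) = B * fderiv ℂ F (A • U a a) (U a e) := fun A B C hA => by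
    rw [deg1 (c := F (q3 a e A B C)) (v := B • U a e) (w := C • U e e)
      (hd (A • U a a) (by simpa [en_smul, enU] using hA)) fun s s0 => by
        simpa [q3, smul_smul] using sc 1 s A B C one_ne_zero s0 hA, map_smul, smul_eq_mul]
  obtain ⟨w, w0, hw⟩ := rt hx
  have h1 := sc w w⁻¹ 1 1 0 w0 (inv_ne_zero w0) one_ne_zero
  rw [mul_one, mul_one, mul_zero, mul_inv_cancel₀ w0, hw, l1 _ _ _ hx, one_mul] at h1
  rw [cut (fun i => i = a ∨ i = e) (F := F) (x := x)
    (hd _ (by simpa [en_st] using hx)).continuousAt fun s s0 => by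
      rw [hs _ x (fun i => by split_ifs <;> simp [s0]) hx]
      simp, cut3 h, l1 _ _ _ hx, h1, ← hw]
  simp only [q3, one_smul, zero_smul, add_zero]
  field_simp

theorem sh3 (h : e ≠ a) (hd : ∀ x, en 1 x a a ≠ 0 → DifferentiableAt ℂ F x)
    (hs : ∀ t x, (∀ i, t i ≠ 0) → en 1 x a a ≠ 0 → F (st t x) = t e * t e * F x)
    {x : Rt m true → ℂ} (hx : en 1 x a a ≠ 0) :
    F x = F (U a a + U e e) * en 1 x e e +
      F (U a a + U a e) * (en 1 x a e * en 1 x a e / en 1 x a a) := by
  have sc : ∀ r s A B C : ℂ, r ≠ 0 → s ≠ 0 → A ≠ 0 →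
      F (q3 a e (r * r * A) (r * s * B) (s * s * C)) = s * s * F (q3 a e A B C) := by
    intro r s A B C hr hs' hA
    simpa [st3, h] using hs (fun i => if i = a then r else s) (q3 a e A B C)
      (fun i => by split_ifs <;> assumption) (by rwa [q3_aa h])
  obtain ⟨w, w0, hw⟩ := rt hx
  have h1 := sc w w⁻¹ 1 1 0 w0 (inv_ne_zero w0) one_ne_zero
  have h2 := sc w 1 1 0 1 w0 one_ne_zero one_ne_zero
  simp only [mul_one, mul_zero, mul_inv_cancel₀ w0, hw, one_mul] at h1 h2
  have h3 := two (fun B C => F (q3 a e (en 1 x a a) B C))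
    (ContinuousAt.comp (f := fun B => q3 a e (en 1 x a a) B 1)
      (hd _ (by rwa [q3_aa h])).continuousAt (by unfold q3; fun_prop))
    (fun C => DifferentiableAt.comp (f := fun C => q3 a e (en 1 x a a) 1 C) C
      (hd _ (by rwa [q3_aa h])) (by unfold q3; fun_prop))
    (fun s B C s0 => by simpa using sc 1 s _ B C one_ne_zero s0 hx) (en 1 x a e) (en 1 x e e)
  rw [cut (fun i => i = a ∨ i = e) (F := F) (x := x)
    (hd _ (by simpa [en_st] using hx)).continuousAt fun s s0 => by
      rw [hs _ x (fun i => by split_ifs <;> simp [s0]) hx]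
      simp, cut3 h, h3, h1, h2, ← hw]
  simp only [q3, one_smul, zero_smul, add_zero]
  field_simp

theorem sh4 (h : e ≠ a) (h' : f ≠ a) (h'' : e ≠ f)
    (hd : ∀ x, en 1 x a a ≠ 0 → DifferentiableAt ℂ F x)
    (hs : ∀ t x, (∀ i, t i ≠ 0) → en 1 x a a ≠ 0 → F (st t x) = t e * t f * F x)
    {x : Rt m true → ℂ} (hx : en 1 x a a ≠ 0) :
    F x = F (U a a + U e f) * en 1 x e f +
      F (U a a + U a e + U a f) * (en 1 x a e * en 1 x a f / en 1 x a a) := by
  have sc : ∀ r s u A B B' C C' D : ℂ, r ≠ 0 → s ≠ 0 → u ≠ 0 → A ≠ 0 →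
      F (q6 a e f (r * r * A) (r * s * B) (r * u * B') (s * s * C) (u * u * C') (s * u * D)) =
        s * u * F (q6 a e f A B B' C C' D) := by
    intro r s u A B B' C C' D hr hs' hu hA
    simpa [st6, h, h', h''.symm] using hs (fun i => if i = a then r else if i = e then s else u)
      (q6 a e f A B B' C C' D) (fun i => by split_ifs <;> assumption) (by rwa [q6_aa h h'])
  have l1 : ∀ A B B' C C' D : ℂ, A ≠ 0 → F (q6 a e f A B B' C C' D) =
      B * fderiv ℂ F (q6 a e f A 0 B' 0 C' 0) (U a e) +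
        D * fderiv ℂ F (q6 a e f A 0 B' 0 C' 0) (U e f) := fun A B B' C C' D hA => by
    rw [deg1 (c := F (q6 a e f A B B' C C' D)) (v := B • U a e + D • U e f) (w := C • U e e)
      (hd (q6 a e f A 0 B' 0 C' 0) (by rwa [q6_aa h h'])) fun s s0 => by
        have := sc 1 s 1 A B B' C C' D one_ne_zero s0 one_ne_zero hA
        simp only [one_mul, mul_one] at this
        rw [← this]
        congr 1
        unfold q6
        module, map_add, map_smul, map_smul, smul_eq_mul, smul_eq_mul]
  have l2 : ∀ A B B' C C' D : ℂ, A ≠ 0 → F (q6 a e f A B B' C C' D) =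
      B' * fderiv ℂ F (q6 a e f A B 0 C 0 0) (U a f) +
        D * fderiv ℂ F (q6 a e f A B 0 C 0 0) (U e f) := fun A B B' C C' D hA => by
    rw [deg1 (c := F (q6 a e f A B B' C C' D)) (v := B' • U a f + D • U e f) (w := C' • U f f)
      (hd (q6 a e f A B 0 C 0 0) (by rwa [q6_aa h h'])) fun s s0 => by
        have := sc 1 1 s A B B' C C' D one_ne_zero one_ne_zero s0 hA
        simp only [one_mul, mul_one] at this
        rw [← this]
        congr 1
        unfold q6
        module, map_add, map_smul, map_smul, smul_eq_mul, smul_eq_mul]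
  obtain ⟨w, w0, hw⟩ := rt hx
  have h1 := sc w w⁻¹ w⁻¹ 1 1 1 0 0 0 w0 (inv_ne_zero w0) (inv_ne_zero w0) one_ne_zero
  have h2 := sc w 1 1 1 0 0 0 0 1 w0 one_ne_zero one_ne_zero one_ne_zero
  simp only [mul_one, mul_zero, mul_inv_cancel₀ w0, hw, one_mul] at h1 h2
  have e1 : F (U a a + U e f) = F (q6 a e f 1 0 0 0 0 1) := by simp [q6]
  have e2 : F (U a a + U a e + U a f) = F (q6 a e f 1 1 1 0 0 0) := by simp [q6]
  have e3 : w⁻¹ * w⁻¹ = (en 1 x a a)⁻¹ := by rw [← hw, mul_inv]
  rw [cut (fun i => i = a ∨ i = e ∨ i = f) (F := F) (x := x)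
    (hd _ (by simpa [en_st] using hx)).continuousAt fun s s0 => by
      rw [hs _ x (fun i => by split_ifs <;> simp [s0]) hx]
      simp, cut6 h h' h'', e1, e2, div_eq_mul_inv, ← e3, ← h2]
  generalize en 1 x a a = A at *
  generalize en 1 x a e = B
  generalize en 1 x a f = B'
  generalize en 1 x e e = C
  generalize en 1 x f f = C'
  generalize en 1 x e f = D
  have a1 := l1 A B B' C C' D hx
  have a2 := l1 A 1 B' 0 C' 0 hx
  have a3 := l1 A 0 B' 0 C' 1 hx
  have a4 := l1 A 0 1 0 0 0 hx
  have b1 := l2 A 1 B' 0 C' 0 hx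
  have b2 := l2 A 1 1 0 0 0 hx
  have b3 := l2 A 0 B' 0 C' 1 hx
  have b4 := l2 A 0 1 0 0 0 hx
  have b5 := l2 A 0 0 0 0 1 hx
  linear_combination a1 - B * a2 - D * a3 + B * b1 - B * B' * b2 + D * b3 - D * b5 +
    D * B' * (a4 - b4) + B * B' * h1

end TR3B

open TR3B

theorem st_TR3 : St_TR3 := by
  intro m d p Y _ _ _ ψ η h o a
  obtain ⟨th, h1, h2, h3⟩ := base h o a a (Or.inl rfl) (Or.inr rfl)
  simp only [dl, if_true, or_self] at h1 h2 h3
  have f1 : ∀ x, en 1 x a a ≠ 0 → en 1 (th x) a a = en 1 (th (U a a)) a a / en 1 x a a :=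
    fun x hx => sh1 (F := fun y => en 1 (th y) a a) (fun y hy => (h1 y hy).2 a a)
      (fun t y ht hy => by simpa using h3 t y ht hy a a) hx
  have f2 : ∀ x, en 1 x a a ≠ 0 → ∀ e, e ≠ a → en 1 (th x) a e =
      en 1 (th (U a a + U a e)) a e * en 1 x a e / en 1 x a a :=
    fun x hx e he => sh2 (F := fun y => en 1 (th y) a e) he (fun y hy => (h1 y hy).2 a e)
      (fun t y ht hy => by simpa [he] using h3 t y ht hy a e) hx
  have f3 : ∀ x, en 1 x a a ≠ 0 → ∀ e f, e ≠ a → f ≠ a → en 1 (th x) e f =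
      en 1 (th (U a a + U e f)) e f * en 1 x e f +
        en 1 (th (if e = f then U a a + U a e else U a a + U a e + U a f)) e f *
          (en 1 x a e * en 1 x a f / en 1 x a a) := fun x hx e f he hf => by
    split_ifs with c
    · subst c
      exact sh3 (F := fun y => en 1 (th y) e e) he (fun y hy => (h1 y hy).2 e e)
        (fun t y ht hy => by simpa [he] using h3 t y ht hy e e) hx
    · exact sh4 (F := fun y => en 1 (th y) e f) he hf c (fun y hy => (h1 y hy).2 e f)
        (fun t y ht hy => by simpa [he, hf] using h3 t y ht hy e f) hx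
  have inj : ∀ x y, en 1 x a a ≠ 0 → en 1 y a a ≠ 0 → en 1 (th x) a a = en 1 (th y) a a →
      (∀ e, e ≠ a → en 1 (th x) a e = en 1 (th y) a e) →
      (∀ e f, e ≠ a → f ≠ a → en 1 (th x) e f = en 1 (th y) e f) → x = y := by
    intro x y hx hy c1 c2 c3
    refine h2 x y hx hy (en_ext (δ := 1) fun e f => ?_)
    by_cases he : e = a <;> by_cases hf : f = a
    · rw [he, hf, c1]
    · rw [he, c2 f hf]
    · rw [hf, en_one_symm, c2 e he, en_one_symm]
    · exact c3 e f he hf
  have k1 : en 1 (th (U a a)) a a ≠ 0 := fun k => by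
    have x1 : en 1 (U a a : Rt m true → ℂ) a a ≠ 0 := by simp [enU]
    have x2 : en 1 ((2 : ℂ) • U a a : Rt m true → ℂ) a a ≠ 0 := by simp [en_smul, enU]
    have := congrArg (fun z => en 1 z a a) (inj _ _ x1 x2 (by rw [f1 _ x2, k, zero_div])
      (fun e he => by rw [f2 _ x1 e he, f2 _ x2 e he]; simp [en_smul, enU, he])
      fun e f he hf => by rw [f3 _ x1 e f he hf, f3 _ x2 e f he hf]; simp [en_smul, enU, he, hf])
    simp [en_smul, enU] at this
  have k2 : ∀ e, e ≠ a → en 1 (th (U a a + U a e)) a e ≠ 0 := fun e he k => by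
    have x1 : en 1 (q3 a e 1 1 0) a a ≠ 0 := by simp [q3_aa he]
    have x2 : en 1 (q3 a e 1 (-1) 0) a a ≠ 0 := by simp [q3_aa he]
    have he' := he.symm
    have := congrArg (fun z => en 1 z a e) (inj _ _ x1 x2
      (by rw [f1 _ x1, f1 _ x2, q3_aa he, q3_aa he])
      (fun f hf => by
        rw [f2 _ x1 f hf, f2 _ x2 f hf]
        by_cases c : f = e
        · rw [c, k]
          simp
        · simp only [q3, en_add, en_smul, enU]
          simp [*])
      fun f g hf hg => by
        rw [f3 _ x1 f g hf hg, f3 _ x2 f g hf hg]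
        simp only [q3, en_add, en_smul, enU]
        by_cases c : f = e <;> by_cases c' : g = e <;> simp [*])
    simp only [q3, en_add, en_smul, enU] at this
    simp [*] at this
    norm_num at this
  have k3 : ∀ e f, e ≠ a → f ≠ a → en 1 (th (U a a + U e f)) e f ≠ 0 := fun e f he hf k => by
    have he' := he.symm
    have hf' := hf.symm
    have x1 : en 1 (U a a : Rt m true → ℂ) a a ≠ 0 := by simp [enU]
    have x2 : en 1 (U a a + U e f : Rt m true → ℂ) a a = 1 := by simp [en_add, enU, *]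
    have x3 := x2.trans_ne one_ne_zero
    have := congrArg (fun z => en 1 z e f) (inj _ _ x1 x3 (by rw [f1 _ x3, x2, div_one])
      (fun g hg => by rw [f2 _ x1 g hg, f2 _ x3 g hg]; simp [en_add, enU, *])
      fun g i hg hi => by
        rw [f3 _ x1 g i hg hi, f3 _ x3 g i hg hi]
        by_cases c : g = e ∧ i = f
        · rw [c.1, c.2, k]
          simp [en_add, enU, *]
        · by_cases c' : g = f ∧ i = e
          · rw [c'.1, c'.2, U_comm f e, en_one_symm _ e f, k]
            simp [en_add, enU, *]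
          · simp [en_add, enU, *])
    simp [en_add, enU, *] at this
  refine ⟨fun e f => if e = a then (if f = a then en 1 (th (U a a)) a a else
    en 1 (th (U a a + U a f)) a f) else if f = a then 1 else en 1 (th (U a a + U e f)) e f,
    fun e f => en 1 (th (if e = f then U a a + U a e else U a a + U a e + U a f)) e f,
    fun e f => ?_, fun x hx => ⟨th x, (h1 x hx).1, by simpa using f1 x hx,
      fun e he => by simpa [he] using f2 x hx e he,
      fun e f he hf => by simpa only [if_neg he, if_neg hf] using f3 x hx e f he hf⟩⟩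
  beta_reduce
  split_ifs with c1 c2 c3
  exacts [k1, k2 f c2, one_ne_zero, k3 e f c1 c3]

end Pool.Agent.Lib.GU40
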