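import Pool.Agent.Lib.GU40.Blue

/-! Project gu40: the transition maps of the model. -/

open scoped Manifold ContDiff Topology Matrix
open Set Filter Metric Complex Sum

set_option linter.unusedVariables false
set_option linter.unusedSectionVars false

noncomputable section

namespace Pool.Agent.Lib.GU40

open Pool.Agent.Lib.GT40 (E V Gr Full Spans cx RAct Act Gm kp Mt)

namespace TRMB

variable {m : ℕ} {b : Bool} {p : ℤˣ}

theorem fv_eq (o : Fin m → ℤˣ) (a c e : Fin m) : fv o a c e = o e ↔ ¬(e = a ∨ e = c) := by
  by_cases h : e = a ∨ e = c
  · simp only [fv, h, if_true, neg_ne, not_true]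
  · simp only [fv, h, if_false, not_false_iff]

theorem sum_two (a c : Fin m) (f : Fin m → ℂ) :
    (∑ j, if j = a ∨ j = c then f j else 0) = f a + if a = c then 0 else f c := by
  by_cases h : a = c
  · subst h
    simp
  · have e : ∀ j, (if j = a ∨ j = c then f j else 0) =
        (if j = a then f j else 0) + if j = c then f j else 0 := fun j => by
      by_cases h1 : j = a
      · subst h1
        simp [h]
      · by_cases h2 : j = c
        · subst h2
          simp [h1]
        · simp [h1, h2]
    simp only [e, Finset.sum_add_distrib, Finset.sum_ite_eq', Finset.mem_univ, if_true, if_neg h]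

/-- The equations for a change of signs at `a` and `c`. -/
theorem flp (hF : St_FLP) {σ : GT40.Fr m m → V m m → Gr m m} (hσ : Gm σ) (o : Fin m → ℤˣ)
    (a c : Fin m) (x y : V m m) : σ (fr (fv o a c)) y = σ (fr o) x ↔ ∀ i l,
      (if l = a ∨ l = c then (if i = l then 1 else 0) else y i l) =
        (if i = a ∨ i = c then 0 else x i l) +
          (y i a * x a l + if a = c then 0 else y i c * x c l) := by
  rw [hF m σ hσ]
  simp only [fv_eq, sum_two, ite_not]

theorem sn_sq (o : Fin m → ℤˣ) (l : Fin m) : sn b o l * sn b o l = 1 := by
  unfold sn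
  split_ifs
  · simp
  · simp [dl_sq]

theorem sn_fv (o : Fin m → ℤˣ) (a c l : Fin m) :
    sn b (fv o a c) l = if l = a ∨ l = c then -dl b * sn b o l else sn b o l := by
  by_cases h : l = a ∨ l = c
  · rcases Int.units_eq_one_or (o l) with h1 | h1
    · simp [sn, fv, h, h1]
    · simp [sn, fv, h, h1, dl_sq]
  · simp [sn, fv, h]

theorem sn_true (o : Fin m → ℤˣ) (l : Fin m) : sn true o l = ((o l : ℤ) : ℂ) := by
  rcases Int.units_eq_one_or (o l) with h1 | h1 <;> simp [sn, dl, h1]

theorem sn_false (o : Fin m → ℤˣ) (l : Fin m) : sn false o l = 1 := by simp [sn, dl]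

theorem t3_symm (s : ℂ) (a : Fin m) {M : Fin m → Fin m → ℂ} (h : ∀ e f, M f e = M e f)
    (e f : Fin m) : t3 s a M f e = t3 s a M e f := by
  unfold t3
  split_ifs
  · rfl
  · rw [h]
  · rw [h]
  · rw [h e f, h a f, h e a, mul_comm]

theorem t2_skew {a c : Fin m} (hac : a ≠ c) {M : Fin m → Fin m → ℂ} (h : ∀ e f, M f e = -M e f)
    (e f : Fin m) : t2 a c M f e = -t2 a c M e f := by
  have hca := hac.symm
  by_cases h1 : e = a
  · subst h1
    by_cases h2 : f = e
    · simp [t2, h2]
    · by_cases h3 : f = c
      · simp [t2, h3, hca, neg_div]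
      · simp [t2, h2, h3, h c f, neg_div]
  · by_cases h2 : e = c
    · subst h2
      by_cases h3 : f = a
      · simp [t2, h3, hca, neg_div]
      · by_cases h4 : f = e
        · simp [t2, h4, hca]
        · simp [t2, h3, h4, hca, h a f, neg_div]
    · by_cases h3 : f = a
      · simp [t2, h1, h2, h3, h e c, neg_div]
      · by_cases h4 : f = c
        · simp [t2, h1, h2, h4, hca, h e a, neg_div]
        · simp only [t2, h1, h2, h3, h4, if_false, h e f, h a f, h c f, h e c, h e a]
          ring

theorem en_ax (r : Rt m b) (z : ℂ) (e f : Fin m) : en (dl b) (ax r z) e f =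
    if e = r.1.1 ∧ f = r.1.2 then z else if e = r.1.2 ∧ f = r.1.1 then dl b * z else 0 := by
  obtain ⟨⟨a, c⟩, hr⟩ := r
  unfold en
  split_ifs with h1 h2 h3 h4 h5 h6 h7 h8
  · simp [ax, h2.1, h2.2]
  · exfalso
    obtain ⟨rfl, rfl⟩ := h3
    dsimp only at h2 hr h1
    omega
  · have : ¬(e = a ∧ f = c) := h2
    simp [ax, this]
  · exfalso
    obtain ⟨rfl, rfl⟩ := h5
    exact h1 hr
  · simp [ax, h6.1, h6.2]
  · have : ¬(f = a ∧ e = c) := fun h => h6 ⟨h.2, h.1⟩
    simp [ax, this]
  · exfalso
    obtain ⟨rfl, rfl⟩ := h7
    exact h1 hr
  · exfalso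
    obtain ⟨rfl, rfl⟩ := h8
    dsimp only at hr h1 h4 h7
    rcases hr with hr | hr
    · exact h4 hr
    · exact h7 ⟨hr.2.symm, hr.2⟩
  · rfl

end TRMB

open TRMB in
theorem st_TRM (hF : St_FLP) : St_TRM := by
  intro m b p σ hσ
  refine ⟨fun o r x hr hx => ?_, fun o r x y hr h hx => ?_, fun o r => ?_, fun o r h => ?_⟩
  · rw [← en_val (dl b) x r] at hx
    obtain ⟨⟨a, c⟩, hac⟩ := r
    refine (flp hF hσ o.1 a c _ _).2 fun i l => ?_
    have hM := en_symm x
    cases b
    · have h1 : a ≠ c := by
        simp only [Bool.false_eq_true, false_and, or_false] at hac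
        exact hac.ne
      have hd : dl false = -1 := by simp [dl]
      have hM' : ∀ e f, en (dl false) x f e = -en (dl false) x e f := fun e f => by
        rw [hM, hd, neg_one_mul]
      have h0 : ∀ e, en (dl false) x e e = 0 := fun e => by
        linear_combination (1 / 2 : ℂ) * hM' e e
      have hN : ∀ e f, en (dl false) (tr o ⟨(a, c), hac⟩ x) e f = t2 a c (en (dl false) x) e f :=
        fun e f => en_mk (fun e f => by rw [hd, neg_one_mul, ← hd]; exact t2_skew h1 hM' e f) e f
      simp only [emb, sn_false, one_mul, hN, if_neg h1]
      dsimp only at hx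
      have h2 := h1.symm
      by_cases i1 : i = a
      · subst i1
        by_cases l1 : l = i
        · subst l1
          simp [t2, h2, hM' l c, hx, neg_div]
        · by_cases l2 : l = c
          · subst l2
            simp [t2, h1, h2, h0]
          · simp only [t2, l1, l2, h2, or_self, true_or, if_true, if_false]
            ring
      · by_cases i2 : i = c
        · subst i2
          by_cases l1 : l = a
          · subst l1
            simp [t2, h2, h0]
          · by_cases l2 : l = i
            · subst l2
              simp [t2, h2, hx]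
            · simp only [t2, l1, l2, h2, or_self, or_true, if_true, if_false]
              ring
        · by_cases l1 : l = a
          · subst l1
            simp only [t2, i1, i2, h2, h0, hM' l c, or_self, true_or, if_true, if_false]
            field_simp
            ring
          · by_cases l2 : l = c
            · subst l2
              simp only [t2, i1, i2, h2, h0, or_self, or_true, if_true, if_false]
              field_simp
              ring
            · simp only [t2, i1, i2, l1, l2, h2, or_self, if_true, if_false]
              ring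
    · obtain rfl : a = c := hr.resolve_left (by simp)
      have hd : dl true = 1 := by simp [dl]
      have hM' : ∀ e f, en (dl true) x f e = en (dl true) x e f := fun e f => by
        rw [hM, hd, one_mul]
      have hN : ∀ e f, en (dl true) (tr o ⟨(a, a), hac⟩ x) e f =
          t3 (sn true o.1 a) a (en (dl true) x) e f := fun e f => by
        rw [sn_true]
        exact en_mk (fun e f => by rw [hd, one_mul, ← hd]; exact t3_symm _ a hM' e f) e f
      have hs := sn_sq (b := true) o.1 a
      dsimp only at hx
      have hnb : (nb o ⟨(a, a), hac⟩).1 = fv o.1 a a := rfl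
      simp only [emb, hnb, sn_fv, hN, or_self, if_true, add_zero]
      generalize en (dl true) x = M at hx ⊢
      rw [hd]
      by_cases i1 : i = a
      · subst i1
        by_cases l1 : l = i
        · subst l1
          simp only [t3, if_true]
          field_simp
          linear_combination -hs
        · simp only [t3, l1, if_true, if_false]
          ring
      · by_cases l1 : l = a
        · subst l1
          simp only [t3, i1, if_true, if_false]
          field_simp
          linear_combination (sn true o.1 l * M i l) * hs
        · simp only [t3, i1, l1, if_true, if_false]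
          linear_combination (sn true o.1 l * M i a * M a l / M a a) * hs
  · rw [← en_val (dl b) x r] at hx
    obtain ⟨⟨a, c⟩, hac⟩ := r
    have h1 := (flp hF hσ o.1 a c _ _).1 h a a
    dsimp only at hx
    have h2 : en (dl b) x c a = 0 := by rw [en_symm, hx, mul_zero]
    have h3 : en (dl b) x a a = 0 := by
      rcases hr with rfl | hr
      · simp [en]
      · obtain rfl : a = c := hr
        exact hx
    simp [emb, h2, h3] at h1
  · have hs := sn_sq (b := b) o.1
    have hn : ∀ l, sn b o.1 l ≠ 0 := fun l h => by simpa [h] using hs l
    refine ⟨-(sn b o.1 r.1.1 * sn b o.1 r.1.2), neg_ne_zero.2 (mul_ne_zero (hn _) (hn _)),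
      fun z hz => (flp hF hσ o.1 r.1.1 r.1.2 _ _).2 fun i l => ?_⟩
    have hd := dl_sq b
    simp only [emb, en_ax]
    simp only [nb, fl, sn_fv]
    obtain ⟨⟨a, c⟩, hac⟩ := r
    dsimp only
    by_cases h1 : a = c
    · subst h1
      obtain rfl : b = true := by simpa using hac
      have hd : dl true = 1 := by simp [dl]
      by_cases i1 : i = a <;> by_cases l1 : l = a <;> simp [i1, l1, hd]
      field_simp
      linear_combination (-1 - sn true o.1 a ^ 2) * hs a
    · have h2 : c ≠ a := Ne.symm h1
      by_cases i1 : i = a
      · subst i1
        by_cases l1 : l = i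
        · subst l1
          simp [h1, h2]
          field_simp
          simp only [sq, hd, hs, mul_one]
        · by_cases l2 : l = c <;> simp [h1, h2, l1, l2]
      · by_cases i2 : i = c
        · subst i2
          by_cases l1 : l = a
          · simp [h1, h2, l1]
          · by_cases l2 : l = i
            · subst l2
              simp [h1, h2]
              field_simp
              simp only [sq, hd, hs, mul_one]
            · simp [h1, h2, l1, l2]
        · by_cases l1 : l = a
          · simp [h1, h2, l1, i1, i2]
          · by_cases l2 : l = c <;> simp [h1, h2, l1, l2, i1, i2]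
  · have h1 := (flp hF hσ o.1 r.1.1 r.1.2 _ _).1 h r.1.1 r.1.1
    have h0 : ∀ e f, en (dl b) (0 : Rt m b → ℂ) e f = 0 := fun e f => by
      simpa using en_smul (dl b) 0 (0 : Rt m b → ℂ) e f
    simp [emb, h0] at h1

end Pool.Agent.Lib.GU40
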