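import Pool.Agent.Lib.GU40.Blue
import Pool.Agent.Lib.GT40.All

/-! Project gu40, row ZER: the case of the zero form. -/

open scoped Manifold ContDiff Topology Matrix
open Set Filter Metric Complex Sum

set_option linter.unusedVariables false
set_option linter.unusedSectionVars false

noncomputable section

namespace Pool.Agent.Lib.GU40

open Pool.Agent.Lib.GT40 (E V Gr Full Spans Gm)

namespace ZERB

theorem pre {k q : ℕ} (hk : 0 < k) (hq : 0 < q) : PreconnectedSpace (Gr k q) := by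
  obtain ⟨p1, p2, -, -, -⟩ := GT40.st_PJ k q
  choose σ hσ using fun (o : GT40.Fr k q) x => (p1 _ (p2 o x).1).2.1
  have hG : Gm σ := ⟨fun o x => ((p1 _ (p2 o x).1).2.2 _).2 (hσ o x), hσ⟩
  have hM := (GT40.st_MOD GT40.st_PJ k q σ hG).1
  exact (GT40.GLUB.dense_rg GT40.st_GEN hk hq hM finSumFinEquiv).preconnectedSpace
    (hM.emb _).continuous

theorem all {k q d : ℕ} {Y : Type} [TopologicalSpace Y] [ChartedSpace (E d) Y]
    [IsManifold 𝓘(ℂ, E d) ω Y] (hk : 0 < k) (hq : 0 < q) (X : Set (Gr k q)) (hX : X = univ)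
    (Φ : X ≃ₜ Y) (h1 : Diffeo d Φ) (h2 : TorusHol d 0 Φ) : ∃ Ψ : X ≃ₜ Y, Bihol d Ψ := by
  subst hX
  have hB : Bas (univ : Set (Gr k q)) = {A | Full A} := Set.ext fun A =>
    ⟨fun h => h.1, fun h => ⟨h, ((GT40.st_PJ k q).1 A h).2.1.imp fun P hP =>
      ⟨mem_univ P, (((GT40.st_PJ k q).1 A h).2.2 P).2 hP⟩⟩⟩
  obtain ⟨⟨F, hF, hF'⟩, hS⟩ := h1
  obtain ⟨Ψ, ⟨G, hG, hG'⟩, hT⟩ := GT40.st_MAIN k q d Y ((Homeomorph.Set.univ _).symm.trans Φ) hk hq
    ⟨⟨F, hB ▸ hF, fun A P hA hP => hF' A ⟨P, mem_univ P⟩ hA hP⟩, hS⟩ fun θ =>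
      (h2 θ fun a b => by simp).imp fun f hf =>
        ⟨hf.1, fun P P' h => hf.2 ⟨P, mem_univ P⟩ ⟨P', mem_univ P'⟩ h⟩
  exact ⟨(Homeomorph.Set.univ _).trans Ψ, ⟨G, hB ▸ hG, fun A P hA hP => hG' A P.1 hA hP⟩, hT⟩

end ZERB

theorem st_ZER : St_ZER := by
  intro k q d P₀ Y _ _ _ Φ hk hq h1 h2
  have := ZERB.pre hk hq
  have hI : Iso (0 : Matrix (Fin (k + q)) (Fin (k + q)) ℂ) = univ := by
    ext P
    simp [Iso]
  exact ZERB.all hk hq _ (by
    rw [hI, connectedComponentIn_univ, PreconnectedSpace.connectedComponent_eq_univ]) Φ h1 h2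

end Pool.Agent.Lib.GU40
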