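import Pool.Agent.Lib.GU40.Blue

/-! Project gu40: the theorem from the blocks. -/

open scoped Manifold ContDiff Topology Matrix
open Set Filter Metric Complex Sum

set_option linter.unusedVariables false

noncomputable section

namespace Pool.Agent.Lib.GU40

open Pool.Agent.Lib.GT40 (E V Gr Full Spans cx RAct Act Gm kp Mt)

theorem cells (hACT : GT40.St_ACT) (hDJ : St_DJ) (hCEL : St_CEL) (hEDG : St_EDG) {ι R F : Type}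
    [Fintype ι] [Fintype R] [DecidableEq R] {d : ℕ} {Y : Type}
    [TopologicalSpace Y] [T2Space Y] [CompactSpace Y] [ChartedSpace (E d) Y]
    [IsManifold 𝓘(ℂ, E d) ω Y] {w : F → R → ι → ℤ} {nb : F → R → F} {s : F → (R → ℂ) → Y}
    {κ : F → Y → R → ℂ} {ρ : (ι → ℝ) → Y → Y} (hc : Cmb w nb) (h : Dat d w nb s κ ρ)
    (ho : ∀ o r, Ori d (s o) 0 (ax r 1) 1) :
    ∃ ψ η, Cell d w nb ψ η ∧ ∀ o, ψ o 0 = s o 0 := by
  obtain ⟨A, hA⟩ := hACT _ d Y ρ (hDJ ι R F d Y w nb s κ ρ h).1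
  choose ψ η hl using fun o => hCEL ι R F d Y w nb s κ ρ A hc h hA o (ho o)
  refine ⟨ψ, η, ⟨fun o => (hl o).hol, fun o => (hl o).inv, fun o => (hl o).op, fun o => (hl o).hi,
    fun τ o o' x x' e => ?_,
    fun o r => hEDG ι R F d Y w nb s κ ρ A o r _ _ _ _ hc h hA (hl o) (hl _)⟩,
    fun o => (hl o).zero⟩
  rw [← (hl o).eqv, ← (hl o').eqv, e]

theorem iso_case (hACT : GT40.St_ACT) (hPJ : GT40.St_PJ) (hDJ : St_DJ) (hSGN : St_SGN)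
    (hCEL : St_CEL) (hEDG : St_EDG) (hGLU : St_GLU) (hCMB : St_CMB) (hTR3 : St_TR3)
    (hTR2 : St_TR2) (hNR3 : St_NR3) (hNR2 : St_NR2) (hCOV : St_COV) (hMOD : St_MOD)
    (hDAT : St_DAT) (hFIN : St_FIN) {m d : ℕ} (b : Bool) (P₀ : Gr m m) {Y : Type}
    [TopologicalSpace Y] [ChartedSpace (E d) Y] [IsManifold 𝓘(ℂ, E d) ω Y]
    (Φ : connectedComponentIn (Iso (Fm m m (-dl b))) P₀ ≃ₜ Y) (hm : 0 < m)
    (h0 : P₀ ∈ Iso (Fm m m (-dl b))) {h : Y → HS.Mat d} (hK : GH.Kaehler h) (h1 : Diffeo d Φ)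
    (h2 : TorusHol d (Fm m m (-dl b)) Φ) :
    ∃ Ψ : connectedComponentIn (Iso (Fm m m (-dl b))) P₀ ≃ₜ Y, Bihol d Ψ := by
  obtain ⟨p1, p2, -, -, -⟩ := hPJ m m
  choose σ hσ using fun (o : GT40.Fr m m) x => (p1 _ (p2 o x).1).2.1
  have hG : Gm σ := ⟨fun o x => ((p1 _ (p2 o x).1).2.2 _).2 (hσ o x), hσ⟩
  obtain ⟨hcp, p, σ', hG2⟩ := hCOV m b σ P₀ hG h0
  have : T2Space Y := Φ.t2Space
  have : CompactSpace Y := Φ.compactSpace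
  obtain ⟨hC, hGen⟩ := hCMB m b p
  obtain ⟨hM, hO⟩ := hMOD m b p _ σ σ' hG2
  obtain ⟨κ, ρ, hD⟩ := hDAT m d b p Y _ σ σ' Φ hG2 h1 h2
  have hO' : Ov fun o x => Φ (σ' o x) := fun o o' => by
    have e : (fun x => Φ (σ' o x)) ⁻¹' range (fun x => Φ (σ' o' x)) = σ' o ⁻¹' range (σ' o') := by
      ext x
      simp
    rw [e]
    exact hO o o'
  obtain ⟨ψ, η, hc, hz⟩ : ∃ ψ η, Cell d wt nb ψ η ∧ ∀ o, ψ o 0 = Φ (σ' o 0) := by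
    rcases hSGN _ _ _ d Y _ _ _ κ ρ h hC hD hO' hK with ho | ho
    · exact cells hACT hDJ hCEL hEDG hC hD ho
    · obtain ⟨-, a, a'⟩ := hDJ _ _ _ d Y _ _ _ κ ρ hD
      obtain ⟨ψ, η, hc, hz⟩ := cells hACT hDJ hCEL hEDG hC a fun o r => a' o r (ho o r)
      exact ⟨ψ, η, hc, fun o => by rw [hz, star_zero]⟩
  obtain ⟨G, hN⟩ : ∃ G, Nrm nb Piv tr ψ G := by
    obtain ⟨o, -⟩ := hG2.cov ⟨P₀, mem_connectedComponentIn h0⟩
    cases b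
    · exact hNR2 m d p Y ψ η ⟨o⟩ hc (hTR2 m d p Y ψ η hc)
    · exact hNR3 m d p Y ψ η hm hc (hTR3 m d p Y ψ η hc)
  obtain ⟨φ, u, hu, hφ⟩ := hGLU _ _ _ d _ Y wt nb Piv tr σ' ψ η G hC hGen ⟨Φ⟩ hM hc hN
    fun o o' e => Φ.injective (by rw [← hz, ← hz, e])
  exact ⟨φ, hFIN m d b p Y _ σ σ' ψ η φ u hG2 hc hu hφ⟩

theorem fm_ne {m : ℕ} (hm : 0 < m) (ε : ℂ) : Fm m m ε ≠ 0 := fun h => by
  have := congrFun (congrFun h ⟨0, by omega⟩) ⟨m, by omega⟩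
  simp [Fm] at this

theorem main_of (hACT : GT40.St_ACT) (hPJ : GT40.St_PJ) (hDJ : St_DJ) (hSGN : St_SGN)
    (hCEL : St_CEL) (hEDG : St_EDG) (hGLU : St_GLU) (hCMB : St_CMB) (hTR3 : St_TR3)
    (hTR2 : St_TR2) (hNR3 : St_NR3) (hNR2 : St_NR2) (hCOV : St_COV) (hMOD : St_MOD)
    (hDAT : St_DAT) (hFIN : St_FIN) (hZER : St_ZER) : St_MAIN := by
  intro k q d S P₀ Y _ _ _ Φ hk hq hS h0 hK h1 h2
  rcases hS with rfl | ⟨rfl, hS⟩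
  · exact hZER k q d P₀ Y Φ hk hq h1 h2
  obtain ⟨b, rfl⟩ : ∃ b, S = Fm k k (-dl b) := by
    rcases hS with rfl | rfl
    · exact ⟨false, by simp [dl]⟩
    · exact ⟨true, by simp [dl]⟩
  obtain ⟨h, hh⟩ := hK (fm_ne hk _)
  exact iso_case hACT hPJ hDJ hSGN hCEL hEDG hGLU hCMB hTR3 hTR2 hNR3 hNR2 hCOV hMOD hDAT hFIN b
    P₀ Φ hk h0 hh h1 h2

end Pool.Agent.Lib.GU40
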