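import Pool.Agent.Lib.GT40.All
import Pool.Agent.Lib.GU40.Top
import Pool.Agent.Lib.GU40.B_CEL
import Pool.Agent.Lib.GU40.B_CMB
import Pool.Agent.Lib.GU40.B_CON
import Pool.Agent.Lib.GU40.B_COV
import Pool.Agent.Lib.GU40.B_DAT
import Pool.Agent.Lib.GU40.B_DJ
import Pool.Agent.Lib.GU40.B_EDG
import Pool.Agent.Lib.GU40.B_FIN
import Pool.Agent.Lib.GU40.B_FLP
import Pool.Agent.Lib.GU40.B_GLU
import Pool.Agent.Lib.GU40.B_KF
import Pool.Agent.Lib.GU40.B_MOD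
import Pool.Agent.Lib.GU40.B_MOM
import Pool.Agent.Lib.GU40.B_NR2
import Pool.Agent.Lib.GU40.B_NR3
import Pool.Agent.Lib.GU40.B_ORI
import Pool.Agent.Lib.GU40.B_POT
import Pool.Agent.Lib.GU40.B_SG1
import Pool.Agent.Lib.GU40.B_SGN
import Pool.Agent.Lib.GU40.B_TR2
import Pool.Agent.Lib.GU40.B_TR3
import Pool.Agent.Lib.GU40.B_TRM
import Pool.Agent.Lib.GU40.B_ZER

/-! Project gu40: the theorem. -/

open scoped Manifold ContDiff Topology Matrix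
open Set Filter Metric Complex Sum

set_option linter.unusedVariables false
set_option linter.unusedSectionVars false

noncomputable section

namespace Pool.Agent.Lib.GU40

open Pool.Agent.Lib.GT40 (E V Gr Full Spans cx RAct Act Gm kp Mt)

theorem iso_all {m d : ℕ} (b : Bool) (P₀ : Gr m m) {Y : Type}
    [TopologicalSpace Y] [ChartedSpace (E d) Y] [IsManifold 𝓘(ℂ, E d) ω Y]
    (Φ : connectedComponentIn (Iso (Fm m m (-dl b))) P₀ ≃ₜ Y) (hm : 0 < m)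
    (h0 : P₀ ∈ Iso (Fm m m (-dl b))) {h : Y → HS.Mat d} (hK : GH.Kaehler h) (h1 : Diffeo d Φ)
    (h2 : TorusHol d (Fm m m (-dl b)) Φ) :
    ∃ Ψ : connectedComponentIn (Iso (Fm m m (-dl b))) P₀ ≃ₜ Y, Bihol d Ψ := by
  have hACT := GT40.st_ACT GT40.st_ID GT40.st_LOC
  have hTRM := st_TRM st_FLP
  have hMOD := st_MOD st_CON hTRM
  obtain ⟨p1, p2, -, -, -⟩ := GT40.st_PJ m m
  choose σ hσ using fun (o : GT40.Fr m m) x => (p1 _ (p2 o x).1).2.1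
  have hG : Gm σ := ⟨fun o x => ((p1 _ (p2 o x).1).2.2 _).2 (hσ o x), hσ⟩
  obtain ⟨hcp, p, σ', hG2⟩ := st_COV st_CMB hTRM m b σ P₀ hG h0
  have : T2Space Y := Φ.t2Space
  have : CompactSpace Y := Φ.compactSpace
  obtain ⟨hC, hGen⟩ := st_CMB m b p
  obtain ⟨hM, hO⟩ := hMOD m b p _ σ σ' hG2
  obtain ⟨κ, ρ, hD⟩ := st_DAT hTRM hMOD m d b p Y _ σ σ' Φ hG2 h1 h2
  have hO' : Ov fun o x => Φ (σ' o x) := fun o o' => by
    have e : (fun x => Φ (σ' o x)) ⁻¹' range (fun x => Φ (σ' o' x)) = σ' o ⁻¹' range (σ' o') := by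
      ext x
      simp
    rw [e]
    exact hO o o'
  obtain ⟨ψ, η, hc, hz⟩ : ∃ ψ η, Cell d wt nb ψ η ∧ ∀ o, ψ o 0 = Φ (σ' o 0) := by
    rcases st_SGN st_ORI st_SG1 (st_MOM st_KF st_POT) _ _ _ d Y _ _ _ κ ρ h hC hD hO' hK with
      ho | ho
    · exact cells hACT st_DJ st_CEL st_EDG hC hD ho
    · obtain ⟨-, a, a'⟩ := st_DJ _ _ _ d Y _ _ _ κ ρ hD
      obtain ⟨ψ, η, hc, hz⟩ := cells hACT st_DJ st_CEL st_EDG hC a fun o r => a' o r (ho o r)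
      exact ⟨ψ, η, hc, fun o => by rw [hz, star_zero]⟩
  obtain ⟨G, hN⟩ : ∃ G, Nrm nb Piv tr ψ G := by
    obtain ⟨o, -⟩ := hG2.cov ⟨P₀, mem_connectedComponentIn h0⟩
    cases b
    · exact st_NR2 m d p Y ψ η ⟨o⟩ hc (st_TR2 m d p Y ψ η hc)
    · exact st_NR3 m d p Y ψ η hm hc (st_TR3 m d p Y ψ η hc)
  obtain ⟨φ, u, hu, hφ⟩ := st_GLU _ _ _ d _ Y wt nb Piv tr σ' ψ η G hC hGen ⟨Φ⟩ hM hc hN
    fun o o' e => Φ.injective (by rw [← hz, ← hz, e])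
  exact ⟨φ, st_FIN1 m d b p Y _ σ σ' ψ η φ u ⟨P₀, mem_connectedComponentIn h0⟩ hG2 hc hu hφ⟩

theorem st_MAIN : St_MAIN := by
  intro k q d S P₀ Y _ _ _ Φ hk hq hS h0 hK h1 h2
  rcases hS with rfl | ⟨rfl, hS⟩
  · exact st_ZER k q d P₀ Y Φ hk hq h1 h2
  obtain ⟨b, rfl⟩ : ∃ b, S = Fm k k (-dl b) := by
    rcases hS with rfl | rfl
    · exact ⟨false, by simp [dl]⟩
    · exact ⟨true, by simp [dl]⟩
  obtain ⟨h, hh⟩ := hK (fm_ne hk _)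
  exact iso_all b P₀ Φ hk h0 hh h1 h2

end Pool.Agent.Lib.GU40
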