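import Pool.Agent.Lib.GU40.B_FLP

/-! Project gu40: isotropic planes and cells. -/

open scoped Manifold ContDiff Topology Matrix
open Set Filter Metric Complex Sum

set_option linter.unusedVariables false
set_option linter.unusedSectionVars false

noncomputable section

namespace Pool.Agent.Lib.GU40

open Pool.Agent.Lib.GT40 (E V Gr Full Spans cx RAct Act Gm kp Mt)

namespace ISOB

section gen

variable {k q : ℕ}

theorem iso_iff (S : Matrix (Fin (k + q)) (Fin (k + q)) ℂ) {P : Gr k q}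
    {A : Fin (k + q) → Fin k → ℂ} (hA : Full A) (hP : Spans P A) :
    P ∈ Iso S ↔ (Matrix.of A)ᵀ * S * Matrix.of A = 0 := by
  constructor
  · intro h
    have h' : (Matrix.of P.1)ᵀ * S * Matrix.of P.1 = 0 := h
    unfold Spans at hP
    rw [← hP, Matrix.transpose_mul]
    calc (Matrix.of A)ᵀ * (Matrix.of P.1)ᵀ * S * (Matrix.of P.1 * Matrix.of A)
        = (Matrix.of A)ᵀ * ((Matrix.of P.1)ᵀ * S * Matrix.of P.1) * Matrix.of A := by
          simp only [Matrix.mul_assoc]
      _ = 0 := by rw [h', Matrix.mul_zero, Matrix.zero_mul]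
  · intro h
    change (Matrix.of P.1)ᵀ * S * Matrix.of P.1 = 0
    rw [((GT40.PJ.part1 A hA).2.2 P).1 hP, GT40.pj, Matrix.mul_assoc (Matrix.of A)]
    set H := ((Matrix.of A)ᴴ * Matrix.of A)⁻¹ * (Matrix.of A)ᴴ
    rw [Matrix.transpose_mul]
    calc Hᵀ * (Matrix.of A)ᵀ * S * (Matrix.of A * H)
        = Hᵀ * ((Matrix.of A)ᵀ * S * Matrix.of A) * H := by simp only [Matrix.mul_assoc]
      _ = 0 := by rw [h, Matrix.mul_zero, Matrix.zero_mul]

/-- A plane lies in a cell if and only if the corresponding minor of a basis is not zero. -/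
theorem rng_iff {σ : GT40.Fr k q → V k q → Gr k q} (hσ : Gm σ) (o : GT40.Fr k q) {P : Gr k q}
    {A : Fin (k + q) → Fin k → ℂ} (hA : Full A) (hP : Spans P A) :
    P ∈ range (σ o) ↔ ((Matrix.of A).submatrix (o ∘ inl) id).det ≠ 0 := by
  constructor
  · rintro ⟨y, rfl⟩
    have e : Matrix.of A = Matrix.of (Mt o y) * (Matrix.of A).submatrix (o ∘ inl) id := by
      ext a i
      rw [Matrix.mul_apply]
      exact GT40.MODB.fac (hσ.val o y) hP a i
    refine ((Matrix.isUnit_iff_isUnit_det _).1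
      (Matrix.mulVec_injective_iff_isUnit.1 fun v w h => hA ?_)).ne_zero
    rw [e, ← Matrix.mulVec_mulVec, ← Matrix.mulVec_mulVec, h]
  · intro h
    set B := (Matrix.of A).submatrix (o ∘ inl) id with hB
    refine ⟨fun i l => ∑ n, A (o (inr l)) n * B⁻¹ n i,
      FLPB.uniq hσ _ _ _ (GT40.MODB.sp_sum hP (fun n i => B⁻¹ n i) fun a i => ?_)⟩
    obtain ⟨c, rfl⟩ := o.surjective a
    rcases c with n | l
    · have := congrFun (congrFun (Matrix.mul_nonsing_inv B (isUnit_iff_ne_zero.2 h)) n) i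
      rw [Matrix.mul_apply, Matrix.one_apply] at this
      rw [GT40.MODB.mt_inl, ← this]
      rfl
    · rw [GT40.MODB.mt_inr]

end gen

variable {m : ℕ} {b : Bool}

theorem fm_val (ε : ℂ) (z z' : Fin m ⊕ Fin m) :
    Fm m m ε (finSumFinEquiv z) (finSumFinEquiv z') =
      Matrix.fromBlocks 0 1 (ε • (1 : Matrix (Fin m) (Fin m) ℂ)) 0 z z' := by
  rcases z with a | a <;> rcases z' with c | c <;>
    simp only [Fm, finSumFinEquiv_apply_right, finSumFinEquiv_apply_left, Matrix.of_apply,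
      Fin.val_natAdd, Fin.val_castAdd, Matrix.fromBlocks_apply₁₁, Matrix.fromBlocks_apply₁₂,
      Matrix.fromBlocks_apply₂₁, Matrix.fromBlocks_apply₂₂, Matrix.zero_apply, Matrix.smul_apply,
      Matrix.one_apply, Fin.ext_iff, smul_eq_mul, mul_ite, mul_one, mul_zero] <;>
    split_ifs <;> first | rfl | omega

theorem form {κ : Type} (ε : ℂ) (A : Fin (m + m) → κ → ℂ) (i j : κ) :
    ((Matrix.of A)ᵀ * Fm m m ε * Matrix.of A) i j =
      ∑ a, (A (finSumFinEquiv (inl a)) i * A (finSumFinEquiv (inr a)) j +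
        ε * (A (finSumFinEquiv (inr a)) i * A (finSumFinEquiv (inl a)) j)) := by
  simp only [Matrix.mul_apply, Matrix.transpose_apply, Matrix.of_apply]
  simp only [← (finSumFinEquiv (m := m) (n := m)).sum_comp, fm_val, Fintype.sum_sum_type]
  simp [Matrix.one_apply, Finset.sum_add_distrib, add_comm, mul_assoc, mul_left_comm]

theorem sn_sq (o : Fin m → ℤˣ) (l : Fin m) : sn b o l * sn b o l = 1 := by
  unfold sn
  split_ifs
  · simp
  · simp [dl_sq]

theorem form_mt (o : Fin m → ℤˣ) (x : V m m) (i j : Fin m) :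
    ((Matrix.of (Mt (fr o) x))ᵀ * Fm m m (-dl b) * Matrix.of (Mt (fr o) x)) i j =
      sn b o i * x j i - dl b * (sn b o j * x i j) := by
  rw [form]
  have e : ∀ a, Mt (fr o) x (finSumFinEquiv (inl a)) i * Mt (fr o) x (finSumFinEquiv (inr a)) j +
      -dl b * (Mt (fr o) x (finSumFinEquiv (inr a)) i * Mt (fr o) x (finSumFinEquiv (inl a)) j) =
      (if a = i then sn b o a * x j a else 0) - if a = j then dl b * (sn b o a * x i a) else 0 := by
    intro a
    have h1 := fr_inl o a
    have h2 := fr_inr o a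
    by_cases h : o a = 1
    · rw [if_pos h] at h1 h2
      rw [← h1, ← h2]
      simp only [GT40.MODB.mt_inl, GT40.MODB.mt_inr, sn, h, if_true]
      split_ifs <;> ring
    · rw [if_neg h] at h1 h2
      rw [← h1, ← h2]
      simp only [GT40.MODB.mt_inl, GT40.MODB.mt_inr, sn, h, if_false]
      have := dl_sq b
      split_ifs
      · linear_combination (-x i a) * this
      · linear_combination (-x i a) * this
      · ring
      · ring
  simp only [e, Finset.sum_sub_distrib, Finset.sum_ite_eq', Finset.mem_univ, if_true]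

theorem emb_iff (o : Fin m → ℤˣ) (x : V m m) :
    (∃ z : Rt m b → ℂ, emb o z = x) ↔ ∀ i j, sn b o i * x j i = dl b * (sn b o j * x i j) := by
  constructor
  · rintro ⟨z, rfl⟩ i j
    simp only [emb, ← mul_assoc, sn_sq, one_mul]
    exact en_symm z i j
  · intro h
    refine ⟨mk fun i l => sn b o l * x i l, ?_⟩
    funext i l
    rw [emb, en_mk fun a c => h a c, ← mul_assoc, sn_sq, one_mul]

theorem cover {ε : ℂ} (hε : ε ≠ 0) {A : Fin (m + m) → Fin m → ℂ} (hA : Full A)
    (h : (Matrix.of A)ᵀ * Fm m m ε * Matrix.of A = 0) :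
    ∃ o, ((Matrix.of A).submatrix (fr o ∘ inl) id).det ≠ 0 := by
  classical
  obtain ⟨s, hs, hm⟩ :=
    exists_maximal_linearIndepOn ℂ fun a : Fin m => A (finSumFinEquiv (inl a))
  refine ⟨fun a => if a ∈ s then 1 else -1, ((Matrix.isUnit_iff_isUnit_det _).1
    (Matrix.mulVec_injective_iff_isUnit.1 fun v w hvw => ?_)).ne_zero⟩
  set u := v - w with hu
  have h0 : ∀ a, A (fr (fun a => if a ∈ s then 1 else -1) (inl a)) ⬝ᵥ u = 0 := fun a => by
    have := congrFun hvw a
    rw [hu, dotProduct_sub, sub_eq_zero]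
    exact this
  have h1 : ∀ a ∈ s, A (finSumFinEquiv (inl a)) ⬝ᵥ u = 0 := fun a ha => by
    have := h0 a
    rwa [fr_inl, if_pos (if_pos ha)] at this
  have h2 : ∀ a ∉ s, A (finSumFinEquiv (inr a)) ⬝ᵥ u = 0 := fun a ha => by
    have := h0 a
    rwa [fr_inl, if_neg (by rw [if_neg ha]; decide)] at this
  have h3 : ∀ a, A (finSumFinEquiv (inl a)) ⬝ᵥ u = 0 := fun a => by
    by_cases ha : a ∈ s
    · exact h1 a ha
    obtain ⟨c, hc, hsp⟩ := hm a ha
    have : ∀ y ∈ Submodule.span ℂ ((fun a : Fin m => A (finSumFinEquiv (inl a))) '' s),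
        y ⬝ᵥ u = 0 := fun y hy => by
      induction hy using Submodule.span_induction with
      | mem y hy =>
        obtain ⟨a, ha, rfl⟩ := hy
        exact h1 a ha
      | zero => exact zero_dotProduct u
      | add y z _ _ e1 e2 => rw [add_dotProduct, e1, e2, add_zero]
      | smul t y _ e1 => rw [smul_dotProduct, e1, smul_zero]
    have := this _ hsp
    rw [smul_dotProduct, smul_eq_mul] at this
    exact (mul_eq_zero.1 this).resolve_left hc
  have h4 : ∑ a, (A (finSumFinEquiv (inr a)) ⬝ᵥ u) • A (finSumFinEquiv (inl a)) = 0 := by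
    funext j
    have e : ∑ i, ((Matrix.of A)ᵀ * Fm m m ε * Matrix.of A) i j * u i = 0 := by simp [h]
    simp only [form, Finset.sum_mul] at e
    rw [Finset.sum_comm] at e
    have e2 : ∀ a : Fin m, ∑ i, (A (finSumFinEquiv (inl a)) i * A (finSumFinEquiv (inr a)) j +
        ε * (A (finSumFinEquiv (inr a)) i * A (finSumFinEquiv (inl a)) j)) * u i =
        (A (finSumFinEquiv (inl a)) ⬝ᵥ u) * A (finSumFinEquiv (inr a)) j +
          ε * ((A (finSumFinEquiv (inr a)) ⬝ᵥ u) * A (finSumFinEquiv (inl a)) j) := fun a => by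
      simp only [dotProduct, Finset.sum_mul, Finset.mul_sum, ← Finset.sum_add_distrib]
      exact Finset.sum_congr rfl fun i _ => by ring
    simp only [e2, h3, zero_mul, zero_add, ← Finset.mul_sum] at e
    simpa only [Finset.sum_apply, Pi.smul_apply, smul_eq_mul, Pi.zero_apply] using
      (mul_eq_zero.1 e).resolve_left hε
  have h5 : ∀ a, A (finSumFinEquiv (inr a)) ⬝ᵥ u = 0 := fun a => by
    by_cases ha : a ∈ s
    · refine linearIndepOn_iff'.1 hs (Finset.univ.filter (· ∈ s))
        (fun a => A (finSumFinEquiv (inr a)) ⬝ᵥ u) (fun c hc => by simpa using hc) ?_ a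
        (by simpa using ha)
      rw [← h4]
      refine Finset.sum_subset (Finset.filter_subset _ _) fun c _ hc => ?_
      rw [h2 c (by simpa using hc), zero_smul]
    · exact h2 a ha
  refine hA ?_
  rw [← sub_eq_zero, ← Matrix.mulVec_sub, ← hu]
  funext a
  obtain ⟨c, rfl⟩ := finSumFinEquiv.surjective a
  rcases c with c | c
  · exact h3 c
  · exact h5 c

theorem dl_ne (b : Bool) : dl b ≠ 0 := by cases b <;> simp [dl]

end ISOB

open ISOB in
theorem st_ISO : St_ISO := by
  intro m b σ hσ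
  refine ⟨fun o x => ?_, fun P hP => ?_⟩
  · rw [iso_iff _ (GT40.PJ.full_Mt _ x) (hσ.sp _ x), emb_iff, ← Matrix.ext_iff]
    simp only [form_mt, Matrix.zero_apply, sub_eq_zero]
  · obtain ⟨o, x, rfl⟩ := (GT40.st_MOD GT40.st_PJ m m σ hσ).1.cov P
    obtain ⟨o', ho'⟩ := cover (neg_ne_zero.2 (dl_ne b)) (GT40.PJ.full_Mt o x)
      ((iso_iff _ (GT40.PJ.full_Mt o x) (hσ.sp o x)).1 hP)
    exact ⟨o', (rng_iff hσ _ (GT40.PJ.full_Mt o x) (hσ.sp o x)).2 ho'⟩

end Pool.Agent.Lib.GU40
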