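import Pool.Agent.Lib.GU40.B_ISO

/-! Project gu40: the cells of the model. -/

open scoped Manifold ContDiff Topology Matrix
open Set Filter Metric Complex Sum

set_option linter.unusedVariables false
set_option linter.unusedSectionVars false

noncomputable section

namespace Pool.Agent.Lib.GU40

open Pool.Agent.Lib.GT40 (E V Gr Full Spans cx RAct Act Gm kp Mt)

namespace MODB

variable {m : ℕ} {b : Bool} {p : ℤˣ}

theorem diff_emb (o : Fin m → ℤˣ) (i l : Fin m) :
    Differentiable ℂ fun x : Rt m b → ℂ => emb o x i l := by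
  obtain ⟨L, hL⟩ := en_clm (m := m) (b := b) (dl b) i l
  simp only [emb, ← hL]
  exact L.differentiable.const_mul _

theorem cont_emb (o : Fin m → ℤˣ) : Continuous (emb o : (Rt m b → ℂ) → V m m) :=
  continuous_pi fun i => continuous_pi fun l => (diff_emb o i l).continuous

theorem left_emb (o : Fin m → ℤˣ) (x : Rt m b → ℂ) :
    (mk fun i l => sn b o l * emb o x i l) = x := by
  simp only [emb, ← mul_assoc, ISOB.sn_sq, one_mul]
  exact mk_en _ x

theorem emb_emb (o : Fin m → ℤˣ) : Topology.IsEmbedding (emb o : (Rt m b → ℂ) → V m m) := by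
  refine Function.LeftInverse.isEmbedding
    (f := fun y : V m m => (mk fun i l => sn b o l * y i l : Rt m b → ℂ)) (left_emb o) ?_
    (cont_emb o)
  refine continuous_pi fun r => ?_
  simp only [mk]
  fun_prop

theorem diff_mt (o : Fin m → ℤˣ) (a : Fin (m + m)) (i : Fin m) :
    Differentiable ℂ fun x : Rt m b → ℂ => Mt (fr o) (emb o x) a i := by
  obtain ⟨c, rfl⟩ := (fr o).surjective a
  rcases c with n | l
  · simp only [GT40.MODB.mt_inl]
    exact differentiable_const _
  · simp only [GT40.MODB.mt_inr]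
    exact diff_emb o i l

theorem diff_det (o o' : Fin m → ℤˣ) : Differentiable ℂ fun x : Rt m b → ℂ =>
    ((Matrix.of (Mt (fr o) (emb o x))).submatrix (fr o' ∘ inl) id).det := by
  simp only [Matrix.det_apply', Matrix.submatrix_apply, Matrix.of_apply, id]
  refine Differentiable.fun_sum fun s _ => Differentiable.const_mul ?_ _
  exact fun x => (HasFDerivAt.finsetProd
    (g := fun i (x : Rt m b → ℂ) => Mt (fr o) (emb o x) ((fr o' ∘ inl) (s i)) i)
    fun i _ => (diff_mt o _ i x).hasFDerivAt).differentiableAt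

theorem range_eq {X : Set (Gr m m)} {σ : GT40.Fr m m → V m m → Gr m m}
    {σ' : Fs m b p → (Rt m b → ℂ) → X} (h : Gm2 X σ σ') (o : Fs m b p) :
    range (σ' o) = Subtype.val ⁻¹' range (σ (fr o.1)) := by
  ext P
  constructor
  · rintro ⟨x, rfl⟩
    exact ⟨_, (h.val o x).symm⟩
  · rintro ⟨y, hy⟩
    obtain ⟨z, rfl⟩ := ((st_ISO m b σ h.gm).1 o.1 y).1 (hy ▸ h.iso P.2)
    exact ⟨z, Subtype.ext ((h.val o z).trans hy)⟩

end MODB

open MODB in
theorem st_MOD (hCON : St_CON) (hTRM : St_TRM) : St_MOD := by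
  intro m b p X σ σ' h
  have hM := (GT40.st_MOD GT40.st_PJ m m σ h.gm).1
  obtain ⟨t1, t2, -⟩ := hTRM m b p σ h.gm
  refine ⟨⟨fun o => ⟨?_, ?_⟩, h.cov, fun o r x hr hx => Subtype.ext ?_, fun o r x hr hx => ?_,
    fun τ o o' x x' e => Subtype.ext ?_⟩, fun o o' => ?_⟩
  · have e : Subtype.val ∘ σ' o = σ (fr o.1) ∘ emb o.1 := funext fun x => h.val o x
    refine (Topology.IsEmbedding.subtypeVal.of_comp_iff).1 ?_
    rw [e]
    exact (hM.emb _).isEmbedding.comp (emb_emb o.1)
  · rw [range_eq h]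
    exact (hM.emb _).isOpen_range.preimage continuous_subtype_val
  · rw [h.val, h.val]
    exact t1 o r x hr hx
  · rw [range_eq h] at hx
    obtain ⟨y, hy⟩ := hx
    exact t2 o r x y hr (hy.trans (h.val o x))
  · rw [h.val, h.val, emb_sg, emb_sg]
    refine hM.eq _ _ _ _ _ (GT40.ex_ne _) ?_
    rw [← h.val, ← h.val, e]
  · have e : σ' o ⁻¹' range (σ' o') = {x | ((Matrix.of (Mt (fr o.1) (emb o.1 x))).submatrix
        (fr o'.1 ∘ inl) id).det ≠ 0} := by
      ext x
      rw [range_eq h, mem_preimage, mem_preimage, h.val, mem_ofPred_eq]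
      exact ISOB.rng_iff h.gm _ (GT40.PJ.full_Mt _ _) (h.gm.sp _ _)
    rw [e]
    exact hCON _ _ (diff_det o.1 o'.1)

end Pool.Agent.Lib.GU40
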