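import Pool.Agent.Lib.GU40.SDefs
import Pool.Agent.Lib.GT40.Blue

/-! Project gu40: objects, statements and a small kit. -/

open scoped Manifold ContDiff Topology Matrix
open Set Filter Metric Complex Sum

set_option linter.unusedVariables false
set_option linter.unusedSectionVars false

noncomputable section

namespace Pool.Agent.Lib.GU40

open Pool.Agent.Lib.GT40 (E V Gr Full Spans cx RAct Act Gm kp Mt)

section gen

variable {ι R F : Type} [Fintype ι] [Fintype R] [DecidableEq R]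

/-- The character with weight `w`. -/
def chi (w : ι → ℤ) (τ : ι → ℂ) : ℂ := exp (I * ∑ a, (w a : ℂ) * τ a)

/-- The action on coordinates. -/
def sg (w : R → ι → ℤ) (τ : ι → ℂ) (x : R → ℂ) : R → ℂ := fun r => chi (w r) τ * x r

/-- The axis. -/
def ax (r : R) (z : ℂ) : R → ℂ := fun r' => if r' = r then z else 0

/-- The combinatorics of weights and neighbours. -/
structure Cmb (w : F → R → ι → ℤ) (nb : F → R → F) : Prop where
  sep : ∀ o r r', r' ≠ r → ∃ θ : ι → ℝ, chi (w o r) (cx θ) = 1 ∧ chi (w o r') (cx θ) ≠ 1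
  nz : ∀ o r, ∃ a, w o r a ≠ 0
  con : ∀ o s, s ≠ 0 → ∃ τ, ∀ r, chi (w o r) τ = s
  opp : ∀ o r, w (nb o r) r = -w o r
  tri : ∀ p : F → R → Prop, (∀ o r, p o r → p (nb o r) r) →
    (∀ o r r' r'' (ξ : ι → ℤ), nb (nb o r) r'' = nb o r' → 0 < w o r ⬝ᵥ ξ → 0 < w o r' ⬝ᵥ ξ →
      w (nb o r) r'' ⬝ᵥ ξ = 0 → p o r → p o r') → ∀ o r o' r', p o r → p o' r'

/-- Frames are connected by moves along pivots. -/
def Gen (nb : F → R → F) (Piv : R → Prop) : Prop :=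
  ∀ p : F → Prop, (∀ o r, Piv r → p o → p (nb o r)) → ∀ o o', p o → p o'

/-- The overlaps of cells are connected and dense. -/
def Ov {Y : Type} (s : F → (R → ℂ) → Y) : Prop := ∀ o o',
  IsPreconnected (s o ⁻¹' range (s o')) ∧
    ((s o ⁻¹' range (s o')).Nonempty → Dense (s o ⁻¹' range (s o')))

/-- The axis is a sphere that joins two vertices. -/
def Edge {Y : Type} (nb : F → R → F) (s : F → (R → ℂ) → Y) : Prop :=
  (∀ o r, ∃ c : ℂ, c ≠ 0 ∧ ∀ z, z ≠ 0 → s (nb o r) (ax r (c / z)) = s o (ax r z)) ∧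
    ∀ o r, s (nb o r) 0 ≠ s o 0

/-- The rotation with integer speeds. -/
def rot (n : R → ℤ) (θ : ℝ) (x : R → ℂ) : R → ℂ := fun r => exp (I * (n r * θ)) * x r

variable (d : ℕ) {Y : Type} [TopologicalSpace Y] [ChartedSpace (E d) Y]

/-- Smooth cells with an action of the torus by holomorphic maps. -/
structure Dat (w : F → R → ι → ℤ) (nb : F → R → F) (s : F → (R → ℂ) → Y) (κ : F → Y → R → ℂ)
    (ρ : (ι → ℝ) → Y → Y) : Prop where
  sm : ∀ o, ContMDiff 𝓘(ℝ, R → ℂ) 𝓘(ℝ, E d) ∞ (s o)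
  inv : ∀ o x, κ o (s o x) = x
  smi : ∀ o x, ContMDiffAt 𝓘(ℝ, E d) 𝓘(ℝ, R → ℂ) ∞ (κ o) (s o x)
  op : ∀ o, IsOpen (range (s o))
  cov : ∀ y, ∃ o, y ∈ range (s o)
  eqv : ∀ θ o x, ρ θ (s o x) = s o (sg (w o) (cx θ) x)
  hol : ∀ θ, MDifferentiable 𝓘(ℂ, E d) 𝓘(ℂ, E d) (ρ θ)
  edge : Edge nb s

/-- The real differential, read in the chart at the image point. -/
def Dv (s : (R → ℂ) → Y) (x : R → ℂ) : (R → ℂ) →L[ℝ] E d := fderiv ℝ (chartAt (E d) (s x) ∘ s) x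

/-- The image of the complex line of `v` is a complex line, with orientation `ε`. -/
def Ori (s : (R → ℂ) → Y) (x v : R → ℂ) (ε : ℝ) : Prop :=
  ∃ a b : ℝ, 0 < ε * b ∧ I • Dv d s x v = a • Dv d s x v + b • Dv d s x (I • v)

/-- The pull-back of the fundamental form of a Hermitian metric. -/
def Om (h : Y → HS.Mat d) (s : (R → ℂ) → Y) (x v v' : R → ℂ) : ℝ :=
  (star (Dv d s x v) ⬝ᵥ h (s x) *ᵥ Dv d s x v').im

/-- An equivariant holomorphic cell centred at `p`. -/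
structure Cl (A : (ι → ℂ) → Y → Y) (w : R → ι → ℤ) (p : Y) (ψ : (R → ℂ) → Y) (η : Y → R → ℂ) :
    Prop where
  hol : MDifferentiable 𝓘(ℂ, R → ℂ) 𝓘(ℂ, E d) ψ
  zero : ψ 0 = p
  inv : ∀ x, η (ψ x) = x
  op : IsOpen (range ψ)
  hi : ∀ x, MDifferentiableAt 𝓘(ℂ, E d) 𝓘(ℂ, R → ℂ) η (ψ x)
  eqv : ∀ τ x, A τ (ψ x) = ψ (sg w τ x)

/-- A system of holomorphic cells. -/
structure Cell (w : F → R → ι → ℤ) (nb : F → R → F) (ψ : F → (R → ℂ) → Y) (η : F → Y → R → ℂ) :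
    Prop where
  hol : ∀ o, MDifferentiable 𝓘(ℂ, R → ℂ) 𝓘(ℂ, E d) (ψ o)
  inv : ∀ o x, η o (ψ o x) = x
  op : ∀ o, IsOpen (range (ψ o))
  hi : ∀ o x, MDifferentiableAt 𝓘(ℂ, E d) 𝓘(ℂ, R → ℂ) (η o) (ψ o x)
  eq : ∀ τ o o' x x', ψ o x = ψ o' x' → ψ o (sg (w o) τ x) = ψ o' (sg (w o') τ x')
  edge : ∀ o r, ψ o (ax r 1) ∈ range (ψ (nb o r))

/-- Moment functions on the cells. -/
structure Mom (w : F → R → ι → ℤ) (s : F → (R → ℂ) → Y) (κ : F → Y → R → ℂ) (ξ : ι → ℤ)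
    (H : F → (R → ℂ) → ℝ) : Prop where
  glue : ∀ o o', IsPreconnected (s o ⁻¹' range (s o')) →
    ∃ c, ∀ x, s o x ∈ range (s o') → H o x = H o' (κ o' (s o x)) + c
  up : ∀ o r u (ε : ℝ), (∀ z, Ori d (s o) (ax r z) (ax r 1) ε) → u ≠ 0 →
    0 < ε * (w o r ⬝ᵥ ξ : ℤ) → H o 0 < H o (ax r u)
  down : ∀ o r u (ε : ℝ), (∀ z, Ori d (s o) (ax r z) (ax r 1) ε) → u ≠ 0 →
    ε * (w o r ⬝ᵥ ξ : ℤ) < 0 → H o (ax r u) < H o 0
  flat : ∀ o r u, w o r ⬝ᵥ ξ = 0 → H o (ax r u) = H o 0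

end gen

section gen2

variable {ι R F : Type} [Fintype ι] [Fintype R] [DecidableEq R]

/-- A class of scalings that make the transition maps standard. -/
structure Nrm {Y : Type} (nb : F → R → F) (Piv : R → Prop) (tr : F → R → (R → ℂ) → R → ℂ)
    (ψ : F → (R → ℂ) → Y) (G : F → (R → ℂ) → Prop) : Prop where
  ex : ∃ o u, G o u
  ne : ∀ o u, G o u → ∀ r, u r ≠ 0
  step : ∀ o u r, Piv r → G o u → ∃ u', G (nb o r) u' ∧
    ∀ x, x r ≠ 0 → ψ (nb o r) (u' * tr o r x) = ψ o (u * x)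

/-- The cells of the model, as a topological space. -/
structure Mod {X : Type} [TopologicalSpace X] (w : F → R → ι → ℤ) (nb : F → R → F)
    (Piv : R → Prop) (tr : F → R → (R → ℂ) → R → ℂ) (σ : F → (R → ℂ) → X) : Prop where
  emb : ∀ o, Topology.IsOpenEmbedding (σ o)
  cov : ∀ P, ∃ o, P ∈ range (σ o)
  tr : ∀ o r x, Piv r → x r ≠ 0 → σ (nb o r) (tr o r x) = σ o x
  mem : ∀ o r x, Piv r → σ o x ∈ range (σ (nb o r)) → x r ≠ 0
  eq : ∀ τ o o' x x', σ o x = σ o' x' → σ o (sg (w o) τ x) = σ o' (sg (w o') τ x')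

end gen2

section spec

/-- Indices of coordinates: pairs `a < c`, and pairs `a = c` in the symmetric case. -/
abbrev Rt (m : ℕ) (b : Bool) : Type := {p : Fin m × Fin m // p.1 < p.2 ∨ (b = true ∧ p.1 = p.2)}

/-- Frames: sign vectors, with a fixed product in the skew case. -/
abbrev Fs (m : ℕ) (b : Bool) (p : ℤˣ) : Type := {o : Fin m → ℤˣ // b = true ∨ ∏ a, o a = p}

variable {m : ℕ} {b : Bool} {p : ℤˣ}

/-- The symmetry of the coordinates. -/
def dl (b : Bool) : ℂ := if b = true then 1 else -1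

/-- The matrix of a vector of coordinates. -/
def en (δ : ℂ) (x : Rt m b → ℂ) (a c : Fin m) : ℂ :=
  if h : a < c ∨ (b = true ∧ a = c) then x ⟨(a, c), h⟩
  else if h : c < a then δ * x ⟨(c, a), Or.inl h⟩ else 0

/-- The coordinates of a matrix. -/
def mk (M : Fin m → Fin m → ℂ) : Rt m b → ℂ := fun r => M r.1.1 r.1.2

/-- Change of the signs at `a` and `c`. -/
def fv (o : Fin m → ℤˣ) (a c : Fin m) : Fin m → ℤˣ := fun e => if e = a ∨ e = c then -o e else o e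

theorem prod_fv (o : Fin m → ℤˣ) {a c : Fin m} (h : a ≠ c) : ∏ e, fv o a c e = ∏ e, o e := by
  have e1 : ∀ e, fv o a c e = (if e = a then -1 else 1) * ((if e = c then -1 else 1) * o e) := by
    intro e
    by_cases h1 : e = a
    · subst h1
      simp [fv, h]
    · by_cases h2 : e = c
      · subst h2
        simp [fv, h1]
      · simp [fv, h1, h2]
  simp only [e1, Finset.prod_mul_distrib, Finset.prod_ite_eq', Finset.mem_univ, if_true]
  simp

/-- The frame with the signs at `a` and `c` changed. -/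
def fl (o : Fs m b p) (a c : Fin m) (h : b = true ∨ a ≠ c) : Fs m b p :=
  ⟨fv o.1 a c, h.elim Or.inl fun h => o.2.imp id fun h' => (prod_fv o.1 h).trans h'⟩

/-- The neighbour of a frame. -/
def nb (o : Fs m b p) (r : Rt m b) : Fs m b p :=
  fl o r.1.1 r.1.2 (r.2.elim (fun h => Or.inr h.ne) fun h => Or.inl h.1)

/-- The weights. -/
def wt (o : Fs m b p) (r : Rt m b) : Fin m → ℤ := fun e =>
  (if e = r.1.1 then (o.1 e : ℤ) else 0) + if e = r.1.2 then (o.1 e : ℤ) else 0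

/-- The pivots. -/
def Piv (r : Rt m b) : Prop := b = false ∨ r.1.1 = r.1.2

/-- The transition map in the symmetric case. -/
def t3 (s : ℂ) (a : Fin m) (M : Fin m → Fin m → ℂ) : Fin m → Fin m → ℂ := fun e f =>
  if e = a then (if f = a then -1 / M a a else s * M a f / M a a)
  else if f = a then s * M e a / M a a else M e f - M e a * M a f / M a a

/-- The transition map in the skew case. -/
def t2 (a c : Fin m) (M : Fin m → Fin m → ℂ) : Fin m → Fin m → ℂ := fun e f =>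
  if e = a then (if f = a then 0 else if f = c then -1 / M a c else -M c f / M a c)
  else if e = c then (if f = a then 1 / M a c else if f = c then 0 else M a f / M a c)
  else if f = a then -M e c / M a c else if f = c then M e a / M a c
  else M e f + (M e a * M c f - M e c * M a f) / M a c

/-- The transition maps. -/
def tr (o : Fs m b p) (r : Rt m b) (x : Rt m b → ℂ) : Rt m b → ℂ :=
  mk (if b = true then t3 ((o.1 r.1.1 : ℤ) : ℂ) r.1.1 (en (dl b) x) else t2 r.1.1 r.1.2 (en (dl b) x))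

/-- The exchange of the two copies of the indices with negative sign. -/
def sv (o : Fin m → ℤˣ) (z : Fin m ⊕ Fin m) : Fin m ⊕ Fin m :=
  if o (z.elim id id) = 1 then z else z.swap

theorem sv_sv (o : Fin m → ℤˣ) : Function.Involutive (sv o) := by
  rintro (a | a) <;> by_cases h : o a = 1 <;> simp [sv, h]

/-- The frame of the Grassmannian attached to a sign vector. -/
def fr (o : Fin m → ℤˣ) : GT40.Fr m m := (sv_sv o).toPerm.trans finSumFinEquiv

/-- The value of the form on a pair of basis vectors. -/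
def sn (b : Bool) (o : Fin m → ℤˣ) (l : Fin m) : ℂ := if o l = 1 then 1 else -dl b

/-- Coordinates in the cell of the Grassmannian. -/
def emb (o : Fin m → ℤˣ) (x : Rt m b → ℂ) : V m m := fun i l => sn b o l * en (dl b) x i l

/-- The shape of the transition maps in the symmetric case. -/
def Trn3 {Y : Type} (ψ : Fs m true p → (Rt m true → ℂ) → Y) : Prop :=
  ∀ o a, ∃ k β : Fin m → Fin m → ℂ, (∀ e f, k e f ≠ 0) ∧ ∀ x, en 1 x a a ≠ 0 →
    ∃ y, ψ (fl o a a (Or.inl rfl)) y = ψ o x ∧ en 1 y a a = k a a / en 1 x a a ∧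
      (∀ e, e ≠ a → en 1 y a e = k a e * en 1 x a e / en 1 x a a) ∧
      ∀ e f, e ≠ a → f ≠ a →
        en 1 y e f = k e f * en 1 x e f + β e f * (en 1 x a e * en 1 x a f / en 1 x a a)

/-- The shape of the transition maps in the skew case. -/
def Trn2 {Y : Type} (ψ : Fs m false p → (Rt m false → ℂ) → Y) : Prop :=
  ∀ o a c (h : a ≠ c), ∃ k β γ : Fin m → Fin m → ℂ, (∀ e f, k e f ≠ 0) ∧
    ∀ x, en (-1) x a c ≠ 0 → ∃ y, ψ (fl o a c (Or.inr h)) y = ψ o x ∧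
      en (-1) y a c = k a c / en (-1) x a c ∧
      (∀ e, e ≠ a → e ≠ c → en (-1) y a e = k a e * en (-1) x c e / en (-1) x a c ∧
        en (-1) y c e = k c e * en (-1) x a e / en (-1) x a c) ∧
      ∀ e f, e ≠ a → e ≠ c → f ≠ a → f ≠ c → en (-1) y e f = k e f * en (-1) x e f +
        (β e f * (en (-1) x a e * en (-1) x c f) + γ e f * (en (-1) x a f * en (-1) x c e)) /
          en (-1) x a c

/-- The cells of a component of the space of isotropic planes. -/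
structure Gm2 (X : Set (Gr m m)) (σ : GT40.Fr m m → V m m → Gr m m)
    (σ' : Fs m b p → (Rt m b → ℂ) → X) : Prop where
  gm : Gm σ
  val : ∀ o x, (σ' o x).1 = σ (fr o.1) (emb o.1 x)
  cov : ∀ P, ∃ o, P ∈ range (σ' o)
  iso : X ⊆ Iso (Fm m m (-dl b))

end spec

/-! ### Statements -/

/-- The orientation of a complex line does not depend on the vector. -/
def St_ORI : Prop := ∀ (R : Type) [Fintype R] [DecidableEq R] (d : ℕ) (Y : Type)
  [TopologicalSpace Y] [ChartedSpace (E d) Y] (s : (R → ℂ) → Y) (x v : R → ℂ) (ε : ℝ) (μ : ℂ),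
  μ ≠ 0 → Ori d s x v ε → Ori d s x (μ • v) ε

/-- The real action, and the conjugate data. -/
def St_DJ : Prop := ∀ (ι R F : Type) [Fintype ι] [Fintype R] [DecidableEq R] (d : ℕ) (Y : Type)
  [TopologicalSpace Y] [ChartedSpace (E d) Y] [IsManifold 𝓘(ℂ, E d) ω Y] (w : F → R → ι → ℤ)
  (nb : F → R → F) (s : F → (R → ℂ) → Y) (κ : F → Y → R → ℂ) (ρ : (ι → ℝ) → Y → Y),
  Dat d w nb s κ ρ → RAct d ρ ∧
    Dat d w nb (fun o x => s o (star x)) (fun o y => star (κ o y)) (fun θ => ρ (-θ)) ∧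
    ∀ o r, Ori d (s o) 0 (ax r 1) (-1) → Ori d (fun x => s o (star x)) 0 (ax r 1) 1

/-- The orientation is constant along an axis; the differential is bijective. -/
def St_SG1 : Prop := ∀ (ι R F : Type) [Fintype ι] [Fintype R] [DecidableEq R] (d : ℕ) (Y : Type)
  [TopologicalSpace Y] [ChartedSpace (E d) Y] [IsManifold 𝓘(ℂ, E d) ω Y] (w : F → R → ι → ℤ)
  (nb : F → R → F) (s : F → (R → ℂ) → Y) (κ : F → Y → R → ℂ) (ρ : (ι → ℝ) → Y → Y),
  Cmb w nb → Dat d w nb s κ ρ → (∀ o x, Function.Bijective (Dv d (s o) x)) ∧ ∀ o r,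
    ((∀ z, Ori d (s o) (ax r z) (ax r 1) 1) ∨ ∀ z, Ori d (s o) (ax r z) (ax r 1) (-1)) ∧
    ∀ z, ¬(Ori d (s o) (ax r z) (ax r 1) 1 ∧ Ori d (s o) (ax r z) (ax r 1) (-1))

/-- The pull-back of a Kähler form is a closed form. -/
def St_KF : Prop := ∀ (R : Type) [Fintype R] [DecidableEq R] (d : ℕ) (Y : Type)
  [TopologicalSpace Y] [ChartedSpace (E d) Y] [IsManifold 𝓘(ℂ, E d) ω Y] (h : Y → HS.Mat d)
  (s : (R → ℂ) → Y), GH.Kaehler h → ContMDiff 𝓘(ℝ, R → ℂ) 𝓘(ℝ, E d) ∞ s →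
  ∃ Ω : (R → ℂ) → (R → ℂ) →L[ℝ] (R → ℂ) →L[ℝ] ℝ, ContDiff ℝ 1 Ω ∧
    (∀ x v v', Ω x v v' = Om d h s x v v') ∧ (∀ x v v', Ω x v v' = -Ω x v' v) ∧
    ∀ x u v v', fderiv ℝ Ω x u v v' + fderiv ℝ Ω x v v' u + fderiv ℝ Ω x v' u v = 0

/-- The potential of the averaged contraction of a closed form with a rotation field. -/
def St_POT : Prop := ∀ (R : Type) [Fintype R] [DecidableEq R] (n : R → ℤ)
  (Ω : (R → ℂ) → (R → ℂ) →L[ℝ] (R → ℂ) →L[ℝ] ℝ), ContDiff ℝ 1 Ω →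
  (∀ x v v', Ω x v v' = -Ω x v' v) →
  (∀ x u v v', fderiv ℝ Ω x u v v' + fderiv ℝ Ω x v v' u + fderiv ℝ Ω x v' u v = 0) →
  ∃ (H : (R → ℂ) → ℝ) (L : (R → ℂ) → (R → ℂ) →L[ℝ] ℝ), ∀ x, HasFDerivAt H (L x) x ∧ ∀ v,
    L x v = ∫ θ in (0 : ℝ)..2 * Real.pi,
      Ω (rot n θ x) (rot n θ v) fun r => I * n r * rot n θ x r

/-- Moment functions exist. -/
def St_MOM : Prop := ∀ (ι R F : Type) [Fintype ι] [Fintype R] [DecidableEq R] (d : ℕ) (Y : Type)
  [TopologicalSpace Y] [ChartedSpace (E d) Y] [IsManifold 𝓘(ℂ, E d) ω Y] (w : F → R → ι → ℤ)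
  (nb : F → R → F) (s : F → (R → ℂ) → Y) (κ : F → Y → R → ℂ) (ρ : (ι → ℝ) → Y → Y)
  (h : Y → HS.Mat d) (ξ : ι → ℤ), Cmb w nb → Dat d w nb s κ ρ → GH.Kaehler h →
  ∃ H, Mom d w s κ ξ H

/-- All orientations agree. -/
def St_SGN : Prop := ∀ (ι R F : Type) [Fintype ι] [Fintype R] [DecidableEq R] (d : ℕ) (Y : Type)
  [TopologicalSpace Y] [ChartedSpace (E d) Y] [IsManifold 𝓘(ℂ, E d) ω Y] (w : F → R → ι → ℤ)
  (nb : F → R → F) (s : F → (R → ℂ) → Y) (κ : F → Y → R → ℂ) (ρ : (ι → ℝ) → Y → Y)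
  (h : Y → HS.Mat d), Cmb w nb → Dat d w nb s κ ρ → Ov s → GH.Kaehler h →
  (∀ o r, Ori d (s o) 0 (ax r 1) 1) ∨ ∀ o r, Ori d (s o) 0 (ax r 1) (-1)

/-- The cell at a vertex. -/
def St_CEL : Prop := ∀ (ι R F : Type) [Fintype ι] [Fintype R] [DecidableEq R] (d : ℕ) (Y : Type)
  [TopologicalSpace Y] [T2Space Y] [ChartedSpace (E d) Y] [IsManifold 𝓘(ℂ, E d) ω Y]
  (w : F → R → ι → ℤ) (nb : F → R → F) (s : F → (R → ℂ) → Y) (κ : F → Y → R → ℂ)
  (ρ : (ι → ℝ) → Y → Y) (A : (ι → ℂ) → Y → Y), Cmb w nb → Dat d w nb s κ ρ → Act d ρ A →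
  ∀ o, (∀ r, Ori d (s o) 0 (ax r 1) 1) → ∃ ψ η, Cl d A (w o) (s o 0) ψ η

/-- The axis of a cell meets the neighbouring cell. -/
def St_EDG : Prop := ∀ (ι R F : Type) [Fintype ι] [Fintype R] [DecidableEq R] (d : ℕ) (Y : Type)
  [TopologicalSpace Y] [T2Space Y] [ChartedSpace (E d) Y] [IsManifold 𝓘(ℂ, E d) ω Y]
  (w : F → R → ι → ℤ) (nb : F → R → F) (s : F → (R → ℂ) → Y) (κ : F → Y → R → ℂ)
  (ρ : (ι → ℝ) → Y → Y) (A : (ι → ℂ) → Y → Y) (o : F) (r : R) (ψ ψ' : (R → ℂ) → Y)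
  (η η' : Y → R → ℂ), Cmb w nb → Dat d w nb s κ ρ → Act d ρ A → Cl d A (w o) (s o 0) ψ η →
  Cl d A (w (nb o r)) (s (nb o r) 0) ψ' η' → ψ (ax r 1) ∈ range ψ'

/-- Gluing. -/
def St_GLU : Prop := ∀ (ι R F : Type) [Fintype ι] [Fintype R] [DecidableEq R] [Finite F] (d : ℕ)
  (X Y : Type) [TopologicalSpace X] [CompactSpace X] [TopologicalSpace Y] [T2Space Y]
  [ChartedSpace (E d) Y] (w : F → R → ι → ℤ) (nb : F → R → F) (Piv : R → Prop)
  (tr : F → R → (R → ℂ) → R → ℂ) (σ : F → (R → ℂ) → X) (ψ : F → (R → ℂ) → Y)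
  (η : F → Y → R → ℂ) (G : F → (R → ℂ) → Prop), Cmb w nb → Gen nb Piv → Nonempty (X ≃ₜ Y) →
  Mod w nb Piv tr σ → Cell d w nb ψ η → Nrm nb Piv tr ψ G →
  (∀ o o', ψ o 0 = ψ o' 0 → σ o 0 = σ o' 0) →
  ∃ (φ : X ≃ₜ Y) (u : F → R → ℂ), (∀ o r, u o r ≠ 0) ∧ ∀ o x, φ (σ o x) = ψ o (u o * x)

/-- The complement of the zero set of an entire function. -/
def St_CON : Prop := ∀ (R : Type) [Fintype R] (f : (R → ℂ) → ℂ), Differentiable ℂ f →
  IsPreconnected {x | f x ≠ 0} ∧ ({x | f x ≠ 0}.Nonempty → Dense {x | f x ≠ 0})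

/-- The combinatorics of sign vectors. -/
def St_CMB : Prop := ∀ (m : ℕ) (b : Bool) (p : ℤˣ),
  Cmb (wt : Fs m b p → Rt m b → Fin m → ℤ) nb ∧ Gen (nb : Fs m b p → Rt m b → Fs m b p) Piv

/-- The transition maps are forced by the weights, symmetric case. -/
def St_TR3 : Prop := ∀ (m d : ℕ) (p : ℤˣ) (Y : Type) [TopologicalSpace Y] [ChartedSpace (E d) Y]
  [IsManifold 𝓘(ℂ, E d) ω Y] (ψ : Fs m true p → (Rt m true → ℂ) → Y)
  (η : Fs m true p → Y → Rt m true → ℂ), Cell d wt nb ψ η → Trn3 ψ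

/-- The transition maps are forced by the weights, skew case. -/
def St_TR2 : Prop := ∀ (m d : ℕ) (p : ℤˣ) (Y : Type) [TopologicalSpace Y] [ChartedSpace (E d) Y]
  [IsManifold 𝓘(ℂ, E d) ω Y] (ψ : Fs m false p → (Rt m false → ℂ) → Y)
  (η : Fs m false p → Y → Rt m false → ℂ), Cell d wt nb ψ η → Trn2 ψ

/-- Normalisation, symmetric case. -/
def St_NR3 : Prop := ∀ (m d : ℕ) (p : ℤˣ) (Y : Type) [TopologicalSpace Y] [ChartedSpace (E d) Y]
  [IsManifold 𝓘(ℂ, E d) ω Y] (ψ : Fs m true p → (Rt m true → ℂ) → Y)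
  (η : Fs m true p → Y → Rt m true → ℂ), 0 < m → Cell d wt nb ψ η → Trn3 ψ →
  ∃ G, Nrm nb Piv tr ψ G

/-- Normalisation, skew case. -/
def St_NR2 : Prop := ∀ (m d : ℕ) (p : ℤˣ) (Y : Type) [TopologicalSpace Y] [ChartedSpace (E d) Y]
  [IsManifold 𝓘(ℂ, E d) ω Y] (ψ : Fs m false p → (Rt m false → ℂ) → Y)
  (η : Fs m false p → Y → Rt m false → ℂ), Nonempty (Fs m false p) → Cell d wt nb ψ η → Trn2 ψ →
  ∃ G, Nrm nb Piv tr ψ G

/-- When two points of two cells coincide. -/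
def St_FLP : Prop := ∀ (m : ℕ) (σ : GT40.Fr m m → V m m → Gr m m), Gm σ →
  ∀ (o o' : Fin m → ℤˣ) (x y : V m m), σ (fr o') y = σ (fr o) x ↔ ∀ i l,
    (if o' l = o l then y i l else if i = l then 1 else 0) =
      (if o' i = o i then x i l else 0) + ∑ j, if o' j = o j then 0 else y i j * x j l

/-- Isotropic planes and cells. -/
def St_ISO : Prop := ∀ (m : ℕ) (b : Bool) (σ : GT40.Fr m m → V m m → Gr m m), Gm σ →
  (∀ o x, σ (fr o) x ∈ Iso (Fm m m (-dl b)) ↔ ∃ z : Rt m b → ℂ, emb o z = x) ∧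
  ∀ P ∈ Iso (Fm m m (-dl b)), ∃ o, P ∈ range (σ (fr o))

/-- The transition maps of the model. -/
def St_TRM : Prop := ∀ (m : ℕ) (b : Bool) (p : ℤˣ) (σ : GT40.Fr m m → V m m → Gr m m), Gm σ →
  (∀ (o : Fs m b p) r x, Piv r → x r ≠ 0 →
    σ (fr (nb o r).1) (emb (nb o r).1 (tr o r x)) = σ (fr o.1) (emb o.1 x)) ∧
  (∀ (o : Fs m b p) r (x : Rt m b → ℂ) y, Piv r →
    σ (fr (nb o r).1) y = σ (fr o.1) (emb o.1 x) → x r ≠ 0) ∧
  Edge nb fun (o : Fs m b p) (x : Rt m b → ℂ) => σ (fr o.1) (emb o.1 x)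

/-- A component is covered by the cells of one class. -/
def St_COV : Prop := ∀ (m : ℕ) (b : Bool) (σ : GT40.Fr m m → V m m → Gr m m) (P₀ : Gr m m), Gm σ →
  P₀ ∈ Iso (Fm m m (-dl b)) → CompactSpace (connectedComponentIn (Iso (Fm m m (-dl b))) P₀) ∧
  ∃ (p : ℤˣ) (σ' : Fs m b p → (Rt m b → ℂ) → connectedComponentIn (Iso (Fm m m (-dl b))) P₀),
    Gm2 _ σ σ'

/-- The cells of the model. -/
def St_MOD : Prop := ∀ (m : ℕ) (b : Bool) (p : ℤˣ) (X : Set (Gr m m))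
  (σ : GT40.Fr m m → V m m → Gr m m) (σ' : Fs m b p → (Rt m b → ℂ) → X), Gm2 X σ σ' →
  Mod wt nb Piv tr σ' ∧ Ov σ'

/-- From the hypotheses of the theorem to the data. -/
def St_DAT : Prop := ∀ (m d : ℕ) (b : Bool) (p : ℤˣ) (Y : Type) [TopologicalSpace Y]
  [ChartedSpace (E d) Y] [IsManifold 𝓘(ℂ, E d) ω Y] (X : Set (Gr m m))
  (σ : GT40.Fr m m → V m m → Gr m m) (σ' : Fs m b p → (Rt m b → ℂ) → X) (Φ : X ≃ₜ Y),
  Gm2 X σ σ' → Diffeo d Φ → TorusHol d (Fm m m (-dl b)) Φ →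
  ∃ κ ρ, Dat d wt nb (fun o x => Φ (σ' o x)) κ ρ

/-- From the glued map to the conclusion of the theorem. -/
def St_FIN : Prop := ∀ (m d : ℕ) (b : Bool) (p : ℤˣ) (Y : Type) [TopologicalSpace Y]
  [ChartedSpace (E d) Y] [IsManifold 𝓘(ℂ, E d) ω Y] (X : Set (Gr m m))
  (σ : GT40.Fr m m → V m m → Gr m m) (σ' : Fs m b p → (Rt m b → ℂ) → X)
  (ψ : Fs m b p → (Rt m b → ℂ) → Y) (η : Fs m b p → Y → Rt m b → ℂ) (φ : X ≃ₜ Y)
  (u : Fs m b p → Rt m b → ℂ), Gm2 X σ σ' → Cell d wt nb ψ η → (∀ o r, u o r ≠ 0) →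
  (∀ o x, φ (σ' o x) = ψ o (u o * x)) → Bihol d φ

/-- The case of the zero form. -/
def St_ZER : Prop := ∀ (k q d : ℕ) (P₀ : Gr k q) (Y : Type) [TopologicalSpace Y]
  [ChartedSpace (E d) Y] [IsManifold 𝓘(ℂ, E d) ω Y] (Φ : connectedComponentIn (Iso 0) P₀ ≃ₜ Y),
  0 < k → 0 < q → Diffeo d Φ → TorusHol d 0 Φ →
  ∃ Ψ : connectedComponentIn (Iso 0) P₀ ≃ₜ Y, Bihol d Ψ

/-- The theorem. -/
def St_MAIN : Prop := ∀ (k q d : ℕ) (S : Matrix (Fin (k + q)) (Fin (k + q)) ℂ) (P₀ : Gr k q)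
  (Y : Type) [TopologicalSpace Y] [ChartedSpace (E d) Y] [IsManifold 𝓘(ℂ, E d) ω Y]
  (Φ : connectedComponentIn (Iso S) P₀ ≃ₜ Y), 0 < k → 0 < q →
  (S = 0 ∨ k = q ∧ (S = Fm k q 1 ∨ S = Fm k q (-1))) → P₀ ∈ Iso S →
  (S ≠ 0 → ∃ h : Y → HS.Mat d, GH.Kaehler h) → Diffeo d Φ → TorusHol d S Φ →
  ∃ Ψ : connectedComponentIn (Iso S) P₀ ≃ₜ Y, Bihol d Ψ

/-! ### Kit -/

section kit

variable {ι R : Type} [Fintype ι] [Fintype R] [DecidableEq R] {m : ℕ} {b : Bool} {p : ℤˣ}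

theorem chi_ne (w : ι → ℤ) (τ : ι → ℂ) : chi w τ ≠ 0 := exp_ne_zero _

theorem chi_add (w : ι → ℤ) (τ τ' : ι → ℂ) : chi w (τ + τ') = chi w τ * chi w τ' := by
  simp only [chi, Pi.add_apply, mul_add, Finset.sum_add_distrib, exp_add]

theorem chi_zero (w : ι → ℤ) : chi w 0 = 1 := by simp [chi]

theorem chi_neg (w : ι → ℤ) (τ : ι → ℂ) : chi w (-τ) = (chi w τ)⁻¹ := by
  simp [chi, ← exp_neg]

theorem chi_opp (w : ι → ℤ) (τ : ι → ℂ) : chi (-w) τ = (chi w τ)⁻¹ := by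
  simp [chi, ← exp_neg]

theorem sg_sg (w : R → ι → ℤ) (τ τ' : ι → ℂ) (x : R → ℂ) :
    sg w τ (sg w τ' x) = sg w (τ + τ') x := by
  funext r
  simp only [sg, chi_add, mul_assoc]

theorem sg_zero (w : R → ι → ℤ) (x : R → ℂ) : sg w 0 x = x := by
  funext r
  simp [sg, chi_zero]

theorem sg_ax (w : R → ι → ℤ) (τ : ι → ℂ) (r : R) (z : ℂ) :
    sg w τ (ax r z) = ax r (chi (w r) τ * z) := by
  funext r'
  by_cases h : r' = r <;> simp [sg, ax, h]

theorem ax_zero (r : R) : ax r 0 = 0 := by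
  funext r'
  simp [ax]

theorem smul_ax (r : R) (c z : ℂ) : c • ax r z = ax r (c * z) := by
  funext r'
  by_cases h : r' = r <;> simp [ax, h]

theorem en_val (δ : ℂ) (x : Rt m b → ℂ) (r : Rt m b) : en δ x r.1.1 r.1.2 = x r := by
  simp only [en, r.2, dif_pos]

theorem mk_en (δ : ℂ) (x : Rt m b → ℂ) : mk (en δ x) = x := funext fun r => en_val δ x r

theorem dl_sq (b : Bool) : dl b * dl b = 1 := by cases b <;> simp [dl]

theorem en_symm (x : Rt m b → ℂ) (a c : Fin m) : en (dl b) x c a = dl b * en (dl b) x a c := by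
  rcases lt_trichotomy a c with h | rfl | h
  · simp [en, h, h.not_gt, h.ne']
  · cases b <;> simp [en, dl]
  · simp [en, h, h.not_gt, h.ne', ← mul_assoc, dl_sq]

theorem en_one_symm (x : Rt m b → ℂ) (a c : Fin m) : en 1 x c a = en 1 x a c := by
  rcases lt_trichotomy a c with h | rfl | h
  · simp [en, h, h.not_gt, h.ne']
  · rfl
  · simp [en, h, h.not_gt, h.ne']

theorem en_mk {M : Fin m → Fin m → ℂ} (h : ∀ a c, M c a = dl b * M a c) (a c : Fin m) :
    en (dl b) (mk M : Rt m b → ℂ) a c = M a c := by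
  rcases lt_trichotomy a c with h1 | rfl | h1
  · simp [en, mk, h1]
  · cases b
    · have := h a a
      simp only [dl, Bool.false_eq_true, if_false] at this
      simp only [en, lt_self_iff_false, Bool.false_eq_true, false_and, or_self, dif_neg,
        not_false_eq_true]
      linear_combination (-1 / 2 : ℂ) * this
    · simp [en, mk]
  · simp [en, mk, h1, h1.not_gt, h1.ne', h c a]

theorem en_one_mk {M : Fin m → Fin m → ℂ} (h : ∀ a c, M c a = M a c) {a c : Fin m}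
    (hac : b = true ∨ a ≠ c) : en 1 (mk M : Rt m b → ℂ) a c = M a c := by
  rcases lt_trichotomy a c with h1 | rfl | h1
  · simp [en, mk, h1]
  · simp [en, mk, hac.resolve_right fun h => h rfl]
  · simp [en, mk, h1, h1.not_gt, h1.ne', h c a]

theorem en_mul (δ : ℂ) (u x : Rt m b → ℂ) (a c : Fin m) :
    en δ (u * x) a c = en 1 u a c * en δ x a c := by
  unfold en
  split_ifs
  · rfl
  · simp only [Pi.mul_apply]
    ring
  · simp

theorem en_one_ne {u : Rt m b → ℂ} (hu : ∀ r, u r ≠ 0) {a c : Fin m} (h : b = true ∨ a ≠ c) :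
    en 1 u a c ≠ 0 := by
  rcases lt_trichotomy a c with h1 | rfl | h1
  · simp [en, h1, hu]
  · simp [en, h.resolve_right fun h => h rfl, hu]
  · simp [en, h1, h1.not_gt, h1.ne', hu]

theorem en_smul (δ t : ℂ) (x : Rt m b → ℂ) (a c : Fin m) : en δ (t • x) a c = t * en δ x a c := by
  unfold en
  split_ifs
  · rfl
  · simp only [Pi.smul_apply, smul_eq_mul]
    ring
  · simp

theorem en_add (δ : ℂ) (x y : Rt m b → ℂ) (a c : Fin m) :
    en δ (x + y) a c = en δ x a c + en δ y a c := by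
  unfold en
  split_ifs
  · rfl
  · simp only [Pi.add_apply]
    ring
  · simp

theorem en_ext {δ : ℂ} {x y : Rt m b → ℂ} (h : ∀ a c, en δ x a c = en δ y a c) : x = y :=
  funext fun r => by rw [← en_val δ x r, h, en_val]

/-- An entry of the matrix is a continuous linear function. -/
theorem en_clm (δ : ℂ) (a c : Fin m) :
    ∃ L : (Rt m b → ℂ) →L[ℂ] ℂ, ∀ x, L x = en δ x a c :=
  ⟨LinearMap.toContinuousLinearMap
    { toFun := fun x => en δ x a c
      map_add' := fun x y => en_add δ x y a c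
      map_smul' := fun t x => en_smul δ t x a c }, fun _ => rfl⟩

/-- The action of the torus in multiplicative form. -/
theorem sg_onto (o : Fs m b p) {t : Fin m → ℂ} (ht : ∀ a, t a ≠ 0) :
    ∃ τ, ∀ (o' : Fs m b p) (r : Rt m b), chi (wt o' r) τ =
      (if o'.1 r.1.1 = o.1 r.1.1 then t r.1.1 else (t r.1.1)⁻¹) *
        if o'.1 r.1.2 = o.1 r.1.2 then t r.1.2 else (t r.1.2)⁻¹ := by
  refine ⟨fun a => ((o.1 a : ℤ) : ℂ) * (-I * log (t a)), fun o' r => ?_⟩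
  have e : ∀ a, exp (I * (((o'.1 a : ℤ) : ℂ) * (((o.1 a : ℤ) : ℂ) * (-I * log (t a))))) =
      if o'.1 a = o.1 a then t a else (t a)⁻¹ := by
    intro a
    have e1 : I * (-I * log (t a)) = log (t a) := by
      rw [← mul_assoc, mul_neg, I_mul_I, neg_neg, one_mul]
    rcases Int.units_eq_one_or (o'.1 a) with h | h <;>
      rcases Int.units_eq_one_or (o.1 a) with h' | h' <;>
      simp [h, h', ← mul_assoc, exp_neg, exp_log (ht a)]
  rw [← e, ← e, ← exp_add, ← mul_add, chi]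
  simp only [wt, Int.cast_add, Int.cast_ite, Int.cast_zero, add_mul, ite_mul, zero_mul,
    Finset.sum_add_distrib, Finset.sum_ite_eq', Finset.mem_univ, if_true]

/-- Scaling of rows and columns. -/
def st (t : Fin m → ℂ) (x : Rt m b → ℂ) : Rt m b → ℂ := fun r => t r.1.1 * t r.1.2 * x r

theorem en_st (δ : ℂ) (t : Fin m → ℂ) (x : Rt m b → ℂ) (a c : Fin m) :
    en δ (st t x) a c = t a * t c * en δ x a c := by
  unfold en
  split_ifs
  · rfl
  · simp only [st]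
    ring
  · simp

/-- Equivariance in multiplicative form. -/
theorem eq_st {Y : Type} {ψ : Fs m b p → (Rt m b → ℂ) → Y}
    (h : ∀ τ o o' x x', ψ o x = ψ o' x' → ψ o (sg (wt o) τ x) = ψ o' (sg (wt o') τ x'))
    {t : Fin m → ℂ} (ht : ∀ a, t a ≠ 0) {o o' : Fs m b p} {x x' : Rt m b → ℂ}
    (e : ψ o x = ψ o' x') :
    ψ o (st t x) = ψ o' (st (fun a => if o'.1 a = o.1 a then t a else (t a)⁻¹) x') := by
  obtain ⟨τ, hτ⟩ := sg_onto o ht
  have h1 : st t x = sg (wt o) τ x := funext fun r => by simp [st, sg, hτ]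
  have h2 : st (fun a => if o'.1 a = o.1 a then t a else (t a)⁻¹) x' = sg (wt o') τ x' :=
    funext fun r => by simp [st, sg, hτ]
  rw [h1, h2]
  exact h τ o o' x x' e

theorem neg_ne (u : ℤˣ) : -u ≠ u := by
  rcases Int.units_eq_one_or u with rfl | rfl <;> decide

theorem fl_eq (o : Fs m b p) (a c : Fin m) (h : b = true ∨ a ≠ c) (e : Fin m) :
    (fl o a c h).1 e = o.1 e ↔ e ≠ a ∧ e ≠ c := by
  by_cases h1 : e = a ∨ e = c
  · simp only [fl, fv, h1, if_true, neg_ne, false_iff]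
    tauto
  · simp only [fl, fv, h1, if_false, true_iff]
    tauto

theorem fl_fl (o : Fs m b p) (a c : Fin m) (h : b = true ∨ a ≠ c) : fl (fl o a c h) a c h = o := by
  refine Subtype.ext (funext fun e => ?_)
  by_cases h1 : e = a ∨ e = c <;> simp [fl, fv, h1]

theorem fl_comm (o : Fs m b p) (a c : Fin m) (h : b = true ∨ a ≠ c) (h' : b = true ∨ c ≠ a) :
    fl o a c h = fl o c a h' := Subtype.ext (funext fun e => by simp [fl, fv, or_comm])

/-- The element of the big torus attached to an element of the small one. -/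
def big {K : Type} [Neg K] (τ : Fin m → K) : Fin (m + m) → K := fun a =>
  Sum.elim (fun c => -τ c) τ (finSumFinEquiv.symm a)

theorem fr_inl (o : Fin m → ℤˣ) (a : Fin m) :
    fr o (inl a) = finSumFinEquiv (if o a = 1 then inl a else inr a) := rfl

theorem fr_inr (o : Fin m → ℤˣ) (a : Fin m) :
    fr o (inr a) = finSumFinEquiv (if o a = 1 then inr a else inl a) := rfl

theorem big_cx (θ : Fin m → ℝ) : big (cx θ) = cx (big θ) := by
  funext a
  obtain ⟨c, rfl⟩ := finSumFinEquiv.surjective a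
  simp only [big, cx, Equiv.symm_apply_apply]
  rcases c with c | c <;> simp [cx]

theorem en_sg (δ : ℂ) (o : Fs m b p) (τ : Fin m → ℂ) (x : Rt m b → ℂ) (a c : Fin m) :
    en δ (sg (wt o) τ x) a c =
      exp (I * ((o.1 a : ℤ) * τ a)) * exp (I * ((o.1 c : ℤ) * τ c)) * en δ x a c := by
  rw [← en_st δ fun a => exp (I * ((o.1 a : ℤ) * τ a))]
  congr 1
  funext r
  rw [st, ← exp_add, ← mul_add, sg, chi]
  simp only [wt, Int.cast_add, Int.cast_ite, Int.cast_zero, add_mul, ite_mul, zero_mul,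
    Finset.sum_add_distrib, Finset.sum_ite_eq', Finset.mem_univ, if_true]

theorem emb_sg (o : Fs m b p) (τ : Fin m → ℂ) (x : Rt m b → ℂ) :
    emb o.1 (sg (wt o) τ x) = GT40.sc (GT40.ex (big τ) ∘ fr o.1) (emb o.1 x) := by
  funext i l
  simp only [emb, en_sg, GT40.sc, Function.comp, GT40.ex, big, fr_inl, fr_inr,
    Equiv.symm_apply_apply]
  rcases Int.units_eq_one_or (o.1 i) with h | h <;>
    rcases Int.units_eq_one_or (o.1 l) with h' | h' <;>
    simp [h, h', exp_neg, div_eq_mul_inv] <;> ring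

end kit

end Pool.Agent.Lib.GU40
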