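import Pool.Agent.Lib.GU40.Blue

/-! Project gu40: tools for the shape of the transition maps. -/

open scoped Manifold ContDiff Topology
open Set Filter Complex

noncomputable section

namespace Pool.Agent.Lib.GU40.K28

open Pool.Agent.Lib.GT40 (E)

/-- A function of degree one along a curve. -/
theorem deg1 {V : Type} [NormedAddCommGroup V] [NormedSpace ℂ V] {F : V → ℂ} {q v w : V} {c : ℂ}
    (hF : DifferentiableAt ℂ F q) (h : ∀ s : ℂ, s ≠ 0 → F (q + s • v + (s * s) • w) = s * c) :
    c = fderiv ℂ F q v := by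
  have h1 : HasDerivAt (fun s : ℂ => q + s • v + (s * s) • w) v 0 := by
    simpa using (((hasDerivAt_id' (0 : ℂ)).smul_const v).const_add q).fun_add
      (((hasDerivAt_id' (0 : ℂ)).fun_mul (hasDerivAt_id' (0 : ℂ))).smul_const w)
  have h2 : HasDerivAt (fun s : ℂ => F (q + s • v + (s * s) • w)) (fderiv ℂ F q v) 0 :=
    HasFDerivAt.comp_hasDerivAt_of_eq 0 hF.hasFDerivAt h1 (by simp)
  have h3 : HasDerivAt (fun s : ℂ => s * c) c 0 := by
    simpa using (hasDerivAt_id (0 : ℂ)).mul_const c
  have h4 : (fun s : ℂ => F (q + s • v + (s * s) • w)) =ᶠ[𝓝[≠] 0] fun s => s * c :=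
    eventually_nhdsWithin_of_forall h
  have h5 := tendsto_nhds_unique_of_eventuallyEq
    (h2.continuousAt.tendsto.mono_left nhdsWithin_le_nhds)
    (h3.continuousAt.tendsto.mono_left nhdsWithin_le_nhds) h4
  have h6 : (fun s : ℂ => F (q + s • v + (s * s) • w)) = fun s => s * c := funext fun s => by
    by_cases hs : s = 0
    · rw [hs]
      exact h5
    · exact h s hs
  exact h3.unique (h6 ▸ h2)

variable {m : ℕ} {b : Bool} {p : ℤˣ}

/-- The unit vectors. -/
def U (i j : Fin m) : Rt m b → ℂ :=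
  mk fun e f => if e = i ∧ f = j then 1 else if e = j ∧ f = i then dl b else 0

theorem en_U {i j : Fin m} (h : b = true ∨ i ≠ j) (e f : Fin m) :
    en (dl b) (U i j : Rt m b → ℂ) e f =
      if e = i ∧ f = j then 1 else if e = j ∧ f = i then dl b else 0 := by
  refine en_mk (M := fun e f => if e = i ∧ f = j then 1 else if e = j ∧ f = i then dl b else 0)
    (fun a c => ?_) e f
  by_cases hij : i = j
  · have : b = true := h.resolve_right fun h => h hij
    subst this hij
    by_cases h1 : a = i <;> by_cases h2 : c = i <;> simp [h1, h2, dl]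
  · by_cases h1 : a = i <;> by_cases h2 : c = j <;> by_cases h3 : a = j <;>
      by_cases h4 : c = i <;> simp_all [dl_sq]

theorem st_U (t : Fin m → ℂ) (i j : Fin m) :
    st t (U i j : Rt m b → ℂ) = (t i * t j) • U i j := by
  funext r
  simp only [st, U, mk, Pi.smul_apply, smul_eq_mul]
  split_ifs with h1 h2
  · rw [h1.1, h1.2]
  · rw [h2.1, h2.2, mul_comm (t j)]
  · simp

theorem st_add (t : Fin m → ℂ) (x y : Rt m b → ℂ) : st t (x + y) = st t x + st t y :=
  funext fun _ => mul_add _ _ _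

theorem st_smul (t : Fin m → ℂ) (c : ℂ) (x : Rt m b → ℂ) : st t (c • x) = c • st t x :=
  funext fun _ => mul_left_comm _ _ _

theorem st_lim (S : Fin m → Prop) [DecidablePred S] (x : Rt m b → ℂ) :
    Tendsto (fun s : ℂ => st (fun e => if S e then 1 else s) x) (𝓝[≠] 0)
      (𝓝 (st (fun e => if S e then 1 else 0) x)) := by
  have : Continuous fun s : ℂ => st (fun e => if S e then 1 else s) x := by
    refine continuous_pi fun r => ?_
    simp only [st]
    split_ifs <;> fun_prop
  exact (this.tendsto 0).mono_left nhdsWithin_le_nhds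

/-- An invariant function depends only on a block. -/
theorem cut (S : Fin m → Prop) [DecidablePred S] {F : (Rt m b → ℂ) → ℂ} {x : Rt m b → ℂ}
    (hc : ContinuousAt F (st (fun e => if S e then 1 else 0) x))
    (h : ∀ s : ℂ, s ≠ 0 → F (st (fun e => if S e then 1 else s) x) = F x) :
    F x = F (st (fun e => if S e then 1 else 0) x) :=
  tendsto_nhds_unique (l := 𝓝[≠] (0 : ℂ)) (tendsto_const_nhds.congr'
    (eventually_nhdsWithin_of_forall fun s hs => (h s hs).symm)) (hc.tendsto.comp (st_lim S x))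

variable {d : ℕ} {Y : Type} [TopologicalSpace Y] [ChartedSpace (E d) Y]
  {ψ : Fs m b p → (Rt m b → ℂ) → Y} {η : Fs m b p → Y → Rt m b → ℂ}

theorem mem (h : Cell d wt nb ψ η) (o : Fs m b p) {r : Rt m b} (hr : Piv r) {x : Rt m b → ℂ}
    (hx : x r ≠ 0) : ψ o x ∈ range (ψ (nb o r)) := by
  obtain ⟨y, hy⟩ := h.edge o r
  obtain ⟨w, hw⟩ := IsAlgClosed.exists_eq_mul_self (x r)
  have w0 : w ≠ 0 := fun e => hx (by rw [hw, e, mul_zero])
  have e : st (fun e => if e = r.1.1 ∨ e = r.1.2 then 1 else 0) x = st (fun _ => w) (ax r 1) := by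
    funext r'
    by_cases c : r' = r
    · simp [st, ax, c, hw]
    · simp only [st, ax, if_neg c, mul_zero]
      split_ifs with h1 h2
      · have h3 := r.2
        have h4 := r'.2
        rcases hr with rfl | hr
        · simp only [Bool.false_eq_true, false_and, or_false] at h3 h4
          refine (c (Subtype.ext (Prod.ext ?_ ?_))).elim <;> omega
        · refine (c (Subtype.ext (Prod.ext ?_ ?_))).elim <;> omega
      · simp
      · simp
      · simp
  have h1 : ψ o (st (fun e => if e = r.1.1 ∨ e = r.1.2 then 1 else 0) x) ∈ range (ψ (nb o r)) :=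
    ⟨_, (e ▸ eq_st h.eq (fun _ => w0) hy.symm).symm⟩
  obtain ⟨s, ⟨z, hz⟩, hs⟩ := (((((h.hol o).continuous.tendsto _).comp (st_lim _ x)).eventually
    ((h.op _).mem_nhds h1)).and self_mem_nhdsWithin).exists
  have s0 : s ≠ 0 := hs
  refine ⟨_, (eq_st h.eq (t := fun e => if e = r.1.1 ∨ e = r.1.2 then 1 else s⁻¹)
    (fun _ => by split_ifs <;> simp [s0]) hz.symm).symm.trans (congrArg _ ?_)⟩
  funext r'
  simp only [st]
  split_ifs <;> field_simp

/-- The transition map: holomorphic, injective, equivariant. -/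
theorem base (h : Cell d wt nb ψ η) (o : Fs m b p) (a c : Fin m) (h1 : b = true ∨ a ≠ c)
    (h2 : b = false ∨ a = c) : ∃ th : (Rt m b → ℂ) → Rt m b → ℂ,
    (∀ x, en (dl b) x a c ≠ 0 → ψ (fl o a c h1) (th x) = ψ o x ∧
      ∀ e f, DifferentiableAt ℂ (fun y => en (dl b) (th y) e f) x) ∧
    (∀ x y, en (dl b) x a c ≠ 0 → en (dl b) y a c ≠ 0 → th x = th y → x = y) ∧
    ∀ t x, (∀ e, t e ≠ 0) → en (dl b) x a c ≠ 0 → ∀ e f, en (dl b) (th (st t x)) e f =
      (if e = a ∨ e = c then (t e)⁻¹ else t e) * (if f = a ∨ f = c then (t f)⁻¹ else t f) *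
        en (dl b) (th x) e f := by
  have mm : ∀ x, en (dl b) x a c ≠ 0 → ψ o x ∈ range (ψ (fl o a c h1)) := by
    intro x hx
    by_cases k : a < c ∨ (b = true ∧ a = c)
    · exact mem h o (r := ⟨(a, c), k⟩) h2 (by rwa [← en_val (dl b) x])
    · have k' : c < a := by
        rcases lt_trichotomy a c with q | q | q
        · exact (k (Or.inl q)).elim
        · exact (k (Or.inr ⟨h1.resolve_right fun h => h q, q⟩)).elim
        · exact q
      rw [fl_comm o a c h1 (Or.inr k'.ne)]
      refine mem h o (r := ⟨(c, a), Or.inl k'⟩) (h2.imp id Eq.symm) fun e => hx ?_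
      rw [en_symm, en_val (dl b) x ⟨(c, a), Or.inl k'⟩, e, mul_zero]
  have back : ∀ x, en (dl b) x a c ≠ 0 →
      ψ (fl o a c h1) (η (fl o a c h1) (ψ o x)) = ψ o x := fun x hx => by
    obtain ⟨y, hy⟩ := mm x hx
    rw [← hy, h.inv]
  refine ⟨fun x => η (fl o a c h1) (ψ o x), fun x hx => ⟨back x hx, fun e f => ?_⟩,
    fun x y hx hy e => ?_, fun t x ht hx e f => ?_⟩
  · obtain ⟨y, hy⟩ := mm x hx
    obtain ⟨L, hL⟩ := en_clm (m := m) (b := b) (dl b) e f
    simp only [← hL]
    exact L.differentiableAt.comp x (mdifferentiableAt_iff_differentiableAt.1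
      (MDifferentiableAt.comp x (hy ▸ h.hi _ y) (h.hol o x)))
  · beta_reduce at e
    rw [← h.inv o x, ← back x hx, e, back y hy, h.inv]
  · beta_reduce
    rw [eq_st h.eq ht (back x hx).symm, h.inv, en_st]
    simp only [fl_eq, ← not_or, ite_not]

end Pool.Agent.Lib.GU40.K28
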