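import Pool.Agent.Lib.GU40.B_CMB

/-! Project gu40: tools for the normalisation. -/

open scoped Manifold ContDiff Topology Matrix
open Set Filter Metric Complex Sum

set_option linter.unusedVariables false
set_option linter.unusedSectionVars false

noncomputable section

namespace Pool.Agent.Lib.GU40

open Pool.Agent.Lib.GT40 (E V Gr Full Spans cx RAct Act Gm kp Mt)

namespace NRK

variable {m d : ℕ} {b : Bool} {p : ℤˣ} {Y : Type} [TopologicalSpace Y] [ChartedSpace (E d) Y]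
  {ψ : Fs m b p → (Rt m b → ℂ) → Y} {η : Fs m b p → Y → Rt m b → ℂ}

/-- The point lies on the cone of the cell `o'`. -/
def As (ψ : Fs m b p → (Rt m b → ℂ) → Y) (o o' : Fs m b p) (x : Rt m b → ℂ) : Prop :=
  ∃ y, ψ o' y = ψ o x ∧ ∀ r : Rt m b, o'.1 r.1.1 = o.1 r.1.1 → o'.1 r.1.2 = o.1 r.1.2 → y r = 0

theorem inj (hc : Cell d wt nb ψ η) (o : Fs m b p) {x y : Rt m b → ℂ} (h : ψ o x = ψ o y) :
    x = y := by
  rw [← hc.inv o x, h, hc.inv]

theorem back (hc : Cell d wt nb ψ η) {o o' : Fs m b p} {t : Fin m → ℂ} (ht : ∀ a, t a ≠ 0)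
    {x : Rt m b → ℂ} (h : ψ o (st t x) ∈ range (ψ o')) : ψ o x ∈ range (ψ o') := by
  obtain ⟨y, hy⟩ := h
  have h1 := eq_st hc.eq (t := fun a => (t a)⁻¹) (fun a => inv_ne_zero (ht a)) hy.symm
  refine ⟨_, h1.symm.trans (congrArg _ (funext fun r => ?_))⟩
  have := ht r.1.1
  have := ht r.1.2
  simp only [st]
  field_simp

theorem near (hc : Cell d wt nb ψ η) {o o' : Fs m b p} {z : ℂ → Rt m b → ℂ} (hz : Continuous z)
    (h : ψ o (z 0) ∈ range (ψ o')) : (∃ s, s ≠ 0 ∧ ψ o (z s) ∈ range (ψ o')) ∧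
      ContinuousAt (fun s => η o' (ψ o (z s))) 0 := by
  have a2 : ContinuousAt (fun s => ψ o (z s)) 0 := ((hc.hol _).continuous.comp hz).continuousAt
  refine ⟨?_, ?_⟩
  · have h2 : ∀ᶠ s : ℂ in 𝓝 0, ψ o (z s) ∈ range (ψ o') := a2.eventually ((hc.op o').mem_nhds h)
    obtain ⟨s, h3, h4⟩ := ((h2.filter_mono (nhdsWithin_le_nhds (s := {0}ᶜ))).and
      self_mem_nhdsWithin).exists
    exact ⟨s, h4, h3⟩
  · obtain ⟨w, hw⟩ := h
    have a1 : ContinuousAt (η o') (ψ o (z 0)) := hw ▸ (hc.hi _ w).continuousAt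
    exact ContinuousAt.comp (f := fun s => ψ o (z s)) a1 a2

theorem lim0 {f : ℂ → ℂ} (hf : ContinuousAt f 0) {g : ℂ → ℂ} (hg : Continuous g) (g0 : g 0 = 0)
    {k : ℂ} (h : ∀ s, s ≠ 0 → g s * f s = k) : k = 0 := by
  have t2 := (hg.continuousAt.mul hf).tendsto.mono_left (nhdsWithin_le_nhds (s := {0}ᶜ))
  rw [Pi.mul_apply, g0, zero_mul] at t2
  refine tendsto_nhds_unique tendsto_const_nhds (t2.congr' ?_)
  filter_upwards [self_mem_nhdsWithin] with s hs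
  exact h s hs

theorem key (hc : Cell d wt nb ψ η) {o o₁ o₂ : Fs m b p} {x y : Rt m b → ℂ} (h : ψ o₁ y = ψ o x)
    (h0 : ∀ r : Rt m b, o₁.1 r.1.1 = o.1 r.1.1 → o₁.1 r.1.2 = o.1 r.1.2 → y r = 0)
    (hz : ψ o₁ (fun r => if o₁.1 r.1.1 ≠ o.1 r.1.1 ∧ o₁.1 r.1.2 ≠ o.1 r.1.2 then 0 else y r) ∈
      range (ψ o₂)) : As ψ o o₂ x := by
  set z : ℂ → Rt m b → ℂ := fun s r =>
    if o₁.1 r.1.1 ≠ o.1 r.1.1 ∧ o₁.1 r.1.2 ≠ o.1 r.1.2 then s * s * y r else y r with hz'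
  have z1 : Continuous z := continuous_pi fun r => by
    simp only [hz']
    split_ifs <;> fun_prop
  have z2 : ∀ s, s ≠ 0 → ψ o (st (fun _ => s⁻¹) x) = ψ o₁ (z s) := fun s hs => by
    rw [eq_st hc.eq (fun _ => inv_ne_zero hs) h.symm]
    refine congrArg _ (funext fun r => ?_)
    have := h0 r
    by_cases h1 : o₁.1 r.1.1 = o.1 r.1.1 <;> by_cases h2 : o₁.1 r.1.2 = o.1 r.1.2 <;>
      simp [st, hz', h1, h2, hs]
    rw [this h1 h2, mul_zero]
  obtain ⟨⟨s, hs, h1⟩, h2⟩ := near hc (o' := o₂) z1 (by simpa [hz'] using hz)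
  rw [← z2 s hs] at h1
  obtain ⟨y₂, hy₂⟩ := back hc (fun _ => inv_ne_zero hs) h1
  refine ⟨y₂, hy₂, fun r e1 e2 => lim0 ((continuous_apply r).continuousAt.comp h2)
    (g := fun s => s * s) (by fun_prop) (by simp) fun s hs => ?_⟩
  simp only [Function.comp]
  rw [← z2 s hs, eq_st hc.eq (fun _ => inv_ne_zero hs) hy₂.symm, hc.inv]
  simp only [st, e1, e2, if_true]
  field_simp

theorem mem (hc : Cell d wt nb ψ η) {o o' : Fs m b p} {r : Rt m b} {k : ℂ} (hk : k ≠ 0)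
    (h : ∀ w, w r ≠ 0 → ∃ y, ψ o y = ψ o' w ∧ y r = k / w r) {x : Rt m b → ℂ}
    (hx : ψ o x ∈ range (ψ o')) : x r ≠ 0 := by
  obtain ⟨w, hw⟩ := hx
  by_cases h1 : w r = 0
  · exfalso
    obtain ⟨-, h2⟩ := near hc (o := o') (o' := o) (z := fun s => w + s • 1) (by fun_prop)
      ⟨x, by simpa using hw.symm⟩
    refine hk (lim0 ((continuous_apply r).continuousAt.comp h2) continuous_id rfl fun s hs => ?_)
    obtain ⟨y, h3, h4⟩ := h (w + s • 1) (by simpa [h1] using hs)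
    simp only [Function.comp]
    rw [← h3, hc.inv, h4]
    simp only [Pi.add_apply, h1, Pi.smul_apply, Pi.one_apply, smul_eq_mul, id, mul_one, zero_add]
    field_simp
  · obtain ⟨y, h3, h4⟩ := h w h1
    rw [← inj hc o (h3.trans hw), h4]
    exact div_ne_zero hk h1

theorem en_zero {δ : ℂ} {y : Rt m b → ℂ} {q : Fin m → Prop}
    (h : ∀ r : Rt m b, q r.1.1 → q r.1.2 → y r = 0) {e f : Fin m} (he : q e) (hf : q f) :
    en δ y e f = 0 := by
  unfold en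
  split_ifs with h1 h2
  · exact h _ he hf
  · rw [h ⟨(f, e), Or.inl h2⟩ hf he, mul_zero]
  · rfl

theorem en_ite (δ : ℂ) (y : Rt m b → ℂ) (q : Fin m → Prop) [DecidablePred q] (e f : Fin m) :
    en δ (fun r => if q r.1.1 ∧ q r.1.2 then 0 else y r) e f =
      if q e ∧ q f then 0 else en δ y e f := by
  unfold en
  by_cases h1 : q e <;> by_cases h2 : q f <;> simp [h1, h2]

end NRK

end Pool.Agent.Lib.GU40
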