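import Pool.Agent.Lib.GT40.SDefs
import Pool.Agent.Lib.GH.SDefs

/-! Spaces of isotropic planes, smooth and holomorphic identifications, the action of the torus. -/

open scoped Manifold ContDiff Topology Matrix

namespace Pool.Agent.Lib.GU40

open Pool.Agent.Lib.GT40 (Gr Full Spans)

variable {k q d : ℕ} {Y : Type} [TopologicalSpace Y] [ChartedSpace (Fin d → ℂ) Y]

variable (k q) in
/-- The block matrix with blocks `0, 1, ε, 0`. -/
def Fm (ε : ℂ) : Matrix (Fin (k + q)) (Fin (k + q)) ℂ :=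
  Matrix.of fun a b => if a.1 + k = b.1 then 1 else if b.1 + k = a.1 then ε else 0

/-- The planes on which the bilinear form `S` vanishes. -/
def Iso (S : Matrix (Fin (k + q)) (Fin (k + q)) ℂ) : Set (Gr k q) :=
  {P | (Matrix.of P.1)ᵀ * S * Matrix.of P.1 = 0}

/-- The bases of the planes of `X`. -/
def Bas (X : Set (Gr k q)) : Set (Fin (k + q) → Fin k → ℂ) := {A | Full A ∧ ∃ P ∈ X, Spans P A}

variable {X : Set (Gr k q)}

variable (d) in
/-- `Φ` is a diffeomorphism: it is smooth as a function of a basis of the plane, and its inverse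
is smooth as a map to the space of matrices. -/
def Diffeo (Φ : X ≃ₜ Y) : Prop :=
  (∃ F : (Fin (k + q) → Fin k → ℂ) → Y,
    ContMDiffOn 𝓘(ℝ, Fin (k + q) → Fin k → ℂ) 𝓘(ℝ, Fin d → ℂ) ∞ F (Bas X) ∧
    ∀ A (P : X), Full A → Spans P.1 A → F A = Φ P) ∧
  ContMDiff 𝓘(ℝ, Fin d → ℂ) 𝓘(ℝ, Fin (k + q) → Fin (k + q) → ℂ) ∞ fun y => (Φ.symm y).1.1

variable (d) in
/-- `Ψ` is biholomorphic: it is holomorphic as a function of a basis of the plane, and its inverse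
is locally spanned by a holomorphic basis. -/
def Bihol (Ψ : X ≃ₜ Y) : Prop :=
  (∃ F : (Fin (k + q) → Fin k → ℂ) → Y,
    MDifferentiableOn 𝓘(ℂ, Fin (k + q) → Fin k → ℂ) 𝓘(ℂ, Fin d → ℂ) F (Bas X) ∧
    ∀ A (P : X), Full A → Spans P.1 A → F A = Ψ P) ∧
  ∀ y, ∃ a : Y → Fin (k + q) → Fin k → ℂ, ∀ᶠ z in 𝓝 y,
    MDifferentiableAt 𝓘(ℂ, Fin d → ℂ) 𝓘(ℂ, Fin (k + q) → Fin k → ℂ) a z ∧ Full (a z) ∧
      Spans (Ψ.symm z).1 (a z)

variable (d) in
/-- Every diagonal unitary matrix that preserves `S` acts on `Y`, through `Φ`, by a holomorphic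
map. -/
def TorusHol (S : Matrix (Fin (k + q)) (Fin (k + q)) ℂ) (Φ : X ≃ₜ Y) : Prop :=
  ∀ θ : Fin (k + q) → ℝ,
    (∀ a b, Complex.exp (Complex.I * θ a) * S a b * Complex.exp (Complex.I * θ b) = S a b) →
    ∃ f : Y → Y, MDifferentiable 𝓘(ℂ, Fin d → ℂ) 𝓘(ℂ, Fin d → ℂ) f ∧
      ∀ P P' : X, (∀ a b, P'.1.1 a b =
        Complex.exp (Complex.I * θ a) * P.1.1 a b * Complex.exp (-(Complex.I * θ b))) →
        f (Φ P) = Φ P'

end Pool.Agent.Lib.GU40
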